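import Mathlib

set_option autoImplicit false

open scoped ComplexConjugate

namespace Pool.Agent.H8.Theta

theorem n_sq (w c d : ℂ) : ‖w * c + conj w * d‖ ^ 2 = ‖w‖ ^ 2 * ‖c - d‖ ^ 2 + 4 * w.re * (w * c * conj d).re := by
  rw [← Complex.normSq_eq_norm_sq, ← Complex.normSq_eq_norm_sq, ← Complex.normSq_eq_norm_sq]
  simp only [Complex.normSq_apply, Complex.add_re, Complex.add_im, Complex.mul_re, Complex.mul_im, Complex.conj_re, Complex.conj_im, Complex.sub_re, Complex.sub_im]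
  ring

theorem n_lower (w c d : ℂ) (δ : ℝ) (hδ : 0 < δ) (h1 : δ ≤ w.re) (h2 : δ ≤ (w * c * conj d).re) : δ ≤ ‖w * c + conj w * d‖ := by
  have h := n_sq w c d
  have h3 : δ ^ 2 ≤ ‖w * c + conj w * d‖ ^ 2 := by
    rw [h]
    nlinarith [mul_nonneg (sq_nonneg ‖w‖) (sq_nonneg ‖c - d‖), mul_le_mul h1 h2 hδ.le (hδ.le.trans h1)]
  exact le_of_sq_le_sq h3 (norm_nonneg _)

theorem alg_id (w v c d g k : ℂ) (hv : v * w = 1) :
    (g * conj (w * g + d * k + (conj w * g - c * k))).re - (v * (w * g + d * k) * conj (conj w * g - c * k)).re =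
      w.re * ‖g‖ ^ 2 + (v * d * conj c).re * ‖k‖ ^ 2 := by
  have E : g * conj (w * g + d * k + (conj w * g - c * k)) - v * (w * g + d * k) * conj (conj w * g - c * k) =
      conj w * (g * conj g) + (g * conj d * conj k - conj (g * conj d * conj k)) + v * d * conj c * (k * conj k) := by
    simp only [map_add, map_sub, map_mul, Complex.conj_conj]
    linear_combination (-(g * w * conj g) + g * conj c * conj k - d * k * conj g) * hv
  have h := congrArg Complex.re E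
  rw [Complex.sub_re] at h
  rw [h, Complex.add_re, Complex.add_re, Complex.sub_re, Complex.conj_re, sub_self, add_zero, Complex.mul_conj, Complex.mul_conj,
    mul_comm (conj w), Complex.re_ofReal_mul, Complex.conj_re, mul_comm (v * d * conj c), Complex.re_ofReal_mul, Complex.normSq_eq_norm_sq, Complex.normSq_eq_norm_sq]
  ring

theorem alg1 (w c d p q : ℂ) (δ M : ℝ) (hδ : 0 < δ) (hM : 1 ≤ M) (h1 : δ ≤ w.re) (h2 : δ ≤ (w * c * conj d).re)
    (hw : ‖w‖ ≤ M) (hc : ‖c‖ ≤ M) (hd : ‖d‖ ≤ M) :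
    δ / (4 * M ^ 4) * (‖p‖ ^ 2 + ‖q‖ ^ 2) ≤ (((w * c + conj w * d)⁻¹ * (c * p + d * q)) * conj (p + q)).re - (w⁻¹ * p * conj q).re := by
  have hn : w * c + conj w * d ≠ 0 := by
    rw [← norm_pos_iff]
    exact hδ.trans_le (n_lower w c d δ hδ h1 h2)
  have hw0 : w ≠ 0 := by
    rintro rfl
    simp at h1; linarith
  obtain ⟨g, hg⟩ : ∃ g, g = (w * c + conj w * d)⁻¹ * (c * p + d * q) := ⟨_, rfl⟩
  obtain ⟨k, hk⟩ : ∃ k, k = (w * c + conj w * d)⁻¹ * (conj w * p - w * q) := ⟨_, rfl⟩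
  have hp : p = w * g + d * k := by
    rw [hg, hk]
    field_simp
    ring
  have hq : q = conj w * g - c * k := by
    rw [hg, hk]
    field_simp
    ring
  rw [← hg]
  have hnp : ‖p‖ ≤ M * ‖g‖ + M * ‖k‖ := by
    rw [hp]
    refine (norm_add_le _ _).trans ?_
    rw [norm_mul, norm_mul]
    gcongr
  have hnq : ‖q‖ ≤ M * ‖g‖ + M * ‖k‖ := by
    rw [hq]
    refine (norm_sub_le _ _).trans ?_
    rw [norm_mul, norm_mul, RCLike.norm_conj]
    gcongr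
  have hid := alg_id w w⁻¹ c d g k (inv_mul_cancel₀ hw0)
  rw [← hp, ← hq] at hid
  rw [hid]
  have hv : (w⁻¹ * d * conj c).re = (w * c * conj d).re / ‖w‖ ^ 2 := by
    have : w⁻¹ * d * conj c = ((‖w‖ ^ 2)⁻¹ : ℝ) * conj (w * c * conj d) := by
      rw [Complex.inv_def, Complex.normSq_eq_norm_sq]
      simp only [map_mul, Complex.conj_conj]
      ring
    rw [this, Complex.re_ofReal_mul, Complex.conj_re]
    ring
  rw [hv]
  have hwp : 0 < ‖w‖ := norm_pos_iff.2 hw0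
  have hM0 : 0 < M := by linarith
  have h3 : δ / M ^ 2 ≤ (w * c * conj d).re / ‖w‖ ^ 2 := by
    apply div_le_div₀ (hδ.le.trans h2) h2 (by positivity)
    gcongr
  have h4 : ‖p‖ ^ 2 ≤ 2 * M ^ 2 * (‖g‖ ^ 2 + ‖k‖ ^ 2) := by
    have : ‖p‖ ^ 2 ≤ (M * ‖g‖ + M * ‖k‖) ^ 2 := by gcongr
    nlinarith [sq_nonneg (M * (‖g‖ - ‖k‖))]
  have h5 : ‖q‖ ^ 2 ≤ 2 * M ^ 2 * (‖g‖ ^ 2 + ‖k‖ ^ 2) := by
    have : ‖q‖ ^ 2 ≤ (M * ‖g‖ + M * ‖k‖) ^ 2 := by gcongr
    nlinarith [sq_nonneg (M * (‖g‖ - ‖k‖))]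
  calc δ / (4 * M ^ 4) * (‖p‖ ^ 2 + ‖q‖ ^ 2) ≤ δ / (4 * M ^ 4) * (4 * M ^ 2 * (‖g‖ ^ 2 + ‖k‖ ^ 2)) := by gcongr; linarith
    _ = δ / M ^ 2 * ‖g‖ ^ 2 + δ / M ^ 2 * ‖k‖ ^ 2 := by field_simp
    _ ≤ w.re * ‖g‖ ^ 2 + (w * c * conj d).re / ‖w‖ ^ 2 * ‖k‖ ^ 2 := by
      gcongr
      refine le_trans ?_ h1
      rw [div_le_iff₀ (by positivity)]
      nlinarith [one_le_pow₀ hM (n := 2)]

end Pool.Agent.H8.Theta
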