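import Pool.Agent.H8.Theta.Suff3

set_option autoImplicit false

open MeasureTheory Filter Topology Set
open scoped ComplexConjugate ENNReal

namespace Pool.Agent.H8.Theta

theorem neBot0 : (𝓝[≠] (0 : T)).NeBot := by
  have : Tendsto (fun y : ℝ => (y : T)) (𝓝[≠] (0:ℝ)) (𝓝[≠] (0 : T)) := by
    rw [tendsto_nhdsWithin_iff]
    refine ⟨?_, ?_⟩
    · have h : Continuous fun y : ℝ => (y : T) := AddCircle.continuous_mk' 1
      have h2 := h.tendsto 0
      exact h2.mono_left nhdsWithin_le_nhds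
    · have h1 : ∀ᶠ y : ℝ in 𝓝[≠] (0:ℝ), |y| < 1 := by
        refine nhdsWithin_le_nhds ?_
        exact (continuous_abs.tendsto (0:ℝ)).eventually (gt_mem_nhds (by simp))
      filter_upwards [h1, self_mem_nhdsWithin] with y hy hne h0
      rw [mem_singleton_iff, AddCircle.coe_eq_zero_iff] at h0
      obtain ⟨n, hn⟩ := h0
      rw [zsmul_eq_mul, mul_one] at hn
      rw [← hn] at hy hne
      have : |n| < 1 := by exact_mod_cast hy
      rw [Int.abs_lt_one_iff] at this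
      exact hne (by rw [this]; simp)
  exact this.neBot

instance noAt : NullSingletonClass mu := by
  have := neBot0
  infer_instance

theorem ae_not_mem {E : Set T} (hE : E.Finite) : ∀ᵐ t ∂mu, t ∉ E := by
  have := hE.countable.measure_zero mu
  exact measure_eq_zero_iff_ae_notMem.1 this

theorem suffA {a b : T → ℂ} (ha : PC a) (hb' : PC b) (h3 : Cond3 a b) :
    ∃ Θ : T → ℂ, PC Θ ∧ (∀ t, Θ t ≠ 0) ∧ (∃ C : ℝ, ∀ t, ‖Θ t‖ ≤ C ∧ ‖(Θ t)⁻¹‖ ≤ C) ∧
      ∀ (S Ma Mb MΘ : H →L[ℂ] H), IsRiesz S → IsMul a Ma → IsMul b Mb → IsMul Θ MΘ → SE (MΘ ∘L (Ma + Mb ∘L S)) := by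
  obtain ⟨ω, δ, hδ, hω, E, hE, hE'⟩ := omega_exists ha hb' h3
  obtain ⟨M1, hM1, hM1'⟩ := ha.bdd
  obtain ⟨M2, hM2, hM2'⟩ := hb'.bdd
  set n : T → ℂ := fun t => ω t * (a t + b t) + conj (ω t) * (a t - b t) with hn
  have hnE : ∀ t ∉ E, δ ≤ ‖n t‖ := fun t ht => n_lower _ _ _ δ hδ (hω t) (hE' t ht)
  set Θ : T → ℂ := fun t => if δ ≤ ‖n t‖ then (n t)⁻¹ else 1 with hΘ
  have hω0 : ∀ t, ω t ≠ 0 := by
    intro t h0
    have := hω t
    rw [h0] at this
    simp at this; linarith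
  have e1 : ∀ s, ‖a s + b s‖ ≤ M1 + M2 := fun s => (norm_add_le _ _).trans (add_le_add (hM1' s) (hM2' s))
  have e2 : ∀ s, ‖a s - b s‖ ≤ M1 + M2 := fun s => (norm_sub_le _ _).trans (add_le_add (hM1' s) (hM2' s))
  have e3 : ∀ s, ‖ω s‖ ≤ ‖ω‖ := ω.norm_coe_le_norm
  have hnb : ∀ t, ‖n t‖ ≤ 2 * ‖ω‖ * (M1 + M2) := by
    intro t
    refine (norm_add_le _ _).trans ?_
    rw [norm_mul, norm_mul, RCLike.norm_conj]
    have h1 := mul_le_mul (e3 t) (e1 t) (norm_nonneg _) (norm_nonneg _)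
    have h2 := mul_le_mul (e3 t) (e2 t) (norm_nonneg _) (norm_nonneg _)
    linarith
  refine ⟨Θ, ?_, ?_, ⟨max (1 + δ⁻¹) (1 + 2 * ‖ω‖ * (M1 + M2)), ?_⟩, ?_⟩
  · intro x
    have side : ∀ F : Filter ℝ, F ≤ 𝓝[≠] x → ∀ ca cb : ℂ, Tendsto (fun s : ℝ => a (s : T)) F (𝓝 ca) → Tendsto (fun s : ℝ => b (s : T)) F (𝓝 cb) → F.NeBot →
        ∃ l, Tendsto (fun s : ℝ => Θ (s : T)) F (𝓝 l) := by
      intro F hF ca cb hca hcb hne
      have hcoe : Continuous fun y : ℝ => (y : T) := AddCircle.continuous_mk' 1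
      have hωt : Tendsto (fun s : ℝ => ω (s : T)) F (𝓝 (ω (x : T))) :=
        ((ω.continuous.comp hcoe).tendsto x).mono_left (hF.trans nhdsWithin_le_nhds)
      have hnt : Tendsto (fun s : ℝ => n (s : T)) F (𝓝 (ω (x : T) * (ca + cb) + conj (ω (x : T)) * (ca - cb))) :=
        (hωt.mul (hca.add hcb)).add (((Complex.continuous_conj.tendsto _).comp hωt).mul (hca.sub hcb))
      have hev : ∀ᶠ s : ℝ in F, (s : T) ∉ E := by
        have h1 := ev_not_mem hE (x : T)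
        have h2 : Tendsto (fun y : ℝ => (y : T)) (𝓝[≠] x) (𝓝[≠] (x : T)) := by
          rw [tendsto_nhdsWithin_iff]
          refine ⟨(hcoe.tendsto x).mono_left nhdsWithin_le_nhds, ?_⟩
          have h1 : ∀ᶠ y : ℝ in 𝓝[≠] x, |y - x| < 1 := by
            refine nhdsWithin_le_nhds ?_
            have : Continuous fun y : ℝ => |y - x| := by fun_prop
            exact (this.tendsto x).eventually (gt_mem_nhds (by simp))
          filter_upwards [h1, self_mem_nhdsWithin] with y hy hne h0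
          rw [mem_singleton_iff, ← sub_eq_zero, ← AddCircle.coe_sub, AddCircle.coe_eq_zero_iff] at h0
          obtain ⟨m, hm⟩ := h0
          rw [zsmul_eq_mul, mul_one] at hm
          rw [← hm] at hy
          have h5 : |m| < 1 := by exact_mod_cast hy
          rw [Int.abs_lt_one_iff] at h5
          rw [h5, Int.cast_zero] at hm
          exact hne (by rw [mem_singleton_iff]; linarith)
        exact (h2.mono_left hF).eventually h1
      have hlow : δ ≤ ‖ω (x : T) * (ca + cb) + conj (ω (x : T)) * (ca - cb)‖ :=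
        ge_of_tendsto hnt.norm (hev.mono fun s hs => hnE _ hs)
      have hne0 : ω (x : T) * (ca + cb) + conj (ω (x : T)) * (ca - cb) ≠ 0 := norm_pos_iff.1 (hδ.trans_le hlow)
      refine ⟨_, (hnt.inv₀ hne0).congr' ?_⟩
      filter_upwards [hev] with s hs
      simp only [hΘ]
      rw [if_pos (hnE _ hs)]
    obtain ⟨⟨am, ham⟩, ⟨ap, hap⟩⟩ := ha x
    obtain ⟨⟨bm, hbm⟩, ⟨bp, hbp⟩⟩ := hb' x
    exact ⟨side _ (nhdsWithin_mono _ (fun y hy => ne_of_lt hy)) am bm ham hbm inferInstance, side _ (nhdsWithin_mono _ (fun y hy => ne_of_gt hy)) ap bp hap hbp inferInstance⟩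
  · intro t
    simp only [hΘ]
    split_ifs with h
    · exact inv_ne_zero (norm_pos_iff.1 (hδ.trans_le h))
    · exact one_ne_zero
  · intro t
    have hM : 0 ≤ 2 * ‖ω‖ * (M1 + M2) := by positivity
    have hd : 0 ≤ δ⁻¹ := by positivity
    simp only [hΘ]
    split_ifs with h
    · rw [inv_inv, norm_inv]
      constructor
      · refine le_trans ?_ (le_max_left _ _)
        have : ‖n t‖⁻¹ ≤ δ⁻¹ := inv_anti₀ hδ h
        linarith
      · refine le_trans ?_ (le_max_right _ _)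
        linarith [hnb t]
    · rw [inv_one, norm_one]
      constructor <;> exact le_max_of_le_left (by linarith)
  · intro S Ma Mb MΘ hS hMa hMb hMΘ
    refine suff1 S hS a b Θ Ma Mb MΘ hMa hMb hMΘ ω hω0 δ (max (1 + ‖ω‖) (M1 + M2)) hδ (le_max_of_le_left (by linarith [norm_nonneg ω])) ?_
    filter_upwards [ae_not_mem hE] with t ht
    refine ⟨hω t, hE' t ht, ?_, ?_, ?_, ?_⟩
    · exact le_max_of_le_left (by linarith [e3 t])
    · exact le_max_of_le_right (e1 t)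
    · exact le_max_of_le_right (e2 t)
    · simp only [hΘ]
      rw [if_pos (hnE _ ht)]

theorem PC.conj {a : T → ℂ} (ha : PC a) : PC (fun t => conj (a t)) := by
  intro x
  obtain ⟨⟨l, hl⟩, ⟨r, hr⟩⟩ := ha x
  exact ⟨⟨_, (Complex.continuous_conj.tendsto _).comp hl⟩, ⟨_, (Complex.continuous_conj.tendsto _).comp hr⟩⟩

theorem Cond3.conj {a b : T → ℂ} (h : Cond3 a b) : Cond3 (fun t => conj (a t)) (fun t => conj (b t)) := by
  intro x ap am bp bm h1 h2 h3 h4 μ ν hμ hμ' hν hν' h0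
  have k : ∀ (f : T → ℂ) (F : Filter ℝ) (l : ℂ), Tendsto (fun s : ℝ => conj (f (s : T))) F (𝓝 l) → Tendsto (fun s : ℝ => f (s : T)) F (𝓝 (conj l)) := by
    intro f F l hl
    have := (Complex.continuous_conj.tendsto _).comp hl
    refine this.congr fun s => ?_
    simp
  refine h x _ _ _ _ (k _ _ _ h1) (k _ _ _ h2) (k _ _ _ h3) (k _ _ _ h4) μ ν hμ hμ' hν hν' ?_
  have := congrArg conj h0
  simpa only [map_add, map_mul, map_sub, map_one, map_zero, Complex.conj_ofReal] using this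

theorem PC.inv {a : T → ℂ} (ha : PC a) (C : ℝ) (hC : ∀ t, ‖(a t)⁻¹‖ ≤ C) (h0 : ∀ t, a t ≠ 0) : PC (fun t => (a t)⁻¹) := by
  have hC0 : 0 < C := (norm_pos_iff.2 (inv_ne_zero (h0 0))).trans_le (hC 0)
  have hlow : ∀ t, C⁻¹ ≤ ‖a t‖ := by
    intro t
    have := hC t
    rw [norm_inv] at this
    exact inv_le_of_inv_le₀ (norm_pos_iff.2 (h0 t)) this
  intro x
  obtain ⟨⟨l, hl⟩, ⟨r, hr⟩⟩ := ha x
  have hl0 : l ≠ 0 := by
    have := ge_of_tendsto' hl.norm (fun s => hlow _)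
    exact norm_pos_iff.1 (lt_of_lt_of_le (by positivity) this)
  have hr0 : r ≠ 0 := by
    have := ge_of_tendsto' hr.norm (fun s => hlow _)
    exact norm_pos_iff.1 (lt_of_lt_of_le (by positivity) this)
  exact ⟨⟨_, hl.inv₀ hl0⟩, ⟨_, hr.inv₀ hr0⟩⟩

theorem suffB {a b : T → ℂ} (ha : PC a) (hb' : PC b) (h3 : Cond3 a b) :
    ∃ Θ : T → ℂ, PC Θ ∧ (∀ t, Θ t ≠ 0) ∧
      ∀ (S Ma Mb MΘ : H →L[ℂ] H), IsRiesz S → IsMul a Ma → IsMul b Mb → IsMul Θ MΘ → SE (MΘ ∘L (Ma + S ∘L Mb)) := by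
  obtain ⟨M1, hM1, hM1'⟩ := ha.bdd
  obtain ⟨M2, hM2, hM2'⟩ := hb'.bdd
  obtain ⟨Θ, hΘ, hΘ0, ⟨C, hC⟩, hse⟩ := suffA ha.conj hb'.conj h3.conj
  refine ⟨fun t => (Θ t)⁻¹, hΘ.inv C (fun t => (hC t).2) hΘ0, fun t => inv_ne_zero (hΘ0 t), ?_⟩
  intro S Ma Mb MΘ hS hMa hMb hMΘ
  have hm : AEStronglyMeasurable Θ mu := by
    have h1 := hMΘ.meas.inv₀
    have e : (fun t => (Θ t)⁻¹)⁻¹ = Θ := by
      funext t
      rw [Pi.inv_apply, inv_inv]
    rwa [e] at h1
  obtain ⟨N, hN, -⟩ := exists_mul Θ hm C (Eventually.of_forall fun t => (hC t).1)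
  have h1 : MΘ ∘L N = 1 := (hMΘ.comp hN).unique (isMul_one.congr (Eventually.of_forall fun t => by
    simp [hΘ0 t]))
  exact dual1 S Ma Mb MΘ N hS.adj h1 (hse S _ _ N hS (hMa.adjoint M1 (Eventually.of_forall hM1')) (hMb.adjoint M2 (Eventually.of_forall hM2')) hN)

end Pool.Agent.H8.Theta
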