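import Pool.Agent.H8.Theta.Hardy

set_option autoImplicit false

open MeasureTheory Filter Topology Set
open scoped ComplexConjugate ENNReal

namespace Pool.Agent.H8.Theta

noncomputable def wr (r : ℝ) (t : T) : ℝ := ‖1 - r * zz t‖⁻¹

noncomputable def LL (r : ℝ) : ℝ := ∫ t, wr r t ∂mu

theorem den_lower (r : ℝ) (h0 : 0 ≤ r) (t : T) : 1 - r ≤ ‖1 - r * zz t‖ := by
  have h := norm_sub_norm_le (1 : ℂ) (r * zz t)
  rw [norm_one, norm_mul, zz_norm, mul_one, Complex.norm_real, Real.norm_eq_abs, abs_of_nonneg h0] at h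
  exact h

theorem den_ne (r : ℝ) (h0 : 0 ≤ r) (h1 : r < 1) (t : T) : 1 - r * zz t ≠ 0 :=
  norm_pos_iff.1 ((sub_pos.2 h1).trans_le (den_lower r h0 t))

theorem wr_pos (r : ℝ) (h0 : 0 ≤ r) (h1 : r < 1) (t : T) : 0 < wr r t :=
  inv_pos.2 (norm_pos_iff.2 (den_ne r h0 h1 t))

theorem wr_cont (r : ℝ) (h0 : 0 ≤ r) (h1 : r < 1) : Continuous (wr r) := by
  unfold wr
  exact Continuous.inv₀ (by fun_prop) fun t => norm_ne_zero_iff.2 (den_ne r h0 h1 t)

theorem inv_cont (r : ℝ) (h0 : 0 ≤ r) (h1 : r < 1) : Continuous fun t => (1 - (r : ℂ) * zz t)⁻¹ :=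
  Continuous.inv₀ (by fun_prop) fun t => den_ne r h0 h1 t

theorem cont_int {E : Type} [NormedAddCommGroup E] {f : T → E} (hf : Continuous f) : Integrable f mu :=
  hf.integrable_of_hasCompactSupport (HasCompactSupport.of_compactSpace _)

theorem wr_int (r : ℝ) (h0 : 0 ≤ r) (h1 : r < 1) : Integrable (wr r) mu := cont_int (wr_cont r h0 h1)

theorem half_le (r : ℝ) (h0 : 0 ≤ r) (h1 : r < 1) (t : T) : ‖1 - zz t‖ ≤ 2 * ‖1 - r * zz t‖ := by
  have h := den_lower r h0 t
  have h2 : ‖(1 : ℂ) - zz t‖ ≤ ‖1 - r * zz t‖ + ‖r * zz t - zz t‖ := by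
    have := norm_add_le (1 - r * zz t) (r * zz t - zz t)
    rwa [sub_add_sub_cancel] at this
  have h3 : ‖(r : ℂ) * zz t - zz t‖ = 1 - r := by
    rw [show (r : ℂ) * zz t - zz t = ((r - 1 : ℝ) : ℂ) * zz t by push_cast; ring, norm_mul, zz_norm, mul_one, Complex.norm_real, Real.norm_eq_abs, abs_sub_comm, abs_of_nonneg (by linarith)]
  linarith

theorem zz_coe (θ : ℝ) : zz (θ : T) = Complex.exp (Complex.I * ((2 * Real.pi * θ : ℝ) : ℂ)) := by
  unfold zz
  rw [fourier_coe_apply]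
  congr 1
  push_cast
  ring

theorem circ_int {E : Type} [NormedAddCommGroup E] [NormedSpace ℝ E] (f : T → E) (a : ℝ) : ∫ t, f t ∂mu = ∫ θ in a..(a + 1), f (θ : T) := by
  rw [AddCircle.integral_haarAddCircle, inv_one, one_smul, ← AddCircle.intervalIntegral_preimage 1 a f]

theorem LL_tendsto : Tendsto LL (𝓝[<] 1) atTop := by
  have hlow : ∀ᶠ r : ℝ in 𝓝[<] 1, (1 / (2 * Real.pi)) * (-Real.log (1 - r)) ≤ LL r := by
    filter_upwards [Ioo_mem_nhdsLT (show (0:ℝ) < 1 by norm_num)] with r hr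
    have h0 := hr.1.le
    have h1 := hr.2
    have hpos : ∀ θ ∈ uIcc (0 : ℝ) 1, 0 < (1 - r) + 2 * Real.pi * θ := by
      intro θ hθ
      rw [uIcc_of_le zero_le_one] at hθ
      have := mul_nonneg (mul_nonneg zero_le_two Real.pi_pos.le) hθ.1
      linarith
    have hd : ∀ θ ∈ uIcc (0 : ℝ) 1, HasDerivAt (fun θ => (1 / (2 * Real.pi)) * Real.log ((1 - r) + 2 * Real.pi * θ)) (((1 - r) + 2 * Real.pi * θ)⁻¹) θ := by
      intro θ hθ
      have h2 : HasDerivAt (fun θ : ℝ => (1 - r) + 2 * Real.pi * θ) (2 * Real.pi) θ := by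
        simpa using ((hasDerivAt_id θ).const_mul (2 * Real.pi)).const_add (1 - r)
      have h3 := (h2.log (hpos θ hθ).ne').const_mul (1 / (2 * Real.pi))
      refine h3.congr_deriv ?_
      have := Real.pi_ne_zero
      have := (hpos θ hθ).ne'
      field_simp
    have hcont : ContinuousOn (fun θ : ℝ => ((1 - r) + 2 * Real.pi * θ)⁻¹) (uIcc 0 1) :=
      ContinuousOn.inv₀ (by fun_prop) fun θ hθ => (hpos θ hθ).ne'
    have hI := intervalIntegral.integral_eq_sub_of_hasDerivAt hd hcont.intervalIntegrable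
    have hle : ∫ θ in (0:ℝ)..1, ((1 - r) + 2 * Real.pi * θ)⁻¹ ≤ ∫ θ in (0:ℝ)..1, wr r (θ : T) := by
      refine intervalIntegral.integral_mono_on zero_le_one hcont.intervalIntegrable ?_ ?_
      · refine Continuous.intervalIntegrable ?_ _ _
        exact (wr_cont r h0 h1).comp (AddCircle.continuous_mk' 1)
      · intro θ hθ
        unfold wr
        refine inv_anti₀ (norm_pos_iff.2 (den_ne r h0 h1 _)) ?_
        have e1 : ‖(1 : ℂ) - r * zz (θ : T)‖ ≤ ‖(1 : ℂ) - zz (θ : T)‖ + ‖zz (θ : T) - r * zz (θ : T)‖ := by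
          have := norm_add_le ((1 : ℂ) - zz (θ : T)) (zz (θ : T) - r * zz (θ : T))
          rwa [sub_add_sub_cancel] at this
        have e2 : ‖zz (θ : T) - (r : ℂ) * zz (θ : T)‖ = 1 - r := by
          rw [show zz (θ : T) - (r : ℂ) * zz (θ : T) = ((1 - r : ℝ) : ℂ) * zz (θ : T) by push_cast; ring, norm_mul, zz_norm, mul_one, Complex.norm_real, Real.norm_eq_abs, abs_of_nonneg (by linarith)]
        have e3 : ‖(1 : ℂ) - zz (θ : T)‖ ≤ 2 * Real.pi * θ := by
          rw [norm_sub_rev, zz_coe]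
          refine (Real.norm_exp_I_mul_ofReal_sub_one_le).trans ?_
          rw [Real.norm_eq_abs, abs_of_nonneg (mul_nonneg (mul_nonneg zero_le_two Real.pi_pos.le) hθ.1)]
        linarith
    have hL : LL r = ∫ θ in (0:ℝ)..1, wr r (θ : T) := by
      unfold LL
      rw [circ_int _ 0, zero_add]
    rw [hL]
    refine le_trans ?_ hle
    rw [hI]
    simp only [mul_zero, add_zero, mul_one]
    have h5 : 0 ≤ Real.log (1 - r + 2 * Real.pi) := Real.log_nonneg (by nlinarith [Real.pi_gt_three])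
    have h6 : 0 < 1 / (2 * Real.pi) := by positivity
    nlinarith [mul_nonneg h6.le h5]
  refine tendsto_atTop_mono' _ hlow ?_
  have h1 : Tendsto (fun r : ℝ => 1 - r) (𝓝[<] 1) (𝓝[>] 0) := by
    rw [tendsto_nhdsWithin_iff]
    refine ⟨?_, ?_⟩
    · have : Tendsto (fun r : ℝ => 1 - r) (𝓝 1) (𝓝 (1 - 1)) := (continuous_const.sub continuous_id).tendsto 1
      rw [sub_self] at this
      exact this.mono_left nhdsWithin_le_nhds
    · filter_upwards [self_mem_nhdsWithin] with r hr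
      exact sub_pos.2 (mem_Iio.1 hr)
  have h2 := Real.tendsto_log_nhdsGT_zero.comp h1
  exact (tendsto_neg_atBot_atTop.comp h2).const_mul_atTop (by positivity)

theorem null_avg (W : T → ℂ) (hm : AEStronglyMeasurable W mu) (M : ℝ) (hM : ∀ t, ‖W t‖ ≤ M)
    (h0 : Tendsto W (𝓝[≠] (0 : T)) (𝓝 0)) : Tendsto (fun r => (∫ t, ‖W t‖ * wr r t ∂mu) / LL r) (𝓝[<] 1) (𝓝 0) := by
  have hM0 : 0 ≤ M := (norm_nonneg _).trans (hM 0)
  rw [Metric.tendsto_nhds]
  intro ε hε
  have h1 : ∀ᶠ t in 𝓝[≠] (0 : T), ‖W t‖ < ε / 2 := by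
    have := h0.norm
    rw [norm_zero] at this
    exact this.eventually (gt_mem_nhds (half_pos hε))
  rw [eventually_nhdsWithin_iff, eventually_nhds_iff] at h1
  obtain ⟨U, hU, hUo, hU0⟩ := h1
  have hc : ∃ c > 0, ∀ t ∉ U, c ≤ ‖1 - zz t‖ := by
    rcases (Uᶜ).eq_empty_or_nonempty with he | hne
    · exact ⟨1, one_pos, fun t ht => absurd ht (by rw [← mem_compl_iff, he]; exact notMem_empty t)⟩
    · have hcomp : IsCompact Uᶜ := hUo.isClosed_compl.isCompact
      obtain ⟨t0, ht0, hmin⟩ := hcomp.exists_isMinOn hne (f := fun t => ‖1 - zz t‖) (by fun_prop)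
      refine ⟨‖1 - zz t0‖, ?_, fun t ht => hmin ht⟩
      rw [gt_iff_lt, norm_pos_iff, sub_ne_zero]
      exact (zz_ne_one (fun h : t0 = 0 => ht0 (by rw [h]; exact hU0))).symm
  obtain ⟨c, hc, hcU⟩ := hc
  have h2 : ∀ᶠ r in 𝓝[<] 1, 2 * (M * (2 / c)) / ε < LL r := LL_tendsto.eventually (eventually_gt_atTop _)
  have h3 : ∀ᶠ r in 𝓝[<] 1, 0 < LL r := LL_tendsto.eventually (eventually_gt_atTop 0)
  filter_upwards [h2, h3, Ioo_mem_nhdsLT (show (0:ℝ) < 1 by norm_num)] with r hr hr' hr01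
  have hwi := wr_int r hr01.1.le hr01.2
  have hb : ∫ t, ‖W t‖ * wr r t ∂mu ≤ ε / 2 * LL r + M * (2 / c) := by
    have : ε / 2 * LL r + M * (2 / c) = ∫ t, (ε / 2 * wr r t + M * (2 / c)) ∂mu := by
      rw [integral_add (hwi.const_mul _) (integrable_const _), integral_const_mul, integral_const]
      simp [LL]
    rw [this]
    refine integral_mono_ae ?_ ((hwi.const_mul _).add (integrable_const _)) ?_
    · exact hwi.bdd_mul (c := M) hm.norm (Eventually.of_forall fun t => by rw [norm_norm]; exact hM t)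
    · filter_upwards [ae_not_mem (finite_singleton (0 : T))] with t ht
      have hw := (wr_pos r hr01.1.le hr01.2 t).le
      by_cases htU : t ∈ U
      · have := (hU t htU ht).le
        have h5 : ‖W t‖ * wr r t ≤ ε / 2 * wr r t := mul_le_mul_of_nonneg_right this hw
        have h6 : 0 ≤ M * (2 / c) := by positivity
        linarith
      · have h5 : wr r t ≤ 2 / c := by
          unfold wr
          rw [inv_le_comm₀ (norm_pos_iff.2 (den_ne r hr01.1.le hr01.2 t)) (by positivity), inv_div]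
          have := half_le r hr01.1.le hr01.2 t
          have := hcU t htU
          linarith
        have h6 : ‖W t‖ * wr r t ≤ M * (2 / c) := mul_le_mul (hM t) h5 hw hM0
        have h7 : 0 ≤ ε / 2 * wr r t := by positivity
        linarith
  have hn : 0 ≤ ∫ t, ‖W t‖ * wr r t ∂mu := integral_nonneg fun t => mul_nonneg (norm_nonneg _) (wr_pos r hr01.1.le hr01.2 t).le
  rw [dist_zero_right, Real.norm_eq_abs, abs_of_nonneg (div_nonneg hn hr'.le), div_lt_iff₀ hr']
  rw [div_lt_iff₀ hε] at hr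
  linarith

end Pool.Agent.H8.Theta
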