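import Pool.Agent.H8.Theta.Avg

set_option autoImplicit false

open MeasureTheory Filter Topology Set
open scoped ComplexConjugate ENNReal

namespace Pool.Agent.H8.Theta

/-- right half -/
noncomputable def cp (t : T) : ℝ := if 0 < (zz t).im then 1 else 0
/-- left half -/
noncomputable def cm (t : T) : ℝ := if (zz t).im < 0 then 1 else 0

theorem im_meas : Measurable fun t : T => (zz t).im := (Complex.continuous_im.comp zz.continuous).measurable

theorem cp_meas : Measurable cp := Measurable.ite (measurableSet_lt measurable_const im_meas) measurable_const measurable_const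
theorem cm_meas : Measurable cm := Measurable.ite (measurableSet_lt im_meas measurable_const) measurable_const measurable_const

theorem cp_bd (t : T) : ‖cp t‖ ≤ 1 := by unfold cp; split_ifs <;> simp
theorem cm_bd (t : T) : ‖cm t‖ ≤ 1 := by unfold cm; split_ifs <;> simp

theorem zz_neg (t : T) : zz (-t) = conj (zz t) := by
  unfold zz
  rw [← fourier_neg, fourier_apply, fourier_apply]
  congr 2
  simp

theorem cp_neg (t : T) : cp (-t) = cm t := by
  unfold cp cm
  rw [zz_neg, Complex.conj_im]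
  simp only [Left.neg_pos_iff]

theorem wr_neg (r : ℝ) (t : T) : wr r (-t) = wr r t := by
  unfold wr
  rw [zz_neg, ← RCLike.norm_conj]
  congr 2
  simp

theorem im_zero_finite : {t : T | (zz t).im = 0}.Finite := by
  refine Set.Finite.subset (s := {(0 : T), ((1/2 : ℝ) : T)}) (toFinite _) ?_
  intro t ht
  have h1 := zz_norm t
  have h4 := Complex.normSq_eq_norm_sq (zz t)
  rw [h1, Complex.normSq_apply, show (zz t).im = 0 from ht] at h4
  have h5 : (zz t).re = 1 ∨ (zz t).re = -1 := by
    have : ((zz t).re - 1) * ((zz t).re + 1) = 0 := by nlinarith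
    rcases mul_eq_zero.1 this with h | h
    · left; linarith
    · right; linarith
  have hinj := AddCircle.injective_toCircle (T := (1:ℝ)) one_ne_zero
  rcases h5 with h | h
  · left
    by_contra hne
    exact zz_ne_one hne (Complex.ext h ht)
  · right
    have e : zz ((1/2 : ℝ) : T) = -1 := by
      rw [zz_coe, show Complex.I * ((2 * Real.pi * (1/2) : ℝ) : ℂ) = Real.pi * Complex.I by push_cast; ring, Complex.exp_pi_mul_I]
    have e2 : zz t = zz ((1/2 : ℝ) : T) := by
      rw [e]; exact Complex.ext (by rw [h]; simp) (by rw [show (zz t).im = 0 from ht]; simp)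
    unfold zz at e2
    rw [fourier_one, fourier_one] at e2
    exact hinj (Circle.ext e2)

theorem cp_add_cm : ∀ᵐ t ∂mu, cp t + cm t = 1 := by
  filter_upwards [ae_not_mem im_zero_finite] with t ht
  have ht' : (zz t).im ≠ 0 := ht
  unfold cp cm
  rcases lt_or_gt_of_ne ht' with h | h
  · rw [if_neg (by linarith), if_pos h]; norm_num
  · rw [if_pos h, if_neg (by linarith)]; norm_num

theorem int_neg {E : Type} [NormedAddCommGroup E] [NormedSpace ℝ E] (f : T → E) : ∫ t, f (-t) ∂mu = ∫ t, f t ∂mu := integral_neg_eq_self f mu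

section r
variable (r : ℝ) (h0 : 0 ≤ r) (h1 : r < 1)
include h0 h1

theorem cpw_int : Integrable (fun t => cp t * wr r t) mu := (wr_int r h0 h1).bdd_mul (c := 1) cp_meas.aestronglyMeasurable (Eventually.of_forall cp_bd)
theorem cmw_int : Integrable (fun t => cm t * wr r t) mu := (wr_int r h0 h1).bdd_mul (c := 1) cm_meas.aestronglyMeasurable (Eventually.of_forall cm_bd)

theorem cm_eq_cp : ∫ t, cm t * wr r t ∂mu = ∫ t, cp t * wr r t ∂mu := by
  rw [← int_neg (fun t => cp t * wr r t)]
  refine integral_congr_ae (Eventually.of_forall fun t => ?_)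
  simp only [cp_neg, wr_neg]

theorem cp_half : ∫ t, cp t * wr r t ∂mu = LL r / 2 := by
  have h : LL r = ∫ t, cp t * wr r t ∂mu + ∫ t, cm t * wr r t ∂mu := by
    rw [← integral_add (cpw_int r h0 h1) (cmw_int r h0 h1)]
    refine integral_congr_ae ?_
    filter_upwards [cp_add_cm] with t ht
    rw [← add_mul, ht, one_mul]
  rw [cm_eq_cp r h0 h1] at h
  linarith

theorem geom_int : ∫ t, (1 - (r : ℂ) * zz t)⁻¹ ∂mu = 1 := by
  have hz : ∀ n : ℕ, n ≠ 0 → ∫ t, zz t ^ n ∂mu = 0 := by
    intro n hn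
    have h := inner_Jc 0 (zz ^ n)
    rw [zz_pow] at h
    have h2 : inner ℂ (ee 0) (Jc (fourier (n : ℤ))) = 0 := (orthonormal_fourier (T := (1:ℝ))).2 (by omega : (0 : ℤ) ≠ (n : ℤ))
    rw [h2] at h
    rw [h]
    refine integral_congr_ae (Eventually.of_forall fun t => ?_)
    simp only [fourier_zero, map_one, one_mul]
    rw [← zz_pow, ContinuousMap.pow_apply]
  have hfin : ∀ N : ℕ, ∫ t, ∑ n ∈ Finset.range (N + 1), ((r : ℂ) * zz t) ^ n ∂mu = 1 := by
    intro N
    rw [integral_finsetSum _ (fun n _ => cont_int (by fun_prop)), Finset.sum_range_succ']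
    simp only [mul_pow, integral_const_mul]
    rw [Finset.sum_eq_zero (fun n _ => by rw [hz (n + 1) (by omega), mul_zero])]
    simp
  have hrem : ∀ N : ℕ, ‖∫ t, (1 - (r : ℂ) * zz t)⁻¹ ∂mu - 1‖ ≤ r ^ (N + 1) * (1 - r)⁻¹ := by
    intro N
    have hsub : ∫ t, (1 - (r : ℂ) * zz t)⁻¹ ∂mu - 1 = ∫ t, ((1 - (r : ℂ) * zz t)⁻¹ - ∑ n ∈ Finset.range (N + 1), ((r : ℂ) * zz t) ^ n) ∂mu := by
      rw [integral_sub (cont_int (inv_cont r h0 h1)) (cont_int (by fun_prop)), hfin N]
    rw [hsub]
    have hb : ∀ t, ‖(1 - (r : ℂ) * zz t)⁻¹ - ∑ n ∈ Finset.range (N + 1), ((r : ℂ) * zz t) ^ n‖ ≤ r ^ (N + 1) * (1 - r)⁻¹ := by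
      intro t
      have hne := den_ne r h0 h1 t
      have hg : ∑ n ∈ Finset.range (N + 1), ((r : ℂ) * zz t) ^ n = (1 - ((r : ℂ) * zz t) ^ (N + 1)) * (1 - (r : ℂ) * zz t)⁻¹ := by
        have := mul_neg_geom_sum ((r : ℂ) * zz t) (N + 1)
        field_simp
        rw [mul_comm]; exact this
      rw [hg]
      have : (1 - (r : ℂ) * zz t)⁻¹ - (1 - ((r : ℂ) * zz t) ^ (N + 1)) * (1 - (r : ℂ) * zz t)⁻¹ = ((r : ℂ) * zz t) ^ (N + 1) * (1 - (r : ℂ) * zz t)⁻¹ := by ring
      rw [this, norm_mul, norm_pow, norm_mul, zz_norm, mul_one, Complex.norm_real, Real.norm_eq_abs, abs_of_nonneg h0, norm_inv]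
      exact mul_le_mul_of_nonneg_left (inv_anti₀ (sub_pos.2 h1) (den_lower r h0 t)) (pow_nonneg h0 _)
    have := norm_integral_le_of_norm_le_const (μ := mu) (Eventually.of_forall hb)
    simpa using this
  have hlim : Tendsto (fun N : ℕ => r ^ (N + 1) * (1 - r)⁻¹) atTop (𝓝 (0 * (1 - r)⁻¹)) :=
    ((tendsto_pow_atTop_nhds_zero_of_lt_one h0 h1).comp (tendsto_add_atTop_nat 1)).mul_const _
  rw [zero_mul] at hlim
  have := ge_of_tendsto' hlim hrem
  exact sub_eq_zero.1 (norm_le_zero_iff.1 this)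

/-- half kernel -/
noncomputable def BB (r : ℝ) : ℂ := ∫ t, (cp t : ℂ) * (1 - (r : ℂ) * zz t)⁻¹ ∂mu

theorem BB_int : Integrable (fun t => (cp t : ℂ) * (1 - (r : ℂ) * zz t)⁻¹) mu :=
  (cont_int (inv_cont r h0 h1)).bdd_mul (c := 1) (Complex.measurable_ofReal.comp cp_meas).aestronglyMeasurable (Eventually.of_forall fun t => by
    rw [Complex.norm_real]; exact cp_bd t)

theorem inv_re_nonneg (t : T) : 0 ≤ ((1 - (r : ℂ) * zz t)⁻¹).re := by
  rw [Complex.inv_re]
  refine div_nonneg ?_ (Complex.normSq_nonneg _)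
  rw [Complex.sub_re, Complex.one_re, Complex.re_ofReal_mul]
  have h3 : (zz t).re ≤ 1 := (Complex.re_le_norm _).trans (zz_norm t).le
  nlinarith

theorem inv_im (t : T) : ((1 - (r : ℂ) * zz t)⁻¹).im = r * (zz t).im / Complex.normSq (1 - (r : ℂ) * zz t) := by
  rw [Complex.inv_im, Complex.sub_im, Complex.one_im, Complex.im_ofReal_mul]
  ring

theorem BB_re : 0 ≤ (BB r).re ∧ (BB r).re ≤ 1 := by
  have e : (BB r).re = ∫ t, cp t * ((1 - (r : ℂ) * zz t)⁻¹).re ∂mu := by
    unfold BB
    rw [← RCLike.re_eq_complex_re, ← integral_re (BB_int r h0 h1)]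
    refine integral_congr_ae (Eventually.of_forall fun t => ?_)
    simp only [RCLike.re_eq_complex_re, Complex.re_ofReal_mul]
  have hi : Integrable (fun t => ((1 - (r : ℂ) * zz t)⁻¹).re) mu := (cont_int (inv_cont r h0 h1)).re
  rw [e]
  constructor
  · refine integral_nonneg fun t => mul_nonneg ?_ (inv_re_nonneg r h0 h1 t)
    unfold cp; split_ifs <;> norm_num
  · have h2 : ∫ t, ((1 - (r : ℂ) * zz t)⁻¹).re ∂mu = 1 := by
      have := congrArg Complex.re (geom_int r h0 h1)
      rw [Complex.one_re, ← RCLike.re_eq_complex_re, ← integral_re (cont_int (inv_cont r h0 h1))] at this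
      exact this
    refine le_trans (integral_mono (hi.bdd_mul (c := 1) cp_meas.aestronglyMeasurable (Eventually.of_forall cp_bd)) hi fun t => ?_) h2.le
    have := inv_re_nonneg r h0 h1 t
    unfold cp
    simp only
    split_ifs <;> linarith

theorem BB_im : LL r / 2 - 1 ≤ (BB r).im ∧ (BB r).im ≤ LL r / 2 := by
  have e : (BB r).im = ∫ t, cp t * ((1 - (r : ℂ) * zz t)⁻¹).im ∂mu := by
    unfold BB
    rw [← RCLike.im_eq_complex_im, ← integral_im (BB_int r h0 h1)]
    refine integral_congr_ae (Eventually.of_forall fun t => ?_)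
    simp only [RCLike.im_eq_complex_im, Complex.im_ofReal_mul]
  have hi : Integrable (fun t => ((1 - (r : ℂ) * zz t)⁻¹).im) mu := (cont_int (inv_cont r h0 h1)).im
  have hci : Integrable (fun t => cp t * ((1 - (r : ℂ) * zz t)⁻¹).im) mu := hi.bdd_mul (c := 1) cp_meas.aestronglyMeasurable (Eventually.of_forall cp_bd)
  have hr : Integrable (fun t => ((1 - (r : ℂ) * zz t)⁻¹).re) mu := (cont_int (inv_cont r h0 h1)).re
  have hcr : Integrable (fun t => cp t * ((1 - (r : ℂ) * zz t)⁻¹).re) mu := hr.bdd_mul (c := 1) cp_meas.aestronglyMeasurable (Eventually.of_forall cp_bd)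
  have hre := (BB_re r h0 h1).2
  have er : (BB r).re = ∫ t, cp t * ((1 - (r : ℂ) * zz t)⁻¹).re ∂mu := by
    unfold BB
    rw [← RCLike.re_eq_complex_re, ← integral_re (BB_int r h0 h1)]
    refine integral_congr_ae (Eventually.of_forall fun t => ?_)
    simp only [RCLike.re_eq_complex_re, Complex.re_ofReal_mul]
  constructor
  · have : LL r / 2 ≤ (BB r).re + (BB r).im := by
      rw [er, e, ← integral_add hcr hci, ← cp_half r h0 h1]
      refine integral_mono (cpw_int r h0 h1) (hcr.add hci) fun t => ?_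
      have h3 := inv_re_nonneg r h0 h1 t
      have h4 : wr r t ≤ |((1 - (r : ℂ) * zz t)⁻¹).re| + |((1 - (r : ℂ) * zz t)⁻¹).im| := by
        unfold wr
        rw [← norm_inv]
        exact Complex.norm_le_abs_re_add_abs_im _
      rw [abs_of_nonneg h3] at h4
      unfold cp
      split_ifs with hpos
      · have h5 : 0 ≤ ((1 - (r : ℂ) * zz t)⁻¹).im := by
          rw [inv_im r h0 h1]
          exact div_nonneg (mul_nonneg h0 hpos.le) (Complex.normSq_nonneg _)
        rw [abs_of_nonneg h5] at h4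
        linarith
      · simp
    linarith
  · rw [e, ← cp_half r h0 h1]
    refine integral_mono hci (cpw_int r h0 h1) fun t => ?_
    have h4 : ((1 - (r : ℂ) * zz t)⁻¹).im ≤ wr r t := by
      unfold wr
      rw [← norm_inv]
      exact (le_abs_self _).trans (Complex.abs_im_le_norm _)
    refine mul_le_mul_of_nonneg_left h4 ?_
    unfold cp; split_ifs <;> norm_num

theorem BB_conj : ∫ t, (cm t : ℂ) * (1 - (r : ℂ) * zz t)⁻¹ ∂mu = conj (BB r) := by
  unfold BB
  rw [← integral_conj, ← int_neg]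
  refine integral_congr_ae (Eventually.of_forall fun t => ?_)
  simp only [zz_neg, map_mul, map_inv₀, map_sub, map_one, Complex.conj_ofReal]
  rw [← cp_neg, neg_neg]

end r

theorem BB_tendsto : Tendsto (fun r => BB r / LL r) (𝓝[<] 1) (𝓝 (Complex.I / 2)) := by
  have hL := LL_tendsto
  have hinv : Tendsto (fun r => 1 / LL r) (𝓝[<] 1) (𝓝 0) := by
    simp only [one_div]; exact hL.inv_tendsto_atTop
  have hev := Ioo_mem_nhdsLT (show (0:ℝ) < 1 by norm_num)
  have hpos : ∀ᶠ r in 𝓝[<] 1, 0 < LL r := hL.eventually (eventually_gt_atTop 0)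
  have hre : Tendsto (fun r => (BB r).re / LL r) (𝓝[<] 1) (𝓝 0) := by
    refine squeeze_zero' ?_ ?_ hinv
    · filter_upwards [hev, hpos] with r hr hp
      exact div_nonneg (BB_re r hr.1.le hr.2).1 hp.le
    · filter_upwards [hev, hpos] with r hr hp
      exact div_le_div_of_nonneg_right (BB_re r hr.1.le hr.2).2 hp.le
  have him : Tendsto (fun r => (BB r).im / LL r) (𝓝[<] 1) (𝓝 (1/2)) := by
    have h1 : Tendsto (fun r => 1/2 - 1 / LL r) (𝓝[<] 1) (𝓝 (1/2 - 0)) := tendsto_const_nhds.sub hinv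
    rw [sub_zero] at h1
    refine tendsto_of_tendsto_of_tendsto_of_le_of_le' h1 tendsto_const_nhds ?_ ?_
    · filter_upwards [hev, hpos] with r hr hp
      rw [le_div_iff₀ hp]
      have := (BB_im r hr.1.le hr.2).1
      have e : (1/2 - 1 / LL r) * LL r = LL r / 2 - 1 := by field_simp
      rw [e]; exact this
    · filter_upwards [hev, hpos] with r hr hp
      rw [div_le_iff₀ hp]
      have := (BB_im r hr.1.le hr.2).2
      linarith
  have h := ((Complex.continuous_ofReal.tendsto _).comp hre).add (((Complex.continuous_ofReal.tendsto _).comp him).mul_const Complex.I)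
  have e : ((0 : ℝ) : ℂ) + ((1/2 : ℝ) : ℂ) * Complex.I = Complex.I / 2 := by push_cast; ring
  rw [e] at h
  refine h.congr fun r => ?_
  simp only [Function.comp]
  push_cast
  conv_rhs => rw [← Complex.re_add_im (BB r)]
  ring

end Pool.Agent.H8.Theta
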