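import Pool.Agent.H8.Theta.Avg2

set_option autoImplicit false

open MeasureTheory Filter Topology Set
open scoped ComplexConjugate ENNReal

namespace Pool.Agent.H8.Theta

theorem zz_im_coe (θ : ℝ) : (zz (θ : T)).im = Real.sin (2 * Real.pi * θ) := by
  rw [zz_coe, mul_comm, Complex.exp_ofReal_mul_I_im]

theorem ev_right : ∀ᶠ s : ℝ in 𝓝[>] 0, cp (s : T) = 1 ∧ cm (s : T) = 0 := by
  filter_upwards [Ioo_mem_nhdsGT (show (0:ℝ) < 1/2 by norm_num)] with s hs
  have : 0 < (zz (s : T)).im := by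
    rw [zz_im_coe]
    refine Real.sin_pos_of_pos_of_lt_pi (by have := hs.1; have := Real.pi_pos; positivity) ?_
    have h1 := hs.2
    have h2 := Real.pi_pos
    nlinarith
  unfold cp cm
  exact ⟨if_pos this, if_neg (by linarith)⟩

theorem ev_left : ∀ᶠ s : ℝ in 𝓝[<] 0, cp (s : T) = 0 ∧ cm (s : T) = 1 := by
  filter_upwards [Ioo_mem_nhdsLT (show -(1/2 : ℝ) < 0 by norm_num)] with s hs
  have : (zz (s : T)).im < 0 := by
    rw [zz_im_coe]
    have h2 := Real.pi_pos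
    refine Real.sin_neg_of_neg_of_neg_pi_lt ?_ ?_
    · have := hs.2; nlinarith
    · have := hs.1; nlinarith
  unfold cp cm
  exact ⟨if_neg (by linarith), if_pos this⟩

theorem res_tendsto (W : T → ℂ) (Wp Wm : ℂ) (hp : Tendsto (fun s : ℝ => W (s : T)) (𝓝[>] 0) (𝓝 Wp)) (hm : Tendsto (fun s : ℝ => W (s : T)) (𝓝[<] 0) (𝓝 Wm)) :
    Tendsto (fun t => W t - Wp * cp t - Wm * cm t) (𝓝[≠] (0 : T)) (𝓝 0) := by
  rw [Metric.tendsto_nhds]
  intro ε hε
  have h := punct 0 (fun t => dist (W t - Wp * cp t - Wm * cm t) 0 < ε) ?_ ?_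
  · simpa using h
  · filter_upwards [ev_left, (Metric.tendsto_nhds.1 hm) ε hε] with s hs h1
    rw [hs.1, hs.2, dist_zero_right]
    rw [dist_eq_norm] at h1
    simpa using h1
  · filter_upwards [ev_right, (Metric.tendsto_nhds.1 hp) ε hε] with s hs h1
    rw [hs.1, hs.2, dist_zero_right]
    rw [dist_eq_norm] at h1
    simpa using h1

section
variable (W : T → ℂ) (hmeas : AEStronglyMeasurable W mu) (M : ℝ) (hM : ∀ t, ‖W t‖ ≤ M) (Wp Wm : ℂ)
  (hp : Tendsto (fun s : ℝ => W (s : T)) (𝓝[>] 0) (𝓝 Wp)) (hm : Tendsto (fun s : ℝ => W (s : T)) (𝓝[<] 0) (𝓝 Wm))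

include hmeas hM hp hm

theorem res_null : Tendsto (fun r : ℝ => (∫ t, ‖W t - Wp * cp t - Wm * cm t‖ * wr r t ∂mu) / LL r) (𝓝[<] 1) (𝓝 0) := by
  refine null_avg (fun t => W t - Wp * cp t - Wm * cm t) ?_ (M + ‖Wp‖ + ‖Wm‖) ?_ (res_tendsto W Wp Wm hp hm)
  · exact (hmeas.sub ((Complex.measurable_ofReal.comp cp_meas).const_mul Wp).aestronglyMeasurable).sub ((Complex.measurable_ofReal.comp cm_meas).const_mul Wm).aestronglyMeasurable
  · intro t
    refine (norm_sub_le _ _).trans (add_le_add ((norm_sub_le _ _).trans (add_le_add (hM t) ?_)) ?_)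
    · rw [norm_mul, Complex.norm_real]
      exact mul_le_of_le_one_right (norm_nonneg _) (cp_bd t)
    · rw [norm_mul, Complex.norm_real]
      exact mul_le_of_le_one_right (norm_nonneg _) (cm_bd t)

theorem avg1 : Tendsto (fun r : ℝ => (∫ t, W t * (wr r t : ℂ) ∂mu) / LL r) (𝓝[<] 1) (𝓝 ((Wp + Wm) / 2)) := by
  have hnull := res_null W hmeas M hM Wp Wm hp hm
  have hpos : ∀ᶠ r in 𝓝[<] 1, 0 < LL r := LL_tendsto.eventually (eventually_gt_atTop 0)
  have hn2 : Tendsto (fun r : ℝ => (∫ t, (W t - Wp * cp t - Wm * cm t) * (wr r t : ℂ) ∂mu) / LL r) (𝓝[<] 1) (𝓝 0) := by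
    rw [tendsto_zero_iff_norm_tendsto_zero]
    refine squeeze_zero' (Eventually.of_forall fun _ => norm_nonneg _) ?_ hnull
    filter_upwards [hpos, Ioo_mem_nhdsLT (show (0:ℝ) < 1 by norm_num)] with r hr hr01
    rw [norm_div, Complex.norm_real, Real.norm_eq_abs, abs_of_pos hr]
    refine div_le_div_of_nonneg_right ((norm_integral_le_integral_norm _).trans (le_of_eq ?_)) hr.le
    refine integral_congr_ae (Eventually.of_forall fun t => ?_)
    simp only [norm_mul, Complex.norm_real, Real.norm_eq_abs]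
    rw [abs_of_pos (wr_pos r hr01.1.le hr01.2 t)]
  have h := hn2.add (tendsto_const_nhds (x := (Wp + Wm) / 2))
  rw [zero_add] at h
  refine h.congr' ?_
  filter_upwards [hpos, Ioo_mem_nhdsLT (show (0:ℝ) < 1 by norm_num)] with r hr hr01
  have h0 := hr01.1.le
  have h1 := hr01.2
  have hLne : (LL r : ℂ) ≠ 0 := by exact_mod_cast hr.ne'
  have hwC : Integrable (fun t => (wr r t : ℂ)) mu := (wr_int r h0 h1).ofReal
  have i1 : Integrable (fun t => W t * (wr r t : ℂ)) mu := hwC.bdd_mul (c := M) hmeas (Eventually.of_forall hM)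
  have i2 : Integrable (fun t => Wp * ((cp t * wr r t : ℝ) : ℂ)) mu := ((cpw_int r h0 h1).ofReal).const_mul _
  have i3 : Integrable (fun t => Wm * ((cm t * wr r t : ℝ) : ℂ)) mu := ((cmw_int r h0 h1).ofReal).const_mul _
  have e : ∫ t, (W t - Wp * cp t - Wm * cm t) * (wr r t : ℂ) ∂mu = ∫ t, W t * (wr r t : ℂ) ∂mu - Wp * (LL r / 2) - Wm * (LL r / 2) := by
    have e1 : ∫ t, (W t - Wp * cp t - Wm * cm t) * (wr r t : ℂ) ∂mu = ∫ t, (W t * (wr r t : ℂ) - Wp * ((cp t * wr r t : ℝ) : ℂ) - Wm * ((cm t * wr r t : ℝ) : ℂ)) ∂mu := by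
      refine integral_congr_ae (Eventually.of_forall fun t => ?_)
      simp only
      push_cast
      ring
    have eo : ∀ f : T → ℝ, ∫ t, ((f t : ℝ) : ℂ) ∂mu = ((∫ t, f t ∂mu : ℝ) : ℂ) := fun f => integral_ofReal (𝕜 := ℂ)
    have i12 : Integrable (fun t => W t * (wr r t : ℂ) - Wp * ((cp t * wr r t : ℝ) : ℂ)) mu := i1.sub i2
    rw [e1, integral_sub i12 i3, integral_sub i1 i2, integral_const_mul, integral_const_mul, eo (fun t => cp t * wr r t), eo (fun t => cm t * wr r t), cm_eq_cp r h0 h1, cp_half r h0 h1]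
    push_cast
    ring
  rw [e]
  field_simp
  ring

theorem avgk : Tendsto (fun r : ℝ => (∫ t, W t * (1 - (r : ℂ) * zz t)⁻¹ ∂mu) / LL r) (𝓝[<] 1) (𝓝 (Complex.I / 2 * (Wp - Wm))) := by
  have hnull := res_null W hmeas M hM Wp Wm hp hm
  have hpos : ∀ᶠ r in 𝓝[<] 1, 0 < LL r := LL_tendsto.eventually (eventually_gt_atTop 0)
  have hn2 : Tendsto (fun r : ℝ => (∫ t, (W t - Wp * cp t - Wm * cm t) * (1 - (r : ℂ) * zz t)⁻¹ ∂mu) / LL r) (𝓝[<] 1) (𝓝 0) := by
    rw [tendsto_zero_iff_norm_tendsto_zero]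
    refine squeeze_zero' (Eventually.of_forall fun _ => norm_nonneg _) ?_ hnull
    filter_upwards [hpos, Ioo_mem_nhdsLT (show (0:ℝ) < 1 by norm_num)] with r hr hr01
    rw [norm_div, Complex.norm_real, Real.norm_eq_abs, abs_of_pos hr]
    refine div_le_div_of_nonneg_right ((norm_integral_le_integral_norm _).trans (le_of_eq ?_)) hr.le
    refine integral_congr_ae (Eventually.of_forall fun t => ?_)
    simp only [norm_mul, norm_inv]
    rfl
  have hB := BB_tendsto
  have hBc : Tendsto (fun r => conj (BB r) / LL r) (𝓝[<] 1) (𝓝 (-(Complex.I / 2))) := by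
    have h := (Complex.continuous_conj.tendsto _).comp hB
    have e : conj (Complex.I / 2) = -(Complex.I / 2) := by
      rw [map_div₀, Complex.conj_I, Complex.conj_ofNat]; ring
    rw [e] at h
    refine h.congr fun r => ?_
    simp
  have h := (hn2.add (hB.const_mul Wp)).add (hBc.const_mul Wm)
  have e0 : (0 : ℂ) + Wp * (Complex.I / 2) + Wm * -(Complex.I / 2) = Complex.I / 2 * (Wp - Wm) := by ring
  rw [e0] at h
  refine h.congr' ?_
  filter_upwards [hpos, Ioo_mem_nhdsLT (show (0:ℝ) < 1 by norm_num)] with r hr hr01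
  have h0 := hr01.1.le
  have h1 := hr01.2
  have hLne : (LL r : ℂ) ≠ 0 := by exact_mod_cast hr.ne'
  have hk := cont_int (inv_cont r h0 h1)
  have i1 : Integrable (fun t => W t * (1 - (r : ℂ) * zz t)⁻¹) mu := hk.bdd_mul (c := M) hmeas (Eventually.of_forall hM)
  have i2 : Integrable (fun t => Wp * ((cp t : ℂ) * (1 - (r : ℂ) * zz t)⁻¹)) mu := (BB_int r h0 h1).const_mul _
  have i3 : Integrable (fun t => Wm * ((cm t : ℂ) * (1 - (r : ℂ) * zz t)⁻¹)) mu :=
    (hk.bdd_mul (c := 1) (Complex.measurable_ofReal.comp cm_meas).aestronglyMeasurable (Eventually.of_forall fun t => by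
      change ‖((cm t : ℝ) : ℂ)‖ ≤ 1
      rw [Complex.norm_real]; exact cm_bd t)).const_mul _
  have e : ∫ t, (W t - Wp * cp t - Wm * cm t) * (1 - (r : ℂ) * zz t)⁻¹ ∂mu = ∫ t, W t * (1 - (r : ℂ) * zz t)⁻¹ ∂mu - Wp * BB r - Wm * conj (BB r) := by
    have e1 : ∫ t, (W t - Wp * cp t - Wm * cm t) * (1 - (r : ℂ) * zz t)⁻¹ ∂mu = ∫ t, (W t * (1 - (r : ℂ) * zz t)⁻¹ - Wp * ((cp t : ℂ) * (1 - (r : ℂ) * zz t)⁻¹) - Wm * ((cm t : ℂ) * (1 - (r : ℂ) * zz t)⁻¹)) ∂mu := by
      refine integral_congr_ae (Eventually.of_forall fun t => ?_)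
      simp only
      ring
    have i12 : Integrable (fun t => W t * (1 - (r : ℂ) * zz t)⁻¹ - Wp * ((cp t : ℂ) * (1 - (r : ℂ) * zz t)⁻¹)) mu := i1.sub i2
    rw [e1, integral_sub i12 i3, integral_sub i1 i2, integral_const_mul, integral_const_mul, BB_conj r h0 h1]
    rfl
  rw [e]
  field_simp
  ring

theorem avg2 : Tendsto (fun r : ℝ => (∫ t, W t * (zz t * (1 - (r : ℂ) * zz t)⁻¹) ∂mu) / LL r) (𝓝[<] 1) (𝓝 (Complex.I / 2 * (Wp - Wm))) := by
  have hz : Tendsto (fun s : ℝ => zz (s : T)) (𝓝 0) (𝓝 1) := by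
    have := (zz.continuous.comp (AddCircle.continuous_mk' (1:ℝ))).tendsto 0
    have e : (zz ∘ (fun y : ℝ => (y : T))) 0 = 1 := by
      simp [zz]
    rw [← e]
    exact this
  have h := avgk (fun t => W t * zz t) (hmeas.mul zz.continuous.aestronglyMeasurable) M (fun t => by rw [norm_mul, zz_norm, mul_one]; exact hM t) Wp Wm
    (by simpa using hp.mul (hz.mono_left nhdsWithin_le_nhds)) (by simpa using hm.mul (hz.mono_left nhdsWithin_le_nhds))
  refine h.congr fun r => ?_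
  congr 1
  refine integral_congr_ae (Eventually.of_forall fun t => ?_)
  simp only
  ring

end

end Pool.Agent.H8.Theta
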