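import Mathlib

set_option autoImplicit false

open MeasureTheory Filter Topology Set
open scoped ComplexConjugate ENNReal

namespace Pool.Agent.H8.Theta

abbrev T := AddCircle (1:ℝ)
noncomputable abbrev mu : Measure T := AddCircle.haarAddCircle (T := (1:ℝ))
noncomputable abbrev H := Lp ℂ 2 mu

/-- `M` is multiplication by `φ` -/
def IsMul (φ : T → ℂ) (M : H →L[ℂ] H) : Prop := ∀ f : H, (M f : T → ℂ) =ᵐ[mu] fun x => φ x * f x

theorem IsMul.unique {φ : T → ℂ} {M M' : H →L[ℂ] H} (h : IsMul φ M) (h' : IsMul φ M') : M = M' := by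
  ext1 f
  exact Lp.ext ((h f).trans (h' f).symm)

theorem IsMul.congr {φ ψ : T → ℂ} {M : H →L[ℂ] H} (h : IsMul φ M) (h' : φ =ᵐ[mu] ψ) : IsMul ψ M := by
  intro f
  filter_upwards [h f, h'] with x h1 h2
  rw [h1, h2]

theorem mul_memLp (φ : T → ℂ) (hm : AEStronglyMeasurable φ mu) (C : ℝ) (hC : ∀ᵐ x ∂mu, ‖φ x‖ ≤ C) (f : H) :
    MemLp (fun x => φ x * f x) 2 mu := by
  refine (Lp.memLp f).of_le_mul (c := C) (hm.mul (Lp.aestronglyMeasurable f)) ?_
  filter_upwards [hC] with x hx
  rw [norm_mul]
  exact mul_le_mul_of_nonneg_right hx (norm_nonneg _)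

theorem exists_mul (φ : T → ℂ) (hm : AEStronglyMeasurable φ mu) (C : ℝ) (hC : ∀ᵐ x ∂mu, ‖φ x‖ ≤ C) :
    ∃ M : H →L[ℂ] H, IsMul φ M ∧ ∀ f, ‖M f‖ ≤ C * ‖f‖ := by
  have hb : ∀ f : H, ‖(mul_memLp φ hm C hC f).toLp‖ ≤ C * ‖f‖ := by
    intro f
    refine Lp.norm_le_mul_norm_of_ae_le_mul ?_
    filter_upwards [(mul_memLp φ hm C hC f).coeFn_toLp, hC] with x hx h2
    rw [hx, norm_mul]
    exact mul_le_mul_of_nonneg_right h2 (norm_nonneg _)
  refine ⟨LinearMap.mkContinuous { toFun := fun f => (mul_memLp φ hm C hC f).toLp, map_add' := ?_, map_smul' := ?_ } C hb, ?_, hb⟩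
  · intro f g
    refine Lp.ext ?_
    filter_upwards [(mul_memLp φ hm C hC (f + g)).coeFn_toLp, (mul_memLp φ hm C hC f).coeFn_toLp, (mul_memLp φ hm C hC g).coeFn_toLp, Lp.coeFn_add f g,
      Lp.coeFn_add (mul_memLp φ hm C hC f).toLp (mul_memLp φ hm C hC g).toLp] with x h1 h2 h3 h4 h5
    rw [h1, h5, Pi.add_apply, h2, h3, h4, Pi.add_apply]; ring
  · intro c f
    refine Lp.ext ?_
    filter_upwards [(mul_memLp φ hm C hC (c • f)).coeFn_toLp, (mul_memLp φ hm C hC f).coeFn_toLp, Lp.coeFn_smul c f,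
      Lp.coeFn_smul c (mul_memLp φ hm C hC f).toLp] with x h1 h2 h3 h4
    rw [h1, RingHom.id_apply, h4, Pi.smul_apply, h2, h3, Pi.smul_apply, smul_eq_mul, smul_eq_mul]; ring
  · intro f
    exact (mul_memLp φ hm C hC f).coeFn_toLp

/-- the monomials -/
noncomputable abbrev ee (n : ℤ) : H := fourierLp (T := (1:ℝ)) 2 n

theorem ee_coe (n : ℤ) : (ee n : T → ℂ) =ᵐ[mu] fourier n := coeFn_fourierLp 2 n

theorem IsMul.meas {φ : T → ℂ} {M : H →L[ℂ] H} (h : IsMul φ M) : AEStronglyMeasurable φ mu := by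
  refine (Lp.aestronglyMeasurable (M (ee 0))).congr ?_
  filter_upwards [h (ee 0), ee_coe 0] with x h1 h2
  rw [h1, h2, fourier_zero, mul_one]

theorem IsMul.comp {φ ψ : T → ℂ} {M N : H →L[ℂ] H} (h : IsMul φ M) (h' : IsMul ψ N) : IsMul (fun x => φ x * ψ x) (M ∘L N) := by
  intro f
  filter_upwards [h (N f), h' f] with x h1 h2
  rw [ContinuousLinearMap.comp_apply, h1, h2, mul_assoc]

theorem IsMul.add {φ ψ : T → ℂ} {M N : H →L[ℂ] H} (h : IsMul φ M) (h' : IsMul ψ N) : IsMul (fun x => φ x + ψ x) (M + N) := by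
  intro f
  rw [add_apply]
  filter_upwards [h f, h' f, Lp.coeFn_add (M f) (N f)] with x h1 h2 h3
  rw [h3, Pi.add_apply, h1, h2, add_mul]

theorem IsMul.sub {φ ψ : T → ℂ} {M N : H →L[ℂ] H} (h : IsMul φ M) (h' : IsMul ψ N) : IsMul (fun x => φ x - ψ x) (M - N) := by
  intro f
  rw [sub_apply]
  filter_upwards [h f, h' f, Lp.coeFn_sub (M f) (N f)] with x h1 h2 h3
  rw [h3, Pi.sub_apply, h1, h2, sub_mul]

theorem IsMul.smul {φ : T → ℂ} {M : H →L[ℂ] H} (c : ℂ) (h : IsMul φ M) : IsMul (fun x => c * φ x) (c • M) := by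
  intro f
  rw [smul_apply]
  filter_upwards [h f, Lp.coeFn_smul c (M f)] with x h1 h3
  rw [h3, Pi.smul_apply, h1, smul_eq_mul, mul_assoc]

theorem isMul_one : IsMul (fun _ => 1) (1 : H →L[ℂ] H) := by
  intro f
  filter_upwards with x
  simp

theorem IsMul.adjoint {φ : T → ℂ} {M : H →L[ℂ] H} (h : IsMul φ M) (C : ℝ) (hC : ∀ᵐ x ∂mu, ‖φ x‖ ≤ C) :
    IsMul (fun x => conj (φ x)) (ContinuousLinearMap.adjoint M) := by
  obtain ⟨N, hN, -⟩ := exists_mul (fun x => conj (φ x)) (RCLike.continuous_conj.comp_aestronglyMeasurable h.meas) C (by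
    filter_upwards [hC] with x hx
    rwa [RCLike.norm_conj])
  have : N = ContinuousLinearMap.adjoint M := by
    rw [ContinuousLinearMap.eq_adjoint_iff]
    intro f g
    rw [L2.inner_def, L2.inner_def]
    refine integral_congr_ae ?_
    filter_upwards [hN f, h g] with x h1 h2
    rw [h1, h2]
    simp only [RCLike.inner_apply, map_mul, RCLike.conj_conj]
    ring
  rw [← this]
  exact hN

theorem ext_fourier {A B : H →L[ℂ] H} (h : ∀ n : ℤ, A (ee n) = B (ee n)) : A = B := by
  refine ContinuousLinearMap.ext_on (s := range (fun n : ℤ => ee n)) ?_ ?_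
  · rw [dense_iff_closure_eq]
    have := span_fourierLp_closure_eq_top (T := (1:ℝ)) (p := 2) (by norm_num)
    rw [← Submodule.topologicalClosure_coe, this]
    rfl
  · rintro _ ⟨n, rfl⟩
    exact h n

theorem zero_of_inner {x : H} (h : ∀ n : ℤ, inner ℂ (ee n) x = 0) : x = 0 := by
  have h1 : (ContinuousLinearMap.smulRight (innerSL ℂ x) (ee 0) : H →L[ℂ] H) = 0 := by
    refine ext_fourier fun n => ?_
    rw [ContinuousLinearMap.smulRight_apply, innerSL_apply_apply, ← inner_conj_symm, h n]
    simp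
  have h2 := congrArg (fun A : H →L[ℂ] H => A x) h1
  simp only [ContinuousLinearMap.smulRight_apply, innerSL_apply_apply, zero_apply, smul_eq_zero, inner_self_eq_zero] at h2
  rcases h2 with h2 | h2
  · exact h2
  · have := orthonormal_fourier (T := (1:ℝ)) |>.ne_zero 0
    exact absurd h2 this

/-- the sign -/
def sg (n : ℤ) : ℂ := if 0 ≤ n then 1 else -1

theorem sg_conj (n : ℤ) : conj (sg n) = sg n := by unfold sg; split_ifs <;> simp

def IsRiesz (S : H →L[ℂ] H) : Prop := ∀ n : ℤ, S (ee n) = sg n • ee n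

theorem IsRiesz.adj {S : H →L[ℂ] H} (hS : IsRiesz S) : ContinuousLinearMap.adjoint S = S := by
  refine ext_fourier fun n => ?_
  rw [← sub_eq_zero]
  refine zero_of_inner fun m => ?_
  rw [inner_sub_right, ContinuousLinearMap.adjoint_inner_right, hS m, hS n, inner_smul_left, inner_smul_right, sg_conj]
  by_cases hmn : m = n
  · rw [hmn, sub_self]
  · rw [(orthonormal_fourier (T := (1:ℝ))).2 hmn]; simp

theorem IsRiesz.sq {S : H →L[ℂ] H} (hS : IsRiesz S) (f : H) : S (S f) = f := by
  have : S ∘L S = 1 := by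
    refine ext_fourier fun n => ?_
    rw [ContinuousLinearMap.comp_apply, hS n, map_smul, hS n, smul_smul]
    have : sg n * sg n = 1 := by unfold sg; split_ifs <;> norm_num
    rw [this, one_smul]; rfl
  exact congrArg (fun A : H →L[ℂ] H => A f) this

theorem compact_rank_one (u v : H) : IsCompactOperator (ContinuousLinearMap.smulRight (innerSL ℂ u) v : H →L[ℂ] H) := by
  refine ⟨(fun c : ℂ => c • v) '' (Metric.closedBall 0 1), (isCompact_closedBall 0 1).image (by fun_prop), ?_⟩
  have hc : Continuous fun f : H => ‖(inner ℂ u f : ℂ)‖ := by fun_prop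
  have : {f : H | ‖(inner ℂ u f : ℂ)‖ < 1} ∈ 𝓝 (0 : H) := (isOpen_lt hc continuous_const).mem_nhds (by simp)
  refine mem_of_superset this fun f hf => ?_
  refine ⟨inner ℂ u f, ?_, rfl⟩
  rw [mem_closedBall_zero_iff]
  exact le_of_lt hf

theorem cont_mul (h : C(T, ℂ)) : ∃ M : H →L[ℂ] H, IsMul h M ∧ ∀ f, ‖M f‖ ≤ ‖h‖ * ‖f‖ :=
  exists_mul h h.continuous.aestronglyMeasurable ‖h‖ (Eventually.of_forall h.norm_coe_le_norm)

/-- multiplication by continuous functions -/
noncomputable def MC0 : C(T, ℂ) →ₗ[ℂ] (H →L[ℂ] H) where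
  toFun := fun h => (cont_mul h).choose
  map_add' := fun g h => (cont_mul (g + h)).choose_spec.1.unique ((cont_mul g).choose_spec.1.add (cont_mul h).choose_spec.1)
  map_smul' := fun c h => (cont_mul (c • h)).choose_spec.1.unique ((cont_mul h).choose_spec.1.smul c)

noncomputable def MC : C(T, ℂ) →L[ℂ] (H →L[ℂ] H) :=
  LinearMap.mkContinuous MC0 1 (fun h => by
    rw [one_mul]
    exact ContinuousLinearMap.opNorm_le_bound _ (norm_nonneg _) (cont_mul h).choose_spec.2)

theorem MC_isMul (h : C(T, ℂ)) : IsMul h (MC h) := (cont_mul h).choose_spec.1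

theorem MC_ee (m n : ℤ) : MC (fourier m) (ee n) = ee (m + n) := by
  refine Lp.ext ?_
  filter_upwards [MC_isMul (fourier m) (ee n), ee_coe n, ee_coe (m + n)] with x h1 h2 h3
  rw [h1, h2, h3, fourier_add]

section comm
variable {S : H →L[ℂ] H} (hS : IsRiesz S)

noncomputable def comm (S : H →L[ℂ] H) (h : C(T, ℂ)) : H →L[ℂ] H := MC h ∘L S - S ∘L MC h

theorem comm_mul (g h : C(T, ℂ)) : comm S (g * h) = MC g ∘L comm S h + comm S g ∘L MC h := by
  have : MC (g * h) = MC g ∘L MC h := (MC_isMul (g * h)).unique ((MC_isMul g).comp (MC_isMul h))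
  unfold comm
  rw [this]
  ext1 f
  simp

include hS

theorem comm_ee (m n : ℤ) : comm S (fourier m) (ee n) = (sg n - sg (m + n)) • ee (m + n) := by
  unfold comm
  rw [sub_apply, ContinuousLinearMap.comp_apply, ContinuousLinearMap.comp_apply, hS n, map_smul, MC_ee, hS (m + n), sub_smul]

theorem comm_one : IsCompactOperator (comm S (fourier 1)) := by
  have : comm S (fourier 1) = ContinuousLinearMap.smulRight (innerSL ℂ (ee (-1))) ((-2 : ℂ) • ee 0) := by
    refine ext_fourier fun n => ?_
    rw [comm_ee hS, ContinuousLinearMap.smulRight_apply, innerSL_apply_apply]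
    by_cases hn : n = -1
    · subst hn
      rw [(orthonormal_iff_ite.1 (orthonormal_fourier (T := (1:ℝ)))) (-1) (-1)]
      simp [sg]
      norm_num
    · rw [(orthonormal_iff_ite.1 (orthonormal_fourier (T := (1:ℝ)))) (-1) n, if_neg (by tauto), zero_smul]
      have : sg n = sg (1 + n) := by
        unfold sg
        split_ifs <;> first | rfl | (exfalso; omega)
      rw [this, sub_self, zero_smul]
  rw [this]
  exact compact_rank_one _ _

theorem comm_neg_one : IsCompactOperator (comm S (fourier (-1))) := by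
  have : comm S (fourier (-1)) = ContinuousLinearMap.smulRight (innerSL ℂ (ee 0)) ((2 : ℂ) • ee (-1)) := by
    refine ext_fourier fun n => ?_
    rw [comm_ee hS, ContinuousLinearMap.smulRight_apply, innerSL_apply_apply]
    by_cases hn : n = 0
    · subst hn
      rw [(orthonormal_iff_ite.1 (orthonormal_fourier (T := (1:ℝ)))) 0 0]
      simp [sg]
      norm_num
    · rw [(orthonormal_iff_ite.1 (orthonormal_fourier (T := (1:ℝ)))) 0 n, if_neg (by tauto), zero_smul]
      have : sg n = sg (-1 + n) := by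
        unfold sg
        split_ifs <;> first | rfl | (exfalso; omega)
      rw [this, sub_self, zero_smul]
  rw [this]
  exact compact_rank_one _ _

theorem comm_compact (h : C(T, ℂ)) : IsCompactOperator (comm S h) := by
  have h1 := comm_one hS
  have h2 := comm_neg_one hS
  have hp : ∀ n : ℕ, IsCompactOperator (comm S (fourier (n : ℤ))) ∧ IsCompactOperator (comm S (fourier (-(n : ℤ)))) := by
    intro n
    induction n with
    | zero =>
      have : comm S (fourier 0) = 0 := by
        refine ext_fourier fun n => ?_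
        rw [comm_ee hS, zero_add, sub_self, zero_smul]; rfl
      rw [Nat.cast_zero, neg_zero, this]
      exact ⟨isCompactOperator_zero, isCompactOperator_zero⟩
    | succ n ih =>
      have e1 : (fourier ((n + 1 : ℕ) : ℤ) : C(T, ℂ)) = fourier 1 * fourier (n : ℤ) := by
        ext x
        rw [ContinuousMap.mul_apply, ← fourier_add]
        congr 2
        push_cast; ring
      have e2 : (fourier (-((n + 1 : ℕ) : ℤ)) : C(T, ℂ)) = fourier (-1) * fourier (-(n : ℤ)) := by
        ext x
        rw [ContinuousMap.mul_apply, ← fourier_add]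
        congr 2
        push_cast; ring
      rw [e1, e2, comm_mul, comm_mul]
      exact ⟨(ih.1.clm_comp _).add (h1.comp_clm _), (ih.2.clm_comp _).add (h2.comp_clm _)⟩
  have hz : ∀ n : ℤ, IsCompactOperator (comm S (fourier n)) := by
    intro n
    obtain ⟨k, rfl | rfl⟩ := n.eq_nat_or_neg
    · exact (hp k).1
    · exact (hp k).2
  have hcl : IsClosed {h : C(T, ℂ) | IsCompactOperator (comm S h)} := by
    have hc : Continuous fun h : C(T, ℂ) => comm S h := by
      unfold comm
      fun_prop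
    exact (isClosed_setOfPred_isCompactOperator (σ₁₂ := RingHom.id ℂ)).preimage hc
  have hmem : h ∈ (Submodule.span ℂ (range (fourier (T := (1:ℝ))))).topologicalClosure := by
    rw [span_fourier_closure_eq_top]; trivial
  have hsub : ((Submodule.span ℂ (range (fourier (T := (1:ℝ)))) : Submodule ℂ C(T, ℂ)) : Set C(T, ℂ)) ⊆ {h : C(T, ℂ) | IsCompactOperator (comm S h)} := by
    intro g hg
    induction hg using Submodule.span_induction with
    | mem x hx => obtain ⟨n, rfl⟩ := hx; exact hz n
    | zero =>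
      have : comm S 0 = 0 := by unfold comm; rw [map_zero]; simp
      change IsCompactOperator (comm S 0)
      rw [this]; exact isCompactOperator_zero
    | add x y _ _ hx hy =>
      have : comm S (x + y) = comm S x + comm S y := by unfold comm; rw [map_add]; ext1 f; simp; abel
      change IsCompactOperator (comm S (x + y))
      rw [this]; exact IsCompactOperator.add hx hy
    | smul c x _ hx =>
      have : comm S (c • x) = c • comm S x := by unfold comm; rw [map_smul]; ext1 f; simp [smul_sub]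
      change IsCompactOperator (comm S (c • x))
      rw [this]; exact IsCompactOperator.smul hx c
  exact hcl.closure_subset_iff.2 hsub hmem

end comm

end Pool.Agent.H8.Theta
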