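import Pool.Agent.H8.Theta.Nec5

set_option autoImplicit false

open MeasureTheory Filter Topology Set
open scoped ComplexConjugate ENNReal

namespace Pool.Agent.H8.Theta

theorem lift_nhds (s : ℝ) (Pr : T → Prop) (h : ∀ᶠ y : ℝ in 𝓝 s, Pr (y : T)) : ∀ᶠ t in 𝓝 (s : T), Pr t := by
  have ho : IsOpenMap (fun y : ℝ => (y : T)) := QuotientAddGroup.isOpenMap_coe
  have := ho.image_mem_nhds h
  refine mem_of_superset this ?_
  rintro _ ⟨y, hy, rfl⟩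
  exact hy

theorem PC.meas {Θ : T → ℂ} (h : PC Θ) : AEStronglyMeasurable Θ mu := by
  set bad : ℕ → Set T := fun n => {t | ¬ ∀ᶠ s in 𝓝 t, ‖Θ s - Θ t‖ < 1 / ((n : ℝ) + 1)} with hbad
  have hfin : ∀ n, (bad n).Finite := by
    intro n
    have hε : 0 < 1 / ((n : ℝ) + 1) := by positivity
    classical
    obtain ⟨δ, hδ, E, hE, hEs⟩ := compact_finite (fun t => if t ∈ bad n then 0 else 1) (by
      intro t0
      obtain ⟨x, rfl⟩ := QuotientAddGroup.mk_surjective t0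
      obtain ⟨⟨l, hl⟩, ⟨r, hr⟩⟩ := h x
      refine ⟨1, one_pos, ?_⟩
      have side : ∀ (s : ℝ) (l : ℂ), (∀ᶠ y : ℝ in 𝓝 s, ‖Θ (y : T) - l‖ < 1 / ((n : ℝ) + 1) / 2) → (s : T) ∉ bad n := by
        intro s l hs hmem
        apply hmem
        have h1 := lift_nhds s (fun t => ‖Θ t - l‖ < 1 / ((n : ℝ) + 1) / 2) hs
        have h2 := hs.self_of_nhds
        filter_upwards [h1] with t ht
        calc ‖Θ t - Θ (s : T)‖ = ‖(Θ t - l) - (Θ (s : T) - l)‖ := by congr 1; ring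
          _ ≤ ‖Θ t - l‖ + ‖Θ (s : T) - l‖ := norm_sub_le _ _
          _ < 1 / ((n : ℝ) + 1) / 2 + 1 / ((n : ℝ) + 1) / 2 := add_lt_add ht h2
          _ = _ := by ring
      refine punct x (fun t => 1 ≤ (if t ∈ bad n then (0 : ℝ) else 1)) ?_ ?_
      · have h1 : ∀ᶠ y : ℝ in 𝓝[<] x, ‖Θ (y : T) - l‖ < 1 / ((n : ℝ) + 1) / 2 := by
          have := (Metric.tendsto_nhds.1 hl) (1 / ((n : ℝ) + 1) / 2) (by positivity)
          filter_upwards [this] with y hy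
          rwa [dist_eq_norm] at hy
        have h2 := eventually_eventually_nhdsWithin.2 h1
        filter_upwards [h2, self_mem_nhdsWithin] with y hy hyx
        rw [isOpen_Iio.nhdsWithin_eq hyx] at hy
        rw [if_neg (side y l hy)]
      · have h1 : ∀ᶠ y : ℝ in 𝓝[>] x, ‖Θ (y : T) - r‖ < 1 / ((n : ℝ) + 1) / 2 := by
          have := (Metric.tendsto_nhds.1 hr) (1 / ((n : ℝ) + 1) / 2) (by positivity)
          filter_upwards [this] with y hy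
          rwa [dist_eq_norm] at hy
        have h2 := eventually_eventually_nhdsWithin.2 h1
        filter_upwards [h2, self_mem_nhdsWithin] with y hy hyx
        rw [isOpen_Ioi.nhdsWithin_eq hyx] at hy
        rw [if_neg (side y r hy)])
    refine hE.subset fun t ht => ?_
    by_contra htE
    have := hEs t htE
    rw [if_pos ht] at this
    linarith
  have hcount : (⋃ n, bad n).Countable := countable_iUnion fun n => (hfin n).countable
  have hcont : ContinuousOn Θ (⋃ n, bad n)ᶜ := by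
    intro t ht
    refine ContinuousAt.continuousWithinAt ?_
    rw [ContinuousAt, Metric.tendsto_nhds]
    intro ε hε
    obtain ⟨n, hn⟩ := exists_nat_one_div_lt hε
    have h1 : t ∉ bad n := fun hmem => ht (mem_iUnion.2 ⟨n, hmem⟩)
    have h2 : ∀ᶠ s in 𝓝 t, ‖Θ s - Θ t‖ < 1 / ((n : ℝ) + 1) := by
      by_contra hneg
      exact h1 hneg
    filter_upwards [h2] with s hs
    rw [dist_eq_norm]
    exact hs.trans hn
  have h3 := hcont.aestronglyMeasurable (μ := mu) hcount.measurableSet.compl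
  have h4 : mu.restrict (⋃ n, bad n)ᶜ = mu := by
    refine Measure.restrict_eq_self_of_ae_mem ?_
    exact measure_eq_zero_iff_ae_notMem.1 (hcount.measure_zero mu)
  rwa [h4] at h3

theorem gen (A B γ : ℝ) (hγ : 0 < γ) (hAB : ∀ U : ℝ, 0 < U → γ * (U + U⁻¹) ≤ A * U + B * U⁻¹) : 0 < A := by
  by_contra hneg
  push Not at hneg
  have h1 := hAB (|B| / γ + 1) (by positivity)
  have hU : 0 < |B| / γ + 1 := by positivity
  have h2 : A * (|B| / γ + 1) ≤ 0 := mul_nonpos_of_nonpos_of_nonneg hneg hU.le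
  have h3 : B * (|B| / γ + 1)⁻¹ ≤ |B| := by
    calc B * (|B| / γ + 1)⁻¹ ≤ |B| * (|B| / γ + 1)⁻¹ := mul_le_mul_of_nonneg_right (le_abs_self _) (by positivity)
      _ ≤ |B| * 1 := mul_le_mul_of_nonneg_left (inv_le_one_of_one_le₀ (by have : 0 ≤ |B| / γ := by positivity
                                                                          linarith)) (abs_nonneg _)
      _ = |B| := mul_one _
  have h4 : γ * (|B| / γ + 1) = |B| + γ := by field_simp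
  have h5 : 0 < γ * (|B| / γ + 1)⁻¹ := by positivity
  nlinarith

theorem adj_ff (x : T) (τ : ℝ) (Θ : T → ℂ) (MΘ : H →L[ℂ] H) (hMΘ : IsMul Θ MΘ) (M : ℝ) (hM : ∀ t, ‖Θ t‖ ≤ M) (k : ℕ) :
    ‖ContinuousLinearMap.adjoint MΘ (ff x 1 0 τ k)‖ ^ 2 = ∫ s, ‖Θ (s + x)‖ ^ 2 * Ur τ s * wr (rk k) s ∂mu := by
  rw [norm_sq_eq, ← sub_int (fun s => ‖Θ (s + x)‖ ^ 2 * Ur τ s * wr (rk k) s) x]
  refine integral_congr_ae ?_
  filter_upwards [hMΘ.adjoint M (Eventually.of_forall hM) (ff x 1 0 τ k), Lp.coeFn_add (pH x 1 τ (rk k) (rk0 k) (rk1 k)) (qH x 0 τ (rk k) (rk0 k) (rk1 k)),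
    pH_coe x 1 τ (rk k) (rk0 k) (rk1 k), qH_coe x 0 τ (rk k) (rk0 k) (rk1 k)] with t k1 k2 k3 k4
  rw [k1]
  have e : (ff x 1 0 τ k : T → ℂ) t = pf x 1 τ (rk k) t + qf x 0 τ (rk k) t := by
    unfold ff
    rw [k2, Pi.add_apply, k3, k4]
  rw [e, norm_mul, RCLike.norm_conj, mul_pow]
  unfold pf qf
  rw [one_mul, zero_mul, map_zero, add_zero, vv_norm_sq τ (rk k) (rk0 k) (rk1 k), sub_add_cancel]
  ring

theorem theta_ne (S MΘ A : H →L[ℂ] H) (hS : IsRiesz S) (Θ : T → ℂ) (hMΘ : IsMul Θ MΘ) (M : ℝ) (hM : ∀ t, ‖Θ t‖ ≤ M)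
    (x : ℝ) (tp tm : ℂ) (htp : Tendsto (fun s : ℝ => Θ (s : T)) (𝓝[>] x) (𝓝 tp)) (htm : Tendsto (fun s : ℝ => Θ (s : T)) (𝓝[<] x) (𝓝 tm))
    (hse : SE (MΘ ∘L A)) : tp ≠ 0 ∧ tm ≠ 0 := by
  obtain ⟨γ, hγ, K, hK, hineq⟩ := SE_ineq hse
  set c : ℝ := ‖A‖ ^ 2 / (2 * γ) with hc
  have hM0 : 0 ≤ M := (norm_nonneg _).trans (hM 0)
  have key : ∀ U : ℝ, 0 < U → γ / 2 * (U + U⁻¹) ≤ (c * ‖tp‖ ^ 2) * U + (c * ‖tm‖ ^ 2) * U⁻¹ := by
    intro U hU
    obtain ⟨τ, hτ⟩ : ∃ τ : ℝ, Real.exp (Real.pi * τ) = U := ⟨Real.log U / Real.pi, by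
      rw [mul_div_cancel₀ _ Real.pi_ne_zero, Real.exp_log hU]⟩
    obtain ⟨φ, hφ, hφK⟩ := fh_compact (x : T) 1 0 τ hS K hK
    have hl := ((fh_norm_tendsto (x : T) 1 0 τ hS).comp hφ.tendsto_atTop).const_mul (γ / 2)
    have hadj : Tendsto (fun k => ‖ContinuousLinearMap.adjoint MΘ (fh (x : T) 1 0 τ k)‖ ^ 2) atTop (𝓝 ((‖tp‖ ^ 2 * U + ‖tm‖ ^ 2 * U⁻¹) / 2)) := by
      have mpr := measurePreserving_add_right mu (x : T)
      have mt := hMΘ.meas.comp_measurePreserving mpr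
      have mW : AEStronglyMeasurable (fun s => ((‖Θ (s + x)‖ ^ 2 * Ur τ s : ℝ) : ℂ)) mu :=
        Complex.continuous_ofReal.comp_aestronglyMeasurable ((mt.norm.pow 2).mul (Ur_meas τ).aestronglyMeasurable)
      have h := avg1 (fun s => ((‖Θ (s + x)‖ ^ 2 * Ur τ s : ℝ) : ℂ)) mW (M ^ 2 * Real.exp (2 * |τ| * Real.pi)) (fun s => by
          rw [Complex.norm_real, norm_mul, norm_pow, norm_norm]
          exact mul_le_mul (pow_le_pow_left₀ (norm_nonneg _) (hM _) 2) (Ur_bd τ s) (norm_nonneg _) (by positivity))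
        ((‖tp‖ ^ 2 * U : ℝ) : ℂ) ((‖tm‖ ^ 2 * U⁻¹ : ℝ) : ℂ)
        (by
          have := ((shift_right x Θ tp htp).norm.pow 2).mul (Ur_right τ)
          rw [hτ] at this
          exact (Complex.continuous_ofReal.tendsto _).comp this)
        (by
          have := ((shift_left x Θ tm htm).norm.pow 2).mul (Ur_left τ)
          rw [hτ] at this
          exact (Complex.continuous_ofReal.tendsto _).comp this)
      have h2 := ((Complex.continuous_re.tendsto _).comp h).comp rk_tendsto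
      have e : (((‖tp‖ ^ 2 * U : ℝ) : ℂ) + ((‖tm‖ ^ 2 * U⁻¹ : ℝ) : ℂ)) / 2 = (((‖tp‖ ^ 2 * U + ‖tm‖ ^ 2 * U⁻¹) / 2 : ℝ) : ℂ) := by push_cast; ring
      rw [e, Complex.ofReal_re] at h2
      refine h2.congr fun k => ?_
      rw [clm_fh, adj_ff (x : T) τ Θ MΘ hMΘ M hM k]
      simp only [Function.comp]
      have eo0 : ∫ s, ((‖Θ (s + x)‖ ^ 2 * Ur τ s * wr (rk k) s : ℝ) : ℂ) ∂mu = ((∫ s, ‖Θ (s + x)‖ ^ 2 * Ur τ s * wr (rk k) s ∂mu : ℝ) : ℂ) := integral_ofReal (𝕜 := ℂ)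
      have eo : ∫ s, ((‖Θ (s + x)‖ ^ 2 * Ur τ s : ℝ) : ℂ) * ((wr (rk k) s : ℝ) : ℂ) ∂mu = ((∫ s, ‖Θ (s + x)‖ ^ 2 * Ur τ s * wr (rk k) s ∂mu : ℝ) : ℂ) := by
        rw [← eo0]
        refine integral_congr_ae (Eventually.of_forall fun t => ?_)
        simp only
        push_cast
        ring
      rw [eo, ← Complex.ofReal_div, Complex.ofReal_re]
      rfl
    have hr := ((hadj.comp hφ.tendsto_atTop).const_mul c).sub hφK
    have hle := le_of_tendsto_of_tendsto' hl hr (fun k => by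
      have h1 := hineq (fh (x : T) 1 0 τ (φ k))
      set f := fh (x : T) 1 0 τ (φ k) with hf
      have h2 : (inner ℂ ((MΘ ∘L A) f) f).re ≤ γ / 2 * ‖f‖ ^ 2 + c * ‖ContinuousLinearMap.adjoint MΘ f‖ ^ 2 := by
        rw [ContinuousLinearMap.comp_apply, ← ContinuousLinearMap.adjoint_inner_right]
        have h3 := (Complex.re_le_norm (inner ℂ (A f) (ContinuousLinearMap.adjoint MΘ f))).trans (norm_inner_le_norm _ _)
        have h4 : ‖A f‖ ≤ ‖A‖ * ‖f‖ := A.le_opNorm f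
        have h5 : ‖A f‖ * ‖ContinuousLinearMap.adjoint MΘ f‖ ≤ ‖A‖ * ‖f‖ * ‖ContinuousLinearMap.adjoint MΘ f‖ := mul_le_mul_of_nonneg_right h4 (norm_nonneg _)
        have h6 : ‖A‖ * ‖f‖ * ‖ContinuousLinearMap.adjoint MΘ f‖ ≤ γ / 2 * ‖f‖ ^ 2 + c * ‖ContinuousLinearMap.adjoint MΘ f‖ ^ 2 := by
          rw [hc]
          have h7 : γ / 2 * ‖f‖ ^ 2 + ‖A‖ ^ 2 / (2 * γ) * ‖ContinuousLinearMap.adjoint MΘ f‖ ^ 2 - ‖A‖ * ‖f‖ * ‖ContinuousLinearMap.adjoint MΘ f‖ =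
              (γ * ‖f‖ - ‖A‖ * ‖ContinuousLinearMap.adjoint MΘ f‖) ^ 2 / (2 * γ) := by
            field_simp
            ring
          have h8 : 0 ≤ (γ * ‖f‖ - ‖A‖ * ‖ContinuousLinearMap.adjoint MΘ f‖) ^ 2 / (2 * γ) := by positivity
          linarith
        linarith
      change γ / 2 * ‖f‖ ^ 2 ≤ c * ‖ContinuousLinearMap.adjoint MΘ f‖ ^ 2 - (inner ℂ (K f) f).re
      linarith)
    rw [hτ] at hle
    simp only [norm_one, norm_zero, sub_zero] at hle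
    nlinarith
  have p1 := gen _ _ _ (half_pos hγ) key
  have p2 := gen _ _ _ (half_pos hγ) (fun U hU => by
    have := key U⁻¹ (inv_pos.2 hU)
    rw [inv_inv] at this
    have e : γ / 2 * (U + U⁻¹) = γ / 2 * (U⁻¹ + U) := by ring
    rw [e]
    exact this.trans (le_of_eq (by ring : _ = (c * ‖tm‖ ^ 2) * U + (c * ‖tp‖ ^ 2) * U⁻¹)))
  constructor
  · rintro rfl
    simp at p1
  · rintro rfl
    simp at p2

theorem nec2 (S Ma Mb MΘ : H →L[ℂ] H) (hS : IsRiesz S) (a b Θ : T → ℂ) (hMa : IsMul a Ma) (hMb : IsMul b Mb) (hMΘ : IsMul Θ MΘ)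
    (ha : PC a) (hb : PC b) (hΘ : PC Θ) (hΘ0 : ∀ t, Θ t ≠ 0) (hse : SE (MΘ ∘L (Ma + S ∘L Mb))) : Cond3 a b := by
  obtain ⟨M1, hM1, hM1'⟩ := ha.bdd
  obtain ⟨M2, hM2, hM2'⟩ := hb.bdd
  obtain ⟨M3, hM3, hM3'⟩ := hΘ.bdd
  have hinv : PC (fun t => (Θ t)⁻¹) := by
    intro x
    obtain ⟨⟨tm, htm⟩, ⟨tp, htp⟩⟩ := hΘ x
    obtain ⟨h1, h2⟩ := theta_ne S MΘ _ hS Θ hMΘ M3 hM3' x tp tm htp htm hse
    exact ⟨⟨_, htm.inv₀ h2⟩, ⟨_, htp.inv₀ h1⟩⟩
  obtain ⟨M4, hM4, hM4'⟩ := hinv.bdd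
  obtain ⟨N, hN, -⟩ := exists_mul (fun t => (Θ t)⁻¹) hinv.meas M4 (Eventually.of_forall hM4')
  have h1 : N ∘L MΘ = 1 := (hN.comp hMΘ).unique (isMul_one.congr (Eventually.of_forall fun t => by
    simp [hΘ0 t]))
  have h2 := dual2 S Ma Mb MΘ N hS.adj h1 hse
  have h3 := nec1 S _ _ N hS _ _ _ (hMa.adjoint M1 (Eventually.of_forall hM1')) (hMb.adjoint M2 (Eventually.of_forall hM2')) hN ha.conj hb.conj hinv h2
  have h4 := h3.conj
  simpa using h4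

end Pool.Agent.H8.Theta
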