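import Pool.Agent.H8.Theta.Atom

set_option autoImplicit false

open MeasureTheory Filter Topology Set
open scoped ComplexConjugate ENNReal

namespace Pool.Agent.H8.Theta

noncomputable def zz : C(T, ℂ) := fourier 1

theorem zz_pow (n : ℕ) : zz ^ n = fourier (n : ℤ) := by
  induction n with
  | zero =>
    ext x
    simp
  | succ n ih =>
    rw [pow_succ, ih]
    ext x
    rw [ContinuousMap.mul_apply, zz, ← fourier_add]
    push_cast
    rfl

noncomputable def DA : Subalgebra ℂ C(T, ℂ) := (Algebra.adjoin ℂ {zz}).topologicalClosure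

theorem DA_closed : IsClosed (DA : Set C(T, ℂ)) := Subalgebra.isClosed_topologicalClosure _

theorem zz_mem : zz ∈ DA := Subalgebra.le_topologicalClosure _ (Algebra.subset_adjoin rfl)

noncomputable def Jc (h : C(T, ℂ)) : H := ContinuousMap.toLp 2 mu ℂ h

theorem inner_Jc (n : ℤ) (h : C(T, ℂ)) : inner ℂ (ee n) (Jc h) = ∫ t, conj (fourier n t) * h t ∂mu := by
  have := ContinuousMap.inner_toLp mu (fourier n) h
  refine this.trans ?_
  refine integral_congr_ae (Eventually.of_forall fun t => ?_)
  exact mul_comm _ _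

theorem coef_DA {h : C(T, ℂ)} (hh : h ∈ DA) (n : ℤ) (hn : n < 0) : ∫ t, conj (fourier n t) * h t ∂mu = 0 := by
  rw [← inner_Jc]
  have hcl : IsClosed {h : C(T, ℂ) | inner ℂ (ee n) (Jc h) = 0} := by
    have : Continuous fun h : C(T, ℂ) => (inner ℂ (ee n) (Jc h) : ℂ) := by
      unfold Jc
      fun_prop
    exact isClosed_eq this continuous_const
  have hsub : ((Algebra.adjoin ℂ {zz} : Subalgebra ℂ C(T, ℂ)) : Set C(T, ℂ)) ⊆ {h : C(T, ℂ) | inner ℂ (ee n) (Jc h) = 0} := by
    intro g hg
    have hg' : g ∈ Submodule.span ℂ (Submonoid.closure {zz} : Set C(T, ℂ)) := by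
      rw [← Algebra.adjoin_eq_span]; exact hg
    change inner ℂ (ee n) (Jc g) = 0
    clear hg
    induction hg' using Submodule.span_induction with
    | mem x hx =>
      obtain ⟨m, rfl⟩ := Submonoid.mem_closure_singleton.1 hx
      rw [zz_pow]
      exact (orthonormal_fourier (T := (1:ℝ))).2 (by omega : n ≠ (m : ℤ))
    | zero => unfold Jc; rw [map_zero, inner_zero_right]
    | add x y hx' hy' hx hy =>
      unfold Jc at hx hy ⊢
      rw [map_add, inner_add_right, hx, hy, add_zero]
    | smul c x _ hx =>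
      unfold Jc at hx ⊢
      rw [map_smul, inner_smul_right, hx, mul_zero]
  exact hcl.closure_subset_iff.2 hsub hh

theorem exp_mem {g : C(T, ℂ)} (hg : g ∈ DA) : NormedSpace.exp g ∈ DA := by
  have h := NormedSpace.exp_series_hasSum_exp' (𝕂 := ℂ) g
  refine DA_closed.mem_of_tendsto h (Eventually.of_forall fun s => ?_)
  exact DA.sum_mem fun n _ => DA.smul_mem (DA.pow_mem hg n) _

theorem exp_apply (g : C(T, ℂ)) (t : T) : NormedSpace.exp g t = Complex.exp (g t) := by
  have h := NormedSpace.map_exp ((Pi.evalRingHom (fun _ : T => ℂ) t).comp (ContinuousMap.coeFnRingHom : C(T, ℂ) →+* (T → ℂ))) (by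
    change Continuous fun f : C(T, ℂ) => f t
    fun_prop) g
  rw [← Complex.exp_eq_exp_ℂ] at h
  exact h

/-- `log (1 - s z)` -/
noncomputable def LG (s : ℝ) : C(T, ℂ) := ∑' n : ℕ, (-((s : ℂ) ^ n / n)) • zz ^ n

theorem zz_norm (t : T) : ‖zz t‖ = 1 := by
  unfold zz
  rw [fourier_apply]
  exact Circle.norm_coe _

theorem LG_summable (s : ℝ) (h0 : 0 ≤ s) (h1 : s < 1) : Summable fun n : ℕ => (-((s : ℂ) ^ n / n)) • zz ^ n := by
  refine Summable.of_norm_bounded (g := fun n : ℕ => s ^ n) (summable_geometric_of_lt_one h0 h1) fun n => ?_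
  rw [norm_smul, norm_neg, norm_div, norm_pow, Complex.norm_real, Real.norm_eq_abs, abs_of_nonneg h0, Complex.norm_natCast]
  have hz : ‖zz ^ n‖ ≤ 1 := by
    rw [zz_pow]
    exact (fourier_norm (T := (1:ℝ)) (n : ℤ)).le
  have hs : 0 ≤ s ^ n := pow_nonneg h0 n
  rcases Nat.eq_zero_or_pos n with rfl | hn
  · simp
  · have : s ^ n / n ≤ s ^ n := div_le_self hs (by exact_mod_cast hn)
    calc s ^ n / n * ‖zz ^ n‖ ≤ s ^ n / n * 1 := mul_le_mul_of_nonneg_left hz (by positivity)
      _ ≤ _ := by rw [mul_one]; exact this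

theorem LG_mem (s : ℝ) (h0 : 0 ≤ s) (h1 : s < 1) : LG s ∈ DA := by
  refine DA_closed.mem_of_tendsto (LG_summable s h0 h1).hasSum (Eventually.of_forall fun s => ?_)
  exact DA.sum_mem fun n _ => DA.smul_mem (DA.pow_mem zz_mem n) _

theorem LG_apply (s : ℝ) (h0 : 0 ≤ s) (h1 : s < 1) (t : T) : LG s t = Complex.log (1 - s * zz t) := by
  unfold LG
  rw [← ContinuousMap.tsum_apply (LG_summable s h0 h1)]
  have hz : ‖(s : ℂ) * zz t‖ < 1 := by
    rw [norm_mul, zz_norm, mul_one, Complex.norm_real, Real.norm_eq_abs, abs_of_nonneg h0]; exact h1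
  have h := (Complex.hasSum_taylorSeries_neg_log hz).neg
  rw [neg_neg] at h
  rw [← h.tsum_eq]
  refine tsum_congr fun n => ?_
  rw [ContinuousMap.smul_apply, ContinuousMap.pow_apply, smul_eq_mul]
  ring

/-- the test functions -/
noncomputable def vv (τ r : ℝ) (t : T) : ℂ := Complex.exp (Complex.I * τ * Complex.log (1 - zz t) - (1/2) * Complex.log (1 - r * zz t))

theorem zz_ne_one {t : T} (ht : t ≠ 0) : zz t ≠ 1 := by
  intro h
  apply ht
  unfold zz at h
  rw [fourier_one] at h
  have h2 : AddCircle.toCircle t = AddCircle.toCircle (0 : T) := by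
    rw [AddCircle.toCircle_zero]
    exact Circle.ext h
  exact AddCircle.injective_toCircle one_ne_zero h2

theorem re_pos {t : T} (ht : t ≠ 0) : 0 < (1 - zz t).re := by
  have h1 := zz_norm t
  have h2 := zz_ne_one ht
  rw [Complex.sub_re, Complex.one_re]
  have h3 : (zz t).re ≤ 1 := (Complex.re_le_norm _).trans h1.le
  rcases h3.lt_or_eq with h | h
  · linarith
  · exfalso
    apply h2
    have h4 := Complex.normSq_eq_norm_sq (zz t)
    rw [h1, Complex.normSq_apply, h] at h4
    apply Complex.ext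
    · rw [h]; rfl
    · rw [Complex.one_im]; nlinarith

theorem vv_coef (τ r : ℝ) (h0 : 0 ≤ r) (h1 : r < 1) (n : ℤ) (hn : n < 0) : ∫ t, conj (fourier n t) * vv τ r t ∂mu = 0 := by
  have key : Tendsto (fun s : ℝ => ∫ t, conj (fourier n t) * Complex.exp (Complex.I * τ * Complex.log (1 - s * zz t) - (1/2) * Complex.log (1 - r * zz t)) ∂mu)
      (𝓝[<] 1) (𝓝 (∫ t, conj (fourier n t) * vv τ r t ∂mu)) := by
    refine tendsto_integral_filter_of_dominated_convergence (fun _ => Real.exp (|τ| * Real.pi + (1/2) * ‖LG r‖)) ?_ ?_ (integrable_const _) ?_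
    · have hev : ∀ᶠ s : ℝ in 𝓝[<] 1, 0 ≤ s := (Ioo_mem_nhdsLT (show (0:ℝ) < 1 by norm_num)) |> fun h => by
        filter_upwards [h] with s hs
        exact hs.1.le
      filter_upwards [hev, self_mem_nhdsWithin] with s hs hs1
      have : ∀ t, Complex.exp (Complex.I * τ * Complex.log (1 - s * zz t) - (1/2) * Complex.log (1 - r * zz t)) = Complex.exp (Complex.I * τ * LG s t - (1/2) * LG r t) := by
        intro t
        rw [LG_apply s hs hs1, LG_apply r h0 h1]
      simp only [this]
      refine Continuous.aestronglyMeasurable ?_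
      fun_prop
    · have hev : ∀ᶠ s : ℝ in 𝓝[<] 1, 0 ≤ s := by
        filter_upwards [Ioo_mem_nhdsLT (show (0:ℝ) < 1 by norm_num)] with s hs
        exact hs.1.le
      filter_upwards [hev] with s hs
      refine Eventually.of_forall fun t => ?_
      rw [norm_mul, RCLike.norm_conj, Complex.norm_exp]
      have e1 : ‖fourier n t‖ = 1 := by rw [fourier_apply]; exact Circle.norm_coe _
      rw [e1, one_mul, Real.exp_le_exp]
      rw [Complex.sub_re, ← LG_apply r h0 h1]
      have e2 : (Complex.I * τ * Complex.log (1 - s * zz t)).re = -τ * (1 - s * zz t).arg := by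
        rw [← Complex.log_im]
        simp [Complex.mul_re, Complex.mul_im]
      have e3 : ((1/2 : ℂ) * LG r t).re = (1/2) * (LG r t).re := by
        rw [show (1/2 : ℂ) = ((1/2 : ℝ) : ℂ) by push_cast; rfl, Complex.re_ofReal_mul]
      rw [e2, e3]
      have e4 : -τ * (1 - s * zz t).arg ≤ |τ| * Real.pi := by
        calc -τ * (1 - s * zz t).arg ≤ |-τ * (1 - s * zz t).arg| := le_abs_self _
          _ = |τ| * |(1 - s * zz t).arg| := by rw [abs_mul, abs_neg]
          _ ≤ _ := mul_le_mul_of_nonneg_left (Complex.abs_arg_le_pi _) (abs_nonneg _)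
      have e5 : -‖LG r‖ ≤ (LG r t).re := by
        have := (abs_le.1 ((Complex.abs_re_le_norm (LG r t)).trans ((LG r).norm_coe_le_norm t))).1
        exact this
      linarith
    · filter_upwards [ae_not_mem (finite_singleton (0 : T))] with t ht
      have ht' : t ≠ 0 := ht
      have hsl : (1 - zz t) ∈ Complex.slitPlane := Or.inl (re_pos ht')
      have hc : ContinuousAt (fun s : ℝ => Complex.log (1 - s * zz t)) 1 := by
        refine ContinuousAt.clog (by fun_prop) ?_
        simpa using hsl
      have hc2 : ContinuousAt (fun s : ℝ => conj (fourier n t) * Complex.exp (Complex.I * τ * Complex.log (1 - s * zz t) - (1/2) * Complex.log (1 - r * zz t))) 1 := by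
        fun_prop
      have h3 := hc2.tendsto
      have e : conj (fourier n t) * Complex.exp (Complex.I * τ * Complex.log (1 - ((1 : ℝ) : ℂ) * zz t) - (1/2) * Complex.log (1 - r * zz t)) = conj (fourier n t) * vv τ r t := by
        unfold vv
        rw [Complex.ofReal_one, one_mul]
      rw [← e]
      exact h3.mono_left nhdsWithin_le_nhds
  refine tendsto_nhds_unique key ?_
  refine tendsto_const_nhds.congr' ?_
  filter_upwards [Ioo_mem_nhdsLT (show (0:ℝ) < 1 by norm_num)] with s hs
  have hmem : NormedSpace.exp ((Complex.I * τ) • LG s - (1/2 : ℂ) • LG r) ∈ DA :=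
    exp_mem (DA.sub_mem (DA.smul_mem (LG_mem s hs.1.le hs.2) _) (DA.smul_mem (LG_mem r h0 h1) _))
  rw [← coef_DA hmem n hn]
  refine integral_congr_ae (Eventually.of_forall fun t => ?_)
  simp only
  rw [exp_apply, ContinuousMap.sub_apply, ContinuousMap.smul_apply, ContinuousMap.smul_apply, smul_eq_mul, smul_eq_mul, LG_apply s hs.1.le hs.2, LG_apply r h0 h1]

end Pool.Agent.H8.Theta
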