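import Pool.Agent.H8.Theta.Alg

set_option autoImplicit false

open scoped ComplexConjugate

namespace Pool.Agent.H8.Theta

theorem disc_lemma (C D ω : ℂ) (hC : 0 < C.re) (hD : 0 < D.re) (h : ‖ω - (D + conj C)‖ ^ 2 < 4 * C.re * D.re) :
    0 < ω.re ∧ 0 < (ω * C * conj D).re := by
  have H1 : ‖ω - (D + conj C)‖ ^ 2 - 4 * C.re * D.re = ‖ω‖ ^ 2 - 2 * (conj ω * D + ω * C).re + ‖C - D‖ ^ 2 := by
    rw [← Complex.normSq_eq_norm_sq, ← Complex.normSq_eq_norm_sq, ← Complex.normSq_eq_norm_sq]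
    simp only [Complex.normSq_apply, Complex.add_re, Complex.add_im, Complex.mul_re, Complex.conj_re, Complex.conj_im, Complex.sub_re, Complex.sub_im]
    ring
  have H2 : ‖ω‖ * ‖C - D‖ < (conj ω * D + ω * C).re := by
    nlinarith [sq_nonneg (‖ω‖ - ‖C - D‖)]
  have hre : 0 < ω.re := by
    by_contra hneg
    push Not at hneg
    have e : (conj ω * D + ω * C).re = ω.re * (D.re + C.re) + ω.im * (D.im - C.im) := by
      simp only [Complex.add_re, Complex.mul_re, Complex.conj_re, Complex.conj_im]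
      ring
    have h1 : ω.im * (D.im - C.im) ≤ ‖ω‖ * ‖C - D‖ := by
      calc ω.im * (D.im - C.im) ≤ |ω.im * (D.im - C.im)| := le_abs_self _
        _ = |ω.im| * |(C - D).im| := by rw [abs_mul, Complex.sub_im, abs_sub_comm]
        _ ≤ _ := mul_le_mul (Complex.abs_im_le_norm _) (Complex.abs_im_le_norm _) (abs_nonneg _) (norm_nonneg _)
    have h2 : ω.re * (D.re + C.re) ≤ 0 := mul_nonpos_of_nonpos_of_nonneg hneg (by linarith)
    linarith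
  refine ⟨hre, ?_⟩
  by_contra hneg
  push Not at hneg
  have h3 := n_sq ω C D
  have h4 : ‖ω * C + conj ω * D‖ ^ 2 ≤ (‖ω‖ * ‖C - D‖) ^ 2 := by
    rw [h3, mul_pow]
    nlinarith [mul_nonneg hre.le (neg_nonneg.2 hneg)]
  have h5 : ‖ω * C + conj ω * D‖ ≤ ‖ω‖ * ‖C - D‖ := le_of_sq_le_sq h4 (by positivity)
  have h6 : (conj ω * D + ω * C).re ≤ ‖ω * C + conj ω * D‖ := by
    rw [add_comm]; exact Complex.re_le_norm _
  linarith

theorem real_alg (C1 C2 D1 D2 γ Y : ℝ) (hγ : 0 < γ)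
    (h : ∀ U s t : ℝ, 0 < U → 0 ≤ s → 0 ≤ t → γ * (s ^ 2 + t ^ 2) * ((U + U⁻¹) / 2) ≤
      s ^ 2 * ((C1 * U + C2 * U⁻¹) / 2) + t ^ 2 * ((D1 * U⁻¹ + D2 * U) / 2) - s * t * (Y / 2)) :
    0 < C1 ∧ 0 < C2 ∧ 0 < D1 ∧ 0 < D2 ∧ Y < 2 * (Real.sqrt C1 * Real.sqrt D1) + 2 * (Real.sqrt C2 * Real.sqrt D2) := by
  have gen : ∀ A B : ℝ, (∀ U : ℝ, 0 < U → γ * (U + U⁻¹) ≤ A * U + B * U⁻¹) → 0 < A := by
    intro A B hAB
    by_contra hneg
    push Not at hneg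
    have h1 := hAB (|B| / γ + 1) (by positivity)
    have hU : 0 < |B| / γ + 1 := by positivity
    have h2 : A * (|B| / γ + 1) ≤ 0 := mul_nonpos_of_nonpos_of_nonneg hneg hU.le
    have h3 : B * (|B| / γ + 1)⁻¹ ≤ |B| := by
      calc B * (|B| / γ + 1)⁻¹ ≤ |B| * (|B| / γ + 1)⁻¹ := mul_le_mul_of_nonneg_right (le_abs_self _) (by positivity)
        _ ≤ |B| * 1 := mul_le_mul_of_nonneg_left (inv_le_one_of_one_le₀ (by have : 0 ≤ |B| / γ := by positivity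
                                                                            linarith)) (abs_nonneg _)
        _ = |B| := mul_one _
    have h4 : γ * (|B| / γ + 1) = |B| + γ := by field_simp
    have h5 : 0 < γ * (|B| / γ + 1)⁻¹ := by positivity
    nlinarith
  have hC1 : 0 < C1 := gen C1 C2 fun U hU => by
    have := h U 1 0 hU (by norm_num) le_rfl
    nlinarith
  have hC2 : 0 < C2 := gen C2 C1 fun U hU => by
    have := h U⁻¹ 1 0 (inv_pos.2 hU) (by norm_num) le_rfl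
    rw [inv_inv] at this
    nlinarith
  have hD2 : 0 < D2 := gen D2 D1 fun U hU => by
    have := h U 0 1 hU le_rfl (by norm_num)
    nlinarith
  have hD1 : 0 < D1 := gen D1 D2 fun U hU => by
    have := h U⁻¹ 0 1 (inv_pos.2 hU) le_rfl (by norm_num)
    rw [inv_inv] at this
    nlinarith
  refine ⟨hC1, hC2, hD1, hD2, ?_⟩
  obtain ⟨c1, hc1, rfl⟩ : ∃ c : ℝ, 0 < c ∧ C1 = c ^ 2 := ⟨Real.sqrt C1, Real.sqrt_pos.2 hC1, (Real.sq_sqrt hC1.le).symm⟩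
  obtain ⟨c2, hc2, rfl⟩ : ∃ c : ℝ, 0 < c ∧ C2 = c ^ 2 := ⟨Real.sqrt C2, Real.sqrt_pos.2 hC2, (Real.sq_sqrt hC2.le).symm⟩
  obtain ⟨d1, hd1, rfl⟩ : ∃ c : ℝ, 0 < c ∧ D1 = c ^ 2 := ⟨Real.sqrt D1, Real.sqrt_pos.2 hD1, (Real.sq_sqrt hD1.le).symm⟩
  obtain ⟨d2, hd2, rfl⟩ : ∃ c : ℝ, 0 < c ∧ D2 = c ^ 2 := ⟨Real.sqrt D2, Real.sqrt_pos.2 hD2, (Real.sq_sqrt hD2.le).symm⟩
  rw [Real.sqrt_sq hc1.le, Real.sqrt_sq hc2.le, Real.sqrt_sq hd1.le, Real.sqrt_sq hd2.le]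
  obtain ⟨U, hU, hU2⟩ : ∃ U : ℝ, 0 < U ∧ U ^ 2 = c2 * d1 / (c1 * d2) :=
    ⟨Real.sqrt (c2 * d1 / (c1 * d2)), Real.sqrt_pos.2 (by positivity), Real.sq_sqrt (by positivity)⟩
  set R := c1 * d1 + c2 * d2 with hR
  have hRp : 0 < R := by positivity
  set P := c1 ^ 2 * U + c2 ^ 2 * U⁻¹ with hP
  have hPp : 0 < P := by positivity
  set Q := d1 ^ 2 * U⁻¹ + d2 ^ 2 * U with hQ
  have hPQ : P * Q = R ^ 2 := by
    have e1 : P * U = c1 ^ 2 * U ^ 2 + c2 ^ 2 := by rw [hP]; field_simp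
    have e2 : Q * U = d1 ^ 2 + d2 ^ 2 * U ^ 2 := by rw [hQ]; field_simp
    have e3 : (P * Q) * U ^ 2 = R ^ 2 * U ^ 2 := by
      calc (P * Q) * U ^ 2 = (P * U) * (Q * U) := by ring
        _ = _ := by
          rw [e1, e2, hU2, hR]
          field_simp
    exact mul_right_cancel₀ (by positivity) e3
  obtain ⟨s, hs, hs2⟩ : ∃ s : ℝ, 0 < s ∧ s ^ 2 = R / P := ⟨Real.sqrt (R / P), Real.sqrt_pos.2 (by positivity), Real.sq_sqrt (by positivity)⟩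
  have h1 := h U s s⁻¹ hU hs.le (inv_pos.2 hs).le
  rw [mul_inv_cancel₀ hs.ne', one_mul, inv_pow, hs2, inv_div] at h1
  have h2 : R / P * ((c1 ^ 2 * U + c2 ^ 2 * U⁻¹) / 2) = R / 2 := by
    rw [← hP]; field_simp
  have h3 : P / R * ((d1 ^ 2 * U⁻¹ + d2 ^ 2 * U) / 2) = R / 2 := by
    rw [← hQ]
    have : P / R * (Q / 2) = (P * Q) / (2 * R) := by ring
    rw [this, hPQ]; field_simp
  rw [h2, h3] at h1
  have h4 : 0 < γ * (R / P + P / R) * ((U + U⁻¹) / 2) := by positivity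
  linarith

theorem nec_alg (C1 C2 D1 D2 : ℂ) (γ : ℝ) (hγ : 0 < γ)
    (h : ∀ (U : ℝ) (α β : ℂ), 0 < U → γ * (‖α‖ ^ 2 + ‖β‖ ^ 2) * ((U + U⁻¹) / 2) ≤
      ‖α‖ ^ 2 * ((C1.re * U + C2.re * U⁻¹) / 2) + ‖β‖ ^ 2 * ((D1.re * U⁻¹ + D2.re * U) / 2) +
        (α * β * (Complex.I / 2 * ((C1 + conj D1) - (C2 + conj D2)))).re) :
    ∃ ω : ℂ, 0 < ω.re ∧ 0 < (ω * C1 * conj D1).re ∧ 0 < (ω * C2 * conj D2).re := by
  set Y : ℂ := (C1 + conj D1) - (C2 + conj D2) with hY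
  obtain ⟨e, he1, he2⟩ : ∃ e : ℂ, ‖e‖ = 1 ∧ e * (Complex.I * Y) = -(‖Y‖ : ℂ) := by
    by_cases h0 : Y = 0
    · exact ⟨1, by simp, by rw [h0]; simp⟩
    · have hYn : (‖Y‖ : ℂ) ≠ 0 := by exact_mod_cast (norm_ne_zero_iff.2 h0)
      refine ⟨Complex.I * conj Y / ‖Y‖, ?_, ?_⟩
      · rw [norm_div, norm_mul, Complex.norm_I, RCLike.norm_conj, Complex.norm_real, norm_norm, one_mul, div_self (norm_ne_zero_iff.2 h0)]
      · have h1 : conj Y * Y = (‖Y‖ : ℂ) ^ 2 := by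
          rw [mul_comm, Complex.mul_conj, Complex.normSq_eq_norm_sq]; push_cast; rfl
        field_simp
        rw [show Complex.I ^ 2 * conj Y * Y = Complex.I ^ 2 * (conj Y * Y) by ring, h1, Complex.I_sq]
        ring
  have hr := real_alg C1.re C2.re D1.re D2.re γ ‖Y‖ hγ (by
    intro U s t hU hs ht
    have h1 := h U s (t * e) hU
    have e3 : ((s : ℂ) * (t * e) * (Complex.I / 2 * Y)).re = -(s * t * (‖Y‖ / 2)) := by
      have : (s : ℂ) * (t * e) * (Complex.I / 2 * Y) = ((-(s * t * (‖Y‖ / 2)) : ℝ) : ℂ) := by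
        have h2 : (s : ℂ) * (t * e) * (Complex.I / 2 * Y) = s * t / 2 * (e * (Complex.I * Y)) := by ring
        rw [h2, he2]
        push_cast
        ring
      rw [this, Complex.ofReal_re]
    rw [e3, norm_mul, Complex.norm_real, Complex.norm_real, he1, mul_one, Real.norm_eq_abs, Real.norm_eq_abs, sq_abs, sq_abs] at h1
    linarith)
  obtain ⟨hC1, hC2, hD1, hD2, hYlt⟩ := hr
  set ρ1 := 2 * (Real.sqrt C1.re * Real.sqrt D1.re) with hρ1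
  set ρ2 := 2 * (Real.sqrt C2.re * Real.sqrt D2.re) with hρ2
  have p1 : 0 < ρ1 := by have := Real.sqrt_pos.2 hC1; have := Real.sqrt_pos.2 hD1; positivity
  have p2 : 0 < ρ2 := by have := Real.sqrt_pos.2 hC2; have := Real.sqrt_pos.2 hD2; positivity
  have q1 : ρ1 ^ 2 = 4 * C1.re * D1.re := by
    rw [hρ1, mul_pow, mul_pow, Real.sq_sqrt hC1.le, Real.sq_sqrt hD1.le]; ring
  have q2 : ρ2 ^ 2 = 4 * C2.re * D2.re := by
    rw [hρ2, mul_pow, mul_pow, Real.sq_sqrt hC2.le, Real.sq_sqrt hD2.le]; ring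
  set X1 := D1 + conj C1 with hX1
  set X2 := D2 + conj C2 with hX2
  have hXY : ‖X2 - X1‖ = ‖Y‖ := by
    rw [← RCLike.norm_conj, ← norm_neg]
    congr 1
    rw [hX1, hX2, hY]
    simp only [map_sub, map_add, Complex.conj_conj]
    ring
  set ω := X1 + ((ρ1 / (ρ1 + ρ2) : ℝ) : ℂ) * (X2 - X1) with hω
  have w1 : ‖ω - X1‖ < ρ1 := by
    rw [hω, add_sub_cancel_left, norm_mul, hXY, Complex.norm_real, Real.norm_eq_abs, abs_of_pos (by positivity), div_mul_eq_mul_div, div_lt_iff₀ (by positivity)]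
    exact mul_lt_mul_of_pos_left hYlt p1
  have w2 : ‖ω - X2‖ < ρ2 := by
    have : ω - X2 = -(((ρ2 / (ρ1 + ρ2) : ℝ) : ℂ) * (X2 - X1)) := by
      have h12 : ((ρ1 / (ρ1 + ρ2) : ℝ) : ℂ) + ((ρ2 / (ρ1 + ρ2) : ℝ) : ℂ) = 1 := by
        rw [← Complex.ofReal_add, ← add_div, div_self (by positivity), Complex.ofReal_one]
      rw [hω]
      linear_combination (X2 - X1) * h12
    rw [this, norm_neg, norm_mul, hXY, Complex.norm_real, Real.norm_eq_abs, abs_of_pos (by positivity), div_mul_eq_mul_div, div_lt_iff₀ (by positivity)]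
    exact mul_lt_mul_of_pos_left hYlt p2
  have r1 := disc_lemma C1 D1 ω hC1 hD1 (by rw [← q1]; exact pow_lt_pow_left₀ w1 (norm_nonneg _) two_ne_zero)
  have r2 := disc_lemma C2 D2 ω hC2 hD2 (by rw [← q2]; exact pow_lt_pow_left₀ w2 (norm_nonneg _) two_ne_zero)
  exact ⟨ω, r1.1, r1.2, r2.2⟩

theorem cond_alg (ω cp cm dp dm : ℂ) (h0 : 0 < ω.re) (h1 : 0 < (ω * cp * conj dp).re) (h2 : 0 < (ω * cm * conj dm).re)
    (μ ν : ℝ) (hμ : 0 ≤ μ) (hμ' : μ ≤ 1) (hν : 0 ≤ ν) (hν' : ν ≤ 1) :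
    (cp * dm * (μ : ℂ) + cm * dp * (1 - (μ : ℂ))) * (ν : ℂ) + dp * dm * (1 - (ν : ℂ)) ≠ 0 := by
  intro hE
  have hdp : dp ≠ 0 := by rintro rfl; simp at h1
  have hdm : dm ≠ 0 := by rintro rfl; simp at h2
  have e : ω * conj dp * conj dm * ((cp * dm * (μ : ℂ) + cm * dp * (1 - (μ : ℂ))) * (ν : ℂ) + dp * dm * (1 - (ν : ℂ))) =
      ((μ * ν * ‖dm‖ ^ 2 : ℝ) : ℂ) * (ω * cp * conj dp) + (((1 - μ) * ν * ‖dp‖ ^ 2 : ℝ) : ℂ) * (ω * cm * conj dm) + (((1 - ν) * (‖dp‖ ^ 2 * ‖dm‖ ^ 2) : ℝ) : ℂ) * ω := by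
    push_cast
    have e1 : ((‖dp‖ : ℝ) : ℂ) ^ 2 = dp * conj dp := by rw [Complex.mul_conj, Complex.normSq_eq_norm_sq]; push_cast; rfl
    have e2 : ((‖dm‖ : ℝ) : ℂ) ^ 2 = dm * conj dm := by rw [Complex.mul_conj, Complex.normSq_eq_norm_sq]; push_cast; rfl
    rw [e1, e2]
    ring
  rw [hE, mul_zero] at e
  have h := congrArg Complex.re e
  rw [Complex.add_re, Complex.add_re, Complex.re_ofReal_mul, Complex.re_ofReal_mul, Complex.re_ofReal_mul, Complex.zero_re] at h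
  have pdp : 0 < ‖dp‖ ^ 2 := by positivity
  have pdm : 0 < ‖dm‖ ^ 2 := by positivity
  have t1 : 0 ≤ μ * ν * ‖dm‖ ^ 2 * (ω * cp * conj dp).re := by positivity
  have t2 : 0 ≤ (1 - μ) * ν * ‖dp‖ ^ 2 * (ω * cm * conj dm).re := mul_nonneg (mul_nonneg (mul_nonneg (by linarith) hν) pdp.le) h2.le
  have t3 : 0 ≤ (1 - ν) * (‖dp‖ ^ 2 * ‖dm‖ ^ 2) * ω.re := mul_nonneg (mul_nonneg (by linarith) (by positivity)) h0.le
  have u1 : μ * ν * ‖dm‖ ^ 2 * (ω * cp * conj dp).re = 0 := by linarith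
  have u2 : (1 - μ) * ν * ‖dp‖ ^ 2 * (ω * cm * conj dm).re = 0 := by linarith
  have u3 : (1 - ν) * (‖dp‖ ^ 2 * ‖dm‖ ^ 2) * ω.re = 0 := by linarith
  have v3 : 1 - ν = 0 := by
    rcases mul_eq_zero.1 u3 with h | h
    · rcases mul_eq_zero.1 h with h | h
      · exact h
      · exact absurd h (by positivity)
    · exact absurd h h0.ne'
  have hν1 : ν = 1 := by linarith
  rw [hν1] at u1 u2
  have v1 : μ = 0 := by
    rcases mul_eq_zero.1 u1 with h | h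
    · rcases mul_eq_zero.1 h with h | h
      · linarith
      · exact absurd h pdm.ne'
    · exact absurd h h1.ne'
  rw [v1] at u2
  rcases mul_eq_zero.1 u2 with h | h
  · rcases mul_eq_zero.1 h with h | h
    · norm_num at h
    · exact absurd h pdp.ne'
  · exact absurd h h2.ne'

end Pool.Agent.H8.Theta
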