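import Pool.Agent.H8.Theta.Avg3
import Pool.Agent.H8.Theta.NecAlg

set_option autoImplicit false

open MeasureTheory Filter Topology Set
open scoped ComplexConjugate ENNReal

namespace Pool.Agent.H8.Theta

noncomputable def Ur (τ : ℝ) (t : T) : ℝ := Real.exp (-2 * τ * (1 - zz t).arg)

theorem Ur_meas (τ : ℝ) : Measurable (Ur τ) := by
  unfold Ur
  have : Measurable fun t : T => (1 - zz t).arg := Complex.measurable_arg.comp (measurable_const.sub zz.continuous.measurable)
  exact Real.measurable_exp.comp (this.const_mul (-2 * τ))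

theorem Ur_bd (τ : ℝ) (t : T) : ‖Ur τ t‖ ≤ Real.exp (2 * |τ| * Real.pi) := by
  unfold Ur
  rw [Real.norm_eq_abs, Real.abs_exp, Real.exp_le_exp]
  calc -2 * τ * (1 - zz t).arg ≤ |-2 * τ * (1 - zz t).arg| := le_abs_self _
    _ = 2 * |τ| * |(1 - zz t).arg| := by rw [abs_mul, abs_mul]; norm_num
    _ ≤ _ := mul_le_mul_of_nonneg_left (Complex.abs_arg_le_pi _) (by positivity)

theorem arg_right {s : ℝ} (h0 : 0 < s) (h1 : s < 1) : (1 - zz (s : T)).arg = Real.pi * s - Real.pi / 2 := by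
  have hpi := Real.pi_pos
  have hsin : 0 < 2 * Real.sin (Real.pi * s) := by
    have := Real.sin_pos_of_pos_of_lt_pi (mul_pos hpi h0) (by nlinarith)
    linarith
  have e : (1 - zz (s : T)) = ((2 * Real.sin (Real.pi * s) : ℝ) : ℂ) * (Complex.cos ((Real.pi * s - Real.pi / 2 : ℝ)) + Complex.sin ((Real.pi * s - Real.pi / 2 : ℝ)) * Complex.I) := by
    rw [zz_coe, mul_comm Complex.I, ← Complex.ofReal_cos, ← Complex.ofReal_sin, Real.cos_sub_pi_div_two, Real.sin_sub_pi_div_two]
    apply Complex.ext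
    · rw [Complex.sub_re, Complex.one_re, Complex.exp_ofReal_mul_I_re, Complex.re_ofReal_mul]
      simp only [Complex.add_re, Complex.ofReal_re, Complex.mul_re, Complex.I_re, Complex.I_im, Complex.ofReal_im]
      rw [show 2 * Real.pi * s = 2 * (Real.pi * s) by ring, Real.cos_two_mul, Real.cos_sq']
      ring
    · rw [Complex.sub_im, Complex.one_im, Complex.exp_ofReal_mul_I_im, Complex.im_ofReal_mul]
      simp only [Complex.add_im, Complex.ofReal_im, Complex.mul_im, Complex.I_re, Complex.I_im, Complex.ofReal_re]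
      rw [show 2 * Real.pi * s = 2 * (Real.pi * s) by ring, Real.sin_two_mul]
      ring
  rw [e, Complex.arg_mul_cos_add_sin_mul_I hsin]
  constructor <;> nlinarith

theorem arg_left {s : ℝ} (h0 : s < 0) (h1 : -1 < s) : (1 - zz (s : T)).arg = Real.pi * s + Real.pi / 2 := by
  have hpi := Real.pi_pos
  have hsin : 0 < 2 * Real.sin (-(Real.pi * s)) := by
    have := Real.sin_pos_of_pos_of_lt_pi (x := -(Real.pi * s)) (by nlinarith) (by nlinarith)
    linarith
  have e : (1 - zz (s : T)) = ((2 * Real.sin (-(Real.pi * s)) : ℝ) : ℂ) * (Complex.cos ((Real.pi * s + Real.pi / 2 : ℝ)) + Complex.sin ((Real.pi * s + Real.pi / 2 : ℝ)) * Complex.I) := by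
    rw [zz_coe, mul_comm Complex.I, ← Complex.ofReal_cos, ← Complex.ofReal_sin, Real.cos_add_pi_div_two, Real.sin_add_pi_div_two, Real.sin_neg]
    apply Complex.ext
    · rw [Complex.sub_re, Complex.one_re, Complex.exp_ofReal_mul_I_re, Complex.re_ofReal_mul]
      simp only [Complex.add_re, Complex.ofReal_re, Complex.mul_re, Complex.I_re, Complex.I_im, Complex.ofReal_im]
      rw [show 2 * Real.pi * s = 2 * (Real.pi * s) by ring, Real.cos_two_mul, Real.cos_sq']
      ring
    · rw [Complex.sub_im, Complex.one_im, Complex.exp_ofReal_mul_I_im, Complex.im_ofReal_mul]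
      simp only [Complex.add_im, Complex.ofReal_im, Complex.mul_im, Complex.I_re, Complex.I_im, Complex.ofReal_re]
      rw [show 2 * Real.pi * s = 2 * (Real.pi * s) by ring, Real.sin_two_mul]
      ring
  rw [e, Complex.arg_mul_cos_add_sin_mul_I hsin]
  constructor <;> nlinarith

theorem Ur_right (τ : ℝ) : Tendsto (fun s : ℝ => Ur τ (s : T)) (𝓝[>] 0) (𝓝 (Real.exp (Real.pi * τ))) := by
  have hc : Continuous fun s : ℝ => Real.exp (-2 * τ * (Real.pi * s - Real.pi / 2)) := by fun_prop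
  have h := hc.tendsto 0
  have e : Real.exp (-2 * τ * (Real.pi * 0 - Real.pi / 2)) = Real.exp (Real.pi * τ) := by congr 1; ring
  rw [e] at h
  refine (h.mono_left nhdsWithin_le_nhds).congr' ?_
  filter_upwards [Ioo_mem_nhdsGT (show (0:ℝ) < 1 by norm_num)] with s hs
  unfold Ur
  rw [arg_right hs.1 hs.2]

theorem Ur_left (τ : ℝ) : Tendsto (fun s : ℝ => Ur τ (s : T)) (𝓝[<] 0) (𝓝 (Real.exp (Real.pi * τ))⁻¹) := by
  have hc : Continuous fun s : ℝ => Real.exp (-2 * τ * (Real.pi * s + Real.pi / 2)) := by fun_prop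
  have h := hc.tendsto 0
  have e : Real.exp (-2 * τ * (Real.pi * 0 + Real.pi / 2)) = (Real.exp (Real.pi * τ))⁻¹ := by rw [← Real.exp_neg]; congr 1; ring
  rw [e] at h
  refine (h.mono_left nhdsWithin_le_nhds).congr' ?_
  filter_upwards [Ioo_mem_nhdsLT (show (-1:ℝ) < 0 by norm_num)] with s hs
  unfold Ur
  rw [arg_left hs.2 hs.1]

theorem vv_norm_sq (τ r : ℝ) (h0 : 0 ≤ r) (h1 : r < 1) (t : T) : ‖vv τ r t‖ ^ 2 = Ur τ t * wr r t := by
  unfold vv Ur wr
  rw [Complex.norm_exp, ← Real.exp_nat_mul]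
  have hpos : 0 < ‖1 - (r : ℂ) * zz t‖ := norm_pos_iff.2 (den_ne r h0 h1 t)
  have e3 : ‖1 - (r : ℂ) * zz t‖⁻¹ = Real.exp (-Real.log ‖1 - (r : ℂ) * zz t‖) := by
    rw [Real.exp_neg, Real.exp_log hpos]
  rw [e3, ← Real.exp_add]
  congr 1
  have e1 : (Complex.I * τ * Complex.log (1 - zz t)).re = -τ * (1 - zz t).arg := by
    rw [← Complex.log_im]
    simp [Complex.mul_re, Complex.mul_im]
  have e2 : ((1/2 : ℂ) * Complex.log (1 - r * zz t)).re = (1/2) * Real.log ‖1 - (r : ℂ) * zz t‖ := by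
    rw [show (1/2 : ℂ) = ((1/2 : ℝ) : ℂ) by push_cast; rfl, Complex.re_ofReal_mul, Complex.log_re]
  rw [Complex.sub_re, e1, e2]
  push_cast
  ring

theorem vv_mul (τ r : ℝ) (h0 : 0 ≤ r) (h1 : r < 1) (t : T) : vv τ r t * vv (-τ) r t = (1 - (r : ℂ) * zz t)⁻¹ := by
  unfold vv
  rw [← Complex.exp_add]
  have : Complex.I * τ * Complex.log (1 - zz t) - (1/2) * Complex.log (1 - r * zz t) + (Complex.I * ((-τ : ℝ) : ℂ) * Complex.log (1 - zz t) - (1/2) * Complex.log (1 - r * zz t)) = -Complex.log (1 - r * zz t) := by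
    push_cast; ring
  rw [this, Complex.exp_neg, Complex.exp_log (den_ne r h0 h1 t)]

theorem vv_meas (τ r : ℝ) : Measurable (vv τ r) := by
  unfold vv
  have h1 : Measurable fun t : T => Complex.log (1 - zz t) := Complex.measurable_log.comp (measurable_const.sub zz.continuous.measurable)
  have h2 : Measurable fun t : T => Complex.log (1 - (r : ℂ) * zz t) := Complex.measurable_log.comp (measurable_const.sub (zz.continuous.measurable.const_mul _))
  exact Complex.measurable_exp.comp ((h1.const_mul _).sub (h2.const_mul _))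

theorem wr_le (r : ℝ) (h0 : 0 ≤ r) (h1 : r < 1) (t : T) : wr r t ≤ (1 - r)⁻¹ := by
  unfold wr
  exact inv_anti₀ (sub_pos.2 h1) (den_lower r h0 t)

theorem vv_bd (τ r : ℝ) (h0 : 0 ≤ r) (h1 : r < 1) : ∃ C : ℝ, ∀ t, ‖vv τ r t‖ ≤ C := by
  refine ⟨Real.sqrt (Real.exp (2 * |τ| * Real.pi) * (1 - r)⁻¹), fun t => ?_⟩
  apply Real.le_sqrt_of_sq_le
  rw [vv_norm_sq τ r h0 h1 t]
  have h2 : Ur τ t ≤ Real.exp (2 * |τ| * Real.pi) := (le_abs_self (Ur τ t)).trans (Ur_bd τ t)
  exact mul_le_mul h2 (wr_le r h0 h1 t) (wr_pos r h0 h1 t).le (Real.exp_pos _).le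

theorem sub_int {E : Type} [NormedAddCommGroup E] [NormedSpace ℝ E] (f : T → E) (x : T) : ∫ t, f (t - x) ∂mu = ∫ t, f t ∂mu := integral_sub_right_eq_self f x

theorem S_fix {S : H →L[ℂ] H} (hS : IsRiesz S) (f : H) (h : ∀ n : ℤ, n < 0 → inner ℂ (ee n) f = 0) : S f = f := by
  rw [← sub_eq_zero]
  refine zero_of_inner fun n => ?_
  rw [inner_sub_right, ← hS.adj, ContinuousLinearMap.adjoint_inner_right, hS n, inner_smul_left, sg_conj]
  by_cases hn : 0 ≤ n
  · unfold sg; rw [if_pos hn]; ring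
  · rw [h n (by omega)]; simp

theorem S_antifix {S : H →L[ℂ] H} (hS : IsRiesz S) (f : H) (h : ∀ n : ℤ, 0 ≤ n → inner ℂ (ee n) f = 0) : S f = -f := by
  rw [← sub_eq_zero, sub_neg_eq_add]
  refine zero_of_inner fun n => ?_
  rw [inner_add_right, ← hS.adj, ContinuousLinearMap.adjoint_inner_right, hS n, inner_smul_left, sg_conj]
  by_cases hn : 0 ≤ n
  · rw [h n hn]; simp
  · unfold sg; rw [if_neg hn]; ring

section tf
variable (x : T) (α β : ℂ) (τ r : ℝ) (h0 : 0 ≤ r) (h1 : r < 1)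

noncomputable def pf (t : T) : ℂ := α * vv τ r (t - x)
noncomputable def qf (t : T) : ℂ := conj (β * (zz (t - x) * vv (-τ) r (t - x)))

theorem pf_meas : Measurable (pf x α τ r) := by
  unfold pf
  exact ((vv_meas τ r).comp (measurable_id.sub_const x)).const_mul α

theorem qf_meas : Measurable (qf x β τ r) := by
  unfold qf
  exact Complex.continuous_conj.measurable.comp (((zz.continuous.measurable.comp (measurable_id.sub_const x)).mul ((vv_meas (-τ) r).comp (measurable_id.sub_const x))).const_mul β)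

include h0 h1

theorem pf_memLp : MemLp (pf x α τ r) 2 mu := by
  obtain ⟨C, hC⟩ := vv_bd τ r h0 h1
  refine MemLp.of_bound (pf_meas x α τ r).aestronglyMeasurable (‖α‖ * C) (Eventually.of_forall fun t => ?_)
  unfold pf
  rw [norm_mul]
  exact mul_le_mul_of_nonneg_left (hC _) (norm_nonneg _)

theorem qf_memLp : MemLp (qf x β τ r) 2 mu := by
  obtain ⟨C, hC⟩ := vv_bd (-τ) r h0 h1
  refine MemLp.of_bound (qf_meas x β τ r).aestronglyMeasurable (‖β‖ * C) (Eventually.of_forall fun t => ?_)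
  unfold qf
  rw [RCLike.norm_conj, norm_mul, norm_mul, zz_norm, one_mul]
  exact mul_le_mul_of_nonneg_left (hC _) (norm_nonneg _)

noncomputable def pH : H := (pf_memLp x α τ r h0 h1).toLp
noncomputable def qH : H := (qf_memLp x β τ r h0 h1).toLp

theorem pH_coe : (pH x α τ r h0 h1 : T → ℂ) =ᵐ[mu] pf x α τ r := MemLp.coeFn_toLp _
theorem qH_coe : (qH x β τ r h0 h1 : T → ℂ) =ᵐ[mu] qf x β τ r := MemLp.coeFn_toLp _

theorem inner_ee_pH (n : ℤ) (hn : n < 0) : inner ℂ (ee n) (pH x α τ r h0 h1) = 0 := by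
  rw [L2.inner_def]
  have e : ∫ t, inner ℂ (ee n t) (pH x α τ r h0 h1 t) ∂mu = ∫ t, (α * conj (fourier n x)) * (conj (fourier n (t - x)) * vv τ r (t - x)) ∂mu := by
    refine integral_congr_ae ?_
    filter_upwards [ee_coe n, pH_coe x α τ r h0 h1] with t h2 h3
    rw [h2, h3]
    simp only [RCLike.inner_apply]
    unfold pf
    have : fourier n t = fourier n x * fourier n (t - x) := by
      rw [fourier_apply, fourier_apply, fourier_apply, ← Circle.coe_mul, ← AddCircle.toCircle_add, ← zsmul_add]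
      congr 3
      abel
    rw [this, map_mul]
    ring
  rw [e, sub_int (fun t => (α * conj (fourier n x)) * (conj (fourier n t) * vv τ r t)) x, integral_const_mul, vv_coef τ r h0 h1 n hn, mul_zero]

theorem inner_ee_qH (n : ℤ) (hn : 0 ≤ n) : inner ℂ (ee n) (qH x β τ r h0 h1) = 0 := by
  rw [L2.inner_def]
  have e : ∫ t, inner ℂ (ee n t) (qH x β τ r h0 h1 t) ∂mu = ∫ t, conj ((β * fourier n x) * (conj (fourier (-n - 1) (t - x)) * vv (-τ) r (t - x))) ∂mu := by
    refine integral_congr_ae ?_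
    filter_upwards [ee_coe n, qH_coe x β τ r h0 h1] with t h2 h3
    rw [h2, h3]
    simp only [RCLike.inner_apply]
    unfold qf
    have e1 : fourier n t = fourier n x * fourier n (t - x) := by
      rw [fourier_apply, fourier_apply, fourier_apply, ← Circle.coe_mul, ← AddCircle.toCircle_add, ← zsmul_add]
      congr 3
      abel
    have e2 : conj (fourier (-n - 1) (t - x)) = fourier n (t - x) * zz (t - x) := by
      rw [← fourier_neg, show -(-n - 1) = n + 1 by ring, fourier_add]; rfl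
    rw [e1, e2]
    simp only [map_mul]
    ring
  rw [e, integral_conj, sub_int (fun t => (β * fourier n x) * (conj (fourier (-n - 1) t) * vv (-τ) r t)) x, integral_const_mul, vv_coef (-τ) r h0 h1 (-n - 1) (by omega), mul_zero, map_zero]

theorem S_pH {S : H →L[ℂ] H} (hS : IsRiesz S) : S (pH x α τ r h0 h1) = pH x α τ r h0 h1 := S_fix hS _ (inner_ee_pH x α τ r h0 h1)
theorem S_qH {S : H →L[ℂ] H} (hS : IsRiesz S) : S (qH x β τ r h0 h1) = -qH x β τ r h0 h1 := S_antifix hS _ (inner_ee_qH x β τ r h0 h1)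

end tf

end Pool.Agent.H8.Theta
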