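import Pool.Agent.H8.Theta.Nec1

set_option autoImplicit false

open MeasureTheory Filter Topology Set
open scoped ComplexConjugate ENNReal

namespace Pool.Agent.H8.Theta

theorem closed_t (F : ℕ → H → ℂ) (C : ℝ) (hC : ∀ t x y, ‖F t x - F t y‖ ≤ C * ‖x - y‖) : IsClosed {x : H | Tendsto (fun t => F t x) atTop (𝓝 0)} := by
  rw [← isSeqClosed_iff_isClosed]
  intro u x hu hx
  change Tendsto (fun t => F t x) atTop (𝓝 0)
  rw [Metric.tendsto_nhds]
  intro ε hε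
  have hx1 : Tendsto (fun n => C * ‖x - u n‖) atTop (𝓝 (C * ‖x - x‖)) := (tendsto_const_nhds.sub hx).norm.const_mul C
  rw [sub_self, norm_zero, mul_zero] at hx1
  obtain ⟨n, hn⟩ := (hx1.eventually (gt_mem_nhds (half_pos hε))).exists
  have hun : Tendsto (fun t => F t (u n)) atTop (𝓝 0) := hu n
  have h1 := (Metric.tendsto_nhds.1 hun) (ε / 2) (half_pos hε)
  filter_upwards [h1] with t ht
  rw [dist_zero_right] at ht ⊢
  calc ‖F t x‖ = ‖(F t x - F t (u n)) + F t (u n)‖ := by rw [sub_add_cancel]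
    _ ≤ ‖F t x - F t (u n)‖ + ‖F t (u n)‖ := norm_add_le _ _
    _ < ε / 2 + ε / 2 := add_lt_add_of_le_of_lt ((hC t x (u n)).trans hn.le) ht
    _ = ε := by ring

theorem compact_sub (K : H →L[ℂ] H) (hK : IsCompactOperator K) (N : H →L[ℂ] H) (hN : DenseRange N) (f : ℕ → H) (C : ℝ) (hC : ∀ k, ‖f k‖ ≤ C)
    (h : Tendsto (fun k => ‖ContinuousLinearMap.adjoint N (f k)‖) atTop (𝓝 0)) :
    ∃ φ : ℕ → ℕ, StrictMono φ ∧ Tendsto (fun k => (inner ℂ (K (f (φ k))) (f (φ k)) : ℂ)) atTop (𝓝 0) := by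
  obtain ⟨Kc, hKc, hsub⟩ := IsCompactOperator.image_closedBall_subset_compact (f := (K : H →ₗ[ℂ] H)) hK C
  have hmem : ∀ k, K (f k) ∈ Kc := fun k => hsub ⟨f k, by rw [mem_closedBall_zero_iff]; exact hC k, rfl⟩
  obtain ⟨y, -, φ, hφ, hy⟩ := hKc.tendsto_subseq hmem
  refine ⟨φ, hφ, ?_⟩
  have hcl := closed_t (fun k y => inner ℂ y (f k)) C (fun k x y => by
    rw [← inner_sub_left, mul_comm]
    exact (norm_inner_le_norm _ _).trans (mul_le_mul_of_nonneg_left (hC k) (norm_nonneg _)))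
  have hran : range N ⊆ {y : H | Tendsto (fun k => (inner ℂ y (f k) : ℂ)) atTop (𝓝 0)} := by
    rintro _ ⟨g, rfl⟩
    change Tendsto (fun k => (inner ℂ (N g) (f k) : ℂ)) atTop (𝓝 0)
    rw [tendsto_zero_iff_norm_tendsto_zero]
    have h2 := h.const_mul ‖g‖
    rw [mul_zero] at h2
    refine squeeze_zero (fun _ => norm_nonneg _) (fun k => ?_) h2
    rw [← ContinuousLinearMap.adjoint_inner_right]
    exact norm_inner_le_norm _ _
  have hyw : Tendsto (fun k => (inner ℂ y (f k) : ℂ)) atTop (𝓝 0) := hcl.closure_subset_iff.2 hran (hN y)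
  have h1 : Tendsto (fun k => (inner ℂ (K (f (φ k)) - y) (f (φ k)) : ℂ)) atTop (𝓝 0) := by
    rw [tendsto_zero_iff_norm_tendsto_zero]
    have h3 : Tendsto (fun k => ‖K (f (φ k)) - y‖ * C) atTop (𝓝 (‖y - y‖ * C)) := ((hy.sub tendsto_const_nhds).norm).mul_const C
    rw [sub_self, norm_zero, zero_mul] at h3
    exact squeeze_zero (fun _ => norm_nonneg _) (fun k => (norm_inner_le_norm _ _).trans (mul_le_mul_of_nonneg_left (hC _) (norm_nonneg _))) h3
  have h4 := h1.add (hyw.comp hφ.tendsto_atTop)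
  rw [add_zero] at h4
  refine h4.congr fun k => ?_
  simp only [Function.comp]
  rw [inner_sub_left, sub_add_cancel]

theorem SE_ineq {B : H →L[ℂ] H} (h : SE B) : ∃ γ > 0, ∃ K : H →L[ℂ] H, IsCompactOperator K ∧ ∀ f : H, γ * ‖f‖ ^ 2 ≤ (inner ℂ (B f) f).re - (inner ℂ (K f) f).re := by
  obtain ⟨D, K, hD, hK, ⟨γ, hγ, hp⟩, he⟩ := h
  refine ⟨γ, hγ, K, hK, fun f => ?_⟩
  have h1 := congrArg (fun A : H →L[ℂ] H => (inner ℂ (A f) f).re) he
  have e : (inner ℂ (((1/2 : ℂ) • (B + ContinuousLinearMap.adjoint B)) f) f).re = (inner ℂ (B f) f).re := by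
    rw [smul_apply, add_apply, inner_smul_left, inner_add_left, map_div₀, map_one, Complex.conj_ofNat]
    have := re_adj B f
    have h3 : ((1 / 2 : ℂ) * (inner ℂ (B f) f + inner ℂ ((ContinuousLinearMap.adjoint B) f) f)).re = (1/2) * ((inner ℂ (B f) f).re + (inner ℂ ((ContinuousLinearMap.adjoint B) f) f).re) := by
      rw [show (1/2 : ℂ) = ((1/2 : ℝ) : ℂ) by push_cast; rfl, Complex.re_ofReal_mul, Complex.add_re]
    rw [h3, this]; ring
  rw [e, add_apply, inner_add_left, Complex.add_re] at h1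
  have := hp f
  linarith

theorem shift_right (x : ℝ) (W : T → ℂ) (l : ℂ) (h : Tendsto (fun s : ℝ => W (s : T)) (𝓝[>] x) (𝓝 l)) :
    Tendsto (fun s : ℝ => W ((s : T) + (x : T))) (𝓝[>] 0) (𝓝 l) := by
  have h1 : Tendsto (fun s : ℝ => s + x) (𝓝[>] 0) (𝓝[>] x) := by
    rw [tendsto_nhdsWithin_iff]
    refine ⟨?_, ?_⟩
    · have : Tendsto (fun s : ℝ => s + x) (𝓝 0) (𝓝 (0 + x)) := (continuous_id.add continuous_const).tendsto 0
      rw [zero_add] at this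
      exact this.mono_left nhdsWithin_le_nhds
    · filter_upwards [self_mem_nhdsWithin] with s hs
      have : 0 < s := hs
      exact mem_Ioi.2 (by linarith)
  refine (h.comp h1).congr fun s => ?_
  simp only [Function.comp, AddCircle.coe_add]

theorem shift_left (x : ℝ) (W : T → ℂ) (l : ℂ) (h : Tendsto (fun s : ℝ => W (s : T)) (𝓝[<] x) (𝓝 l)) :
    Tendsto (fun s : ℝ => W ((s : T) + (x : T))) (𝓝[<] 0) (𝓝 l) := by
  have h1 : Tendsto (fun s : ℝ => s + x) (𝓝[<] 0) (𝓝[<] x) := by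
    rw [tendsto_nhdsWithin_iff]
    refine ⟨?_, ?_⟩
    · have : Tendsto (fun s : ℝ => s + x) (𝓝 0) (𝓝 (0 + x)) := (continuous_id.add continuous_const).tendsto 0
      rw [zero_add] at this
      exact this.mono_left nhdsWithin_le_nhds
    · filter_upwards [self_mem_nhdsWithin] with s hs
      have : s < 0 := hs
      exact mem_Iio.2 (by linarith)
  refine (h.comp h1).congr fun s => ?_
  simp only [Function.comp, AddCircle.coe_add]

theorem Ur_avg (τ : ℝ) : Tendsto (fun r : ℝ => (∫ t, Ur τ t * wr r t ∂mu) / LL r) (𝓝[<] 1) (𝓝 ((Real.exp (Real.pi * τ) + (Real.exp (Real.pi * τ))⁻¹) / 2)) := by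
  have h := avg1 (fun t => (Ur τ t : ℂ)) (Complex.measurable_ofReal.comp (Ur_meas τ)).aestronglyMeasurable _ (fun t => by rw [Complex.norm_real]; exact Ur_bd τ t)
    ((Real.exp (Real.pi * τ) : ℝ) : ℂ) (((Real.exp (Real.pi * τ))⁻¹ : ℝ) : ℂ)
    ((Complex.continuous_ofReal.tendsto _).comp (Ur_right τ)) ((Complex.continuous_ofReal.tendsto _).comp (Ur_left τ))
  have h2 := (Complex.continuous_re.tendsto _).comp h
  have e : (((Real.exp (Real.pi * τ) : ℝ) : ℂ) + (((Real.exp (Real.pi * τ))⁻¹ : ℝ) : ℂ)) / 2 = (((Real.exp (Real.pi * τ) + (Real.exp (Real.pi * τ))⁻¹) / 2 : ℝ) : ℂ) := by push_cast; ring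
  rw [e, Complex.ofReal_re] at h2
  refine h2.congr fun r => ?_
  have eo : ∫ t, (Ur τ t : ℂ) * (wr r t : ℂ) ∂mu = ((∫ t, Ur τ t * wr r t ∂mu : ℝ) : ℂ) := by
    have eo0 : ∫ t, ((Ur τ t * wr r t : ℝ) : ℂ) ∂mu = ((∫ t, Ur τ t * wr r t ∂mu : ℝ) : ℂ) := integral_ofReal (𝕜 := ℂ)
    rw [← eo0]
    refine integral_congr_ae (Eventually.of_forall fun t => ?_)
    simp
  simp only [Function.comp]
  rw [eo, ← Complex.ofReal_div, Complex.ofReal_re]

section tf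
variable (x : T) (α β : ℂ) (τ r : ℝ) (h0 : 0 ≤ r) (h1 : r < 1)

theorem norm_pH : ‖pH x α τ r h0 h1‖ ^ 2 = ‖α‖ ^ 2 * ∫ t, Ur τ t * wr r t ∂mu := by
  rw [norm_sq_eq, ← integral_const_mul, ← sub_int (fun t => ‖α‖ ^ 2 * (Ur τ t * wr r t)) x]
  refine integral_congr_ae ?_
  filter_upwards [pH_coe x α τ r h0 h1] with t ht
  rw [ht]
  unfold pf
  rw [norm_mul, mul_pow, vv_norm_sq τ r h0 h1]

theorem norm_qH : ‖qH x β τ r h0 h1‖ ^ 2 = ‖β‖ ^ 2 * ∫ t, Ur (-τ) t * wr r t ∂mu := by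
  rw [norm_sq_eq, ← integral_const_mul, ← sub_int (fun t => ‖β‖ ^ 2 * (Ur (-τ) t * wr r t)) x]
  refine integral_congr_ae ?_
  filter_upwards [qH_coe x β τ r h0 h1] with t ht
  rw [ht]
  unfold qf
  rw [RCLike.norm_conj, norm_mul, norm_mul, zz_norm, one_mul, mul_pow, vv_norm_sq (-τ) r h0 h1]

variable {S : H →L[ℂ] H} (hS : IsRiesz S)
include hS

theorem Pp_f : Pp S (pH x α τ r h0 h1 + qH x β τ r h0 h1) = pH x α τ r h0 h1 := by
  rw [Pp_apply, map_add, S_pH x α τ r h0 h1 hS, S_qH x β τ r h0 h1 hS]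
  module

theorem Rq_f : Rq S (pH x α τ r h0 h1 + qH x β τ r h0 h1) = qH x β τ r h0 h1 := by
  rw [Rq_apply, map_add, S_pH x α τ r h0 h1 hS, S_qH x β τ r h0 h1 hS]
  module

theorem norm_f : ‖pH x α τ r h0 h1 + qH x β τ r h0 h1‖ ^ 2 = ‖α‖ ^ 2 * (∫ t, Ur τ t * wr r t ∂mu) + ‖β‖ ^ 2 * ∫ t, Ur (-τ) t * wr r t ∂mu := by
  rw [norm_PQ hS, Pp_f x α β τ r h0 h1 hS, Rq_f x α β τ r h0 h1 hS, norm_pH, norm_qH]

end tf

end Pool.Agent.H8.Theta
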