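import Pool.Agent.H8.Theta.Nec2

set_option autoImplicit false

open MeasureTheory Filter Topology Set
open scoped ComplexConjugate ENNReal

namespace Pool.Agent.H8.Theta

/-- `1 - z(t - x)` -/
noncomputable def ph (x : T) : C(T, ℂ) := ⟨fun t => 1 - zz (t - x), by fun_prop⟩

theorem ph_ne (x t : T) (h : t ≠ x) : ph x t ≠ 0 := by
  change 1 - zz (t - x) ≠ 0
  rw [sub_ne_zero]
  exact (zz_ne_one (sub_ne_zero.2 h)).symm

theorem ph_dense (x : T) : DenseRange (MC (ph x)) := by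
  have h : (LinearMap.range (MC (ph x) : H →ₗ[ℂ] H)).topologicalClosure = ⊤ := by
    rw [Submodule.topologicalClosure_eq_top_iff, Submodule.eq_bot_iff]
    intro g hg
    have h1 : ContinuousLinearMap.adjoint (MC (ph x)) g = 0 := by
      refine ext_inner_left ℂ fun v => ?_
      rw [ContinuousLinearMap.adjoint_inner_right, inner_zero_right]
      exact (Submodule.mem_orthogonal _ _).1 hg _ ⟨v, rfl⟩
    rw [MC_adj] at h1
    have h2 := MC_isMul (star (ph x)) g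
    rw [h1] at h2
    refine Lp.ext ?_
    filter_upwards [h2, Lp.coeFn_zero ℂ 2 mu, ae_not_mem (finite_singleton x)] with t h3 h4 h5
    rw [h4] at h3 ⊢
    have h6 : (star (ph x)) t ≠ 0 := by
      rw [ContinuousMap.star_apply]
      exact star_ne_zero.2 (ph_ne x t h5)
    rcases mul_eq_zero.1 h3.symm with h | h
    · exact absurd h h6
    · rw [h]; rfl
  intro y
  have : y ∈ (LinearMap.range (MC (ph x) : H →ₗ[ℂ] H)).topologicalClosure := by rw [h]; trivial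
  exact this

theorem ph_null : Tendsto (fun r : ℝ => (∫ t, ‖(1 - zz t) ^ 2‖ * wr r t ∂mu) / LL r) (𝓝[<] 1) (𝓝 0) := by
  refine null_avg (fun t => (1 - zz t) ^ 2) (by fun_prop) 4 ?_ ?_
  · intro t
    rw [norm_pow]
    have : ‖1 - zz t‖ ≤ 2 := by
      refine (norm_sub_le _ _).trans ?_
      rw [norm_one, zz_norm]; norm_num
    nlinarith [norm_nonneg (1 - zz t)]
  · have hc : Continuous fun t : T => (1 - zz t) ^ 2 := by fun_prop
    have h := hc.tendsto 0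
    have e : (1 - zz (0 : T)) ^ 2 = 0 := by
      unfold zz; simp
    rw [e] at h
    exact h.mono_left nhdsWithin_le_nhds

section tf
variable (x : T) (α β : ℂ) (τ r : ℝ) (h0 : 0 ≤ r) (h1 : r < 1)

theorem adj_bound : ‖ContinuousLinearMap.adjoint (MC (ph x)) (pH x α τ r h0 h1 + qH x β τ r h0 h1)‖ ^ 2 ≤
    (2 * (‖α‖ ^ 2 + ‖β‖ ^ 2) * Real.exp (2 * |τ| * Real.pi)) * ∫ t, ‖(1 - zz t) ^ 2‖ * wr r t ∂mu := by
  rw [norm_sq_eq, ← integral_const_mul, ← sub_int (fun t => (2 * (‖α‖ ^ 2 + ‖β‖ ^ 2) * Real.exp (2 * |τ| * Real.pi)) * (‖(1 - zz t) ^ 2‖ * wr r t)) x]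
  refine integral_mono_ae (int_norm_sq _) ?_ ?_
  · refine cont_int (Continuous.mul continuous_const (Continuous.mul (by fun_prop) ?_))
    exact (wr_cont r h0 h1).comp (continuous_id.sub continuous_const)
  · filter_upwards [MC_isMul (star (ph x)) (pH x α τ r h0 h1 + qH x β τ r h0 h1), Lp.coeFn_add (pH x α τ r h0 h1) (qH x β τ r h0 h1), pH_coe x α τ r h0 h1, qH_coe x β τ r h0 h1] with t k1 k2 k3 k4
    rw [MC_adj, k1, k2, Pi.add_apply, k3, k4, norm_mul, mul_pow]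
    have e1 : ‖(star (ph x)) t‖ ^ 2 = ‖(1 - zz (t - x)) ^ 2‖ := by
      rw [ContinuousMap.star_apply, norm_star, norm_pow]; rfl
    rw [e1]
    have e2 : ‖pf x α τ r t + qf x β τ r t‖ ^ 2 ≤ 2 * (‖pf x α τ r t‖ ^ 2 + ‖qf x β τ r t‖ ^ 2) := by
      have := norm_add_le (pf x α τ r t) (qf x β τ r t)
      nlinarith [norm_nonneg (pf x α τ r t + qf x β τ r t), sq_nonneg (‖pf x α τ r t‖ - ‖qf x β τ r t‖), norm_nonneg (pf x α τ r t), norm_nonneg (qf x β τ r t)]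
    have e3 : ‖pf x α τ r t‖ ^ 2 ≤ ‖α‖ ^ 2 * (Real.exp (2 * |τ| * Real.pi) * wr r (t - x)) := by
      unfold pf
      rw [norm_mul, mul_pow, vv_norm_sq τ r h0 h1]
      have h2 : Ur τ (t - x) ≤ Real.exp (2 * |τ| * Real.pi) := (le_abs_self _).trans (Ur_bd τ _)
      exact mul_le_mul_of_nonneg_left (mul_le_mul_of_nonneg_right h2 (wr_pos r h0 h1 _).le) (sq_nonneg _)
    have e4 : ‖qf x β τ r t‖ ^ 2 ≤ ‖β‖ ^ 2 * (Real.exp (2 * |τ| * Real.pi) * wr r (t - x)) := by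
      unfold qf
      rw [RCLike.norm_conj, norm_mul, norm_mul, zz_norm, one_mul, mul_pow, vv_norm_sq (-τ) r h0 h1]
      have h2 : Ur (-τ) (t - x) ≤ Real.exp (2 * |τ| * Real.pi) := by
        have := (le_abs_self _).trans (Ur_bd (-τ) (t - x))
        rwa [abs_neg] at this
      exact mul_le_mul_of_nonneg_left (mul_le_mul_of_nonneg_right h2 (wr_pos r h0 h1 _).le) (sq_nonneg _)
    calc ‖(1 - zz (t - x)) ^ 2‖ * ‖pf x α τ r t + qf x β τ r t‖ ^ 2 ≤ ‖(1 - zz (t - x)) ^ 2‖ * (2 * (‖α‖ ^ 2 * (Real.exp (2 * |τ| * Real.pi) * wr r (t - x)) + ‖β‖ ^ 2 * (Real.exp (2 * |τ| * Real.pi) * wr r (t - x)))) :=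
          mul_le_mul_of_nonneg_left (e2.trans (by linarith)) (norm_nonneg _)
      _ = _ := by ring

/-- the value of the form on the test function -/
theorem form_eq (S Ma Mb MΘ : H →L[ℂ] H) (hS : IsRiesz S) (a b Θ : T → ℂ) (hMa : IsMul a Ma) (hMb : IsMul b Mb) (hMΘ : IsMul Θ MΘ)
    (C D : T → ℂ) (hC : ∀ t, C t = Θ t * (a t + b t)) (hD : ∀ t, D t = Θ t * (a t - b t)) :
    (inner ℂ ((MΘ ∘L (Ma + Mb ∘L S)) (pH x α τ r h0 h1 + qH x β τ r h0 h1)) (pH x α τ r h0 h1 + qH x β τ r h0 h1)).re =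
      ∫ s, ((‖α‖ ^ 2 : ℝ) * ((C (s + x) * Ur τ s) * (wr r s : ℂ)) + (‖β‖ ^ 2 : ℝ) * ((D (s + x) * Ur (-τ) s) * (wr r s : ℂ)) +
        α * β * ((C (s + x) + conj (D (s + x))) * (zz s * (1 - (r : ℂ) * zz s)⁻¹))).re ∂mu := by
  rw [re_inner_eq, ← sub_int (fun s => ((‖α‖ ^ 2 : ℝ) * ((C (s + x) * Ur τ s) * (wr r s : ℂ)) + (‖β‖ ^ 2 : ℝ) * ((D (s + x) * Ur (-τ) s) * (wr r s : ℂ)) +
        α * β * ((C (s + x) + conj (D (s + x))) * (zz s * (1 - (r : ℂ) * zz s)⁻¹))).re) x]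
  refine integral_congr_ae ?_
  set f := pH x α τ r h0 h1 + qH x β τ r h0 h1 with hf
  have hSf : S f = pH x α τ r h0 h1 - qH x β τ r h0 h1 := by
    rw [hf, map_add, S_pH x α τ r h0 h1 hS, S_qH x β τ r h0 h1 hS]; abel
  filter_upwards [Lp.coeFn_add (pH x α τ r h0 h1) (qH x β τ r h0 h1), Lp.coeFn_sub (pH x α τ r h0 h1) (qH x β τ r h0 h1), pH_coe x α τ r h0 h1, qH_coe x β τ r h0 h1,
    hMΘ ((Ma + Mb ∘L S) f), Lp.coeFn_add (Ma f) (Mb (S f)), hMa f, hMb (S f)] with t k1 k2 k3 k4 k5 k6 k7 k8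
  have k9 : ((MΘ ∘L (Ma + Mb ∘L S)) f : T → ℂ) t = C t * pf x α τ r t + D t * qf x β τ r t := by
    rw [ContinuousLinearMap.comp_apply, k5]
    have : ((Ma + Mb ∘L S) f : T → ℂ) t = (Ma f + Mb (S f) : H) t := rfl
    rw [this, k6, Pi.add_apply, k7, k8, hSf, k2, hf, k1, Pi.add_apply, Pi.sub_apply, k3, k4, hC, hD]
    ring
  have k10 : (f : T → ℂ) t = pf x α τ r t + qf x β τ r t := by
    rw [hf, k1, Pi.add_apply, k3, k4]
  rw [k9, k10, RCLike.inner_apply, sub_add_cancel]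
  set P := pf x α τ r t with hP
  set Q := qf x β τ r t with hQ
  have hPP : P * conj P = ((‖α‖ ^ 2 : ℝ) : ℂ) * ((Ur τ (t - x) : ℂ) * (wr r (t - x) : ℂ)) := by
    rw [Complex.mul_conj, Complex.normSq_eq_norm_sq, hP]
    unfold pf
    rw [norm_mul, mul_pow, vv_norm_sq τ r h0 h1]
    push_cast; ring
  have hQQ : Q * conj Q = ((‖β‖ ^ 2 : ℝ) : ℂ) * ((Ur (-τ) (t - x) : ℂ) * (wr r (t - x) : ℂ)) := by
    rw [Complex.mul_conj, Complex.normSq_eq_norm_sq, hQ]
    unfold qf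
    rw [RCLike.norm_conj, norm_mul, norm_mul, zz_norm, one_mul, mul_pow, vv_norm_sq (-τ) r h0 h1]
    push_cast; ring
  have hPQ : P * conj Q = α * β * (zz (t - x) * (1 - (r : ℂ) * zz (t - x))⁻¹) := by
    rw [hP, hQ]
    unfold pf qf
    rw [Complex.conj_conj, ← vv_mul τ r h0 h1]
    ring
  have e1 : ((P + Q) * conj (C t * P + D t * Q)).re = (C t * (P * conj P) + D t * (Q * conj Q) + (C t + conj (D t)) * (P * conj Q)).re := by
    rw [← Complex.conj_re ((P + Q) * conj (C t * P + D t * Q))]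
    have : conj ((P + Q) * conj (C t * P + D t * Q)) = C t * (P * conj P) + D t * (Q * conj Q) + C t * (P * conj Q) + D t * (Q * conj P) := by
      simp only [map_mul, map_add, Complex.conj_conj]; ring
    rw [this]
    have h2 : (C t * (P * conj P) + D t * (Q * conj Q) + (C t + conj (D t)) * (P * conj Q)) = C t * (P * conj P) + D t * (Q * conj Q) + C t * (P * conj Q) + conj (D t * (Q * conj P)) := by
      simp only [map_mul, Complex.conj_conj]; ring
    rw [h2, Complex.add_re, Complex.add_re (C t * (P * conj P) + D t * (Q * conj Q) + C t * (P * conj Q)), Complex.conj_re]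
  rw [e1, hPP, hQQ, hPQ]
  congr 1
  ring

end tf

end Pool.Agent.H8.Theta
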