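import Pool.Agent.H8.Theta.Nec3

set_option autoImplicit false

open MeasureTheory Filter Topology Set
open scoped ComplexConjugate ENNReal

namespace Pool.Agent.H8.Theta

noncomputable def rk (k : ℕ) : ℝ := 1 - 1 / ((k : ℝ) + 1)

theorem rk0 (k : ℕ) : 0 ≤ rk k := by
  unfold rk
  rw [sub_nonneg, div_le_one (by positivity)]
  have : (0 : ℝ) ≤ k := Nat.cast_nonneg k
  linarith

theorem rk1 (k : ℕ) : rk k < 1 := by
  unfold rk
  have : 0 < 1 / ((k : ℝ) + 1) := by positivity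
  linarith

theorem rk_tendsto : Tendsto rk atTop (𝓝[<] 1) := by
  rw [tendsto_nhdsWithin_iff]
  refine ⟨?_, Eventually.of_forall fun k => rk1 k⟩
  have h := (tendsto_const_nhds (x := (1 : ℝ))).sub (tendsto_one_div_add_atTop_nhds_zero_nat (𝕜 := ℝ))
  rw [sub_zero] at h
  exact h

theorem LL_pos (r : ℝ) (h0 : 0 ≤ r) (h1 : r < 1) : 0 < LL r := by
  have h2 : ∀ t, (1 + r)⁻¹ ≤ wr r t := by
    intro t
    unfold wr
    refine inv_anti₀ (norm_pos_iff.2 (den_ne r h0 h1 t)) ?_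
    refine (norm_sub_le _ _).trans ?_
    rw [norm_one, norm_mul, zz_norm, mul_one, Complex.norm_real, Real.norm_eq_abs, abs_of_nonneg h0]
  have h3 : ∫ t, (1 + r)⁻¹ ∂mu ≤ LL r := integral_mono (integrable_const _) (wr_int r h0 h1) h2
  rw [integral_const] at h3
  simp only [probReal_univ, smul_eq_mul, one_mul] at h3
  exact lt_of_lt_of_le (by positivity) h3

section main
variable (S Ma Mb MΘ : H →L[ℂ] H) (hS : IsRiesz S) (a b Θ : T → ℂ) (hMa : IsMul a Ma) (hMb : IsMul b Mb) (hMΘ : IsMul Θ MΘ)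
  (M : ℝ) (hM : 0 ≤ M) (ha : ∀ t, ‖a t‖ ≤ M) (hb : ∀ t, ‖b t‖ ≤ M) (hΘ : ∀ t, ‖Θ t‖ ≤ M)
  (x : ℝ) (ap am bp bm tp tm : ℂ)
  (hap : Tendsto (fun s : ℝ => a (s : T)) (𝓝[>] x) (𝓝 ap)) (ham : Tendsto (fun s : ℝ => a (s : T)) (𝓝[<] x) (𝓝 am))
  (hbp : Tendsto (fun s : ℝ => b (s : T)) (𝓝[>] x) (𝓝 bp)) (hbm : Tendsto (fun s : ℝ => b (s : T)) (𝓝[<] x) (𝓝 bm))
  (htp : Tendsto (fun s : ℝ => Θ (s : T)) (𝓝[>] x) (𝓝 tp)) (htm : Tendsto (fun s : ℝ => Θ (s : T)) (𝓝[<] x) (𝓝 tm))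
include hS hMa hMb hMΘ hM ha hb hΘ hap ham hbp hbm htp htm

theorem form_tendsto (τ : ℝ) (α β : ℂ) :
    Tendsto (fun r : ℝ => (∫ s, ((‖α‖ ^ 2 : ℝ) * (((Θ (s + x) * (a (s + x) + b (s + x))) * Ur τ s) * (wr r s : ℂ)) + (‖β‖ ^ 2 : ℝ) * (((Θ (s + x) * (a (s + x) - b (s + x))) * Ur (-τ) s) * (wr r s : ℂ)) +
        α * β * (((Θ (s + x) * (a (s + x) + b (s + x))) + conj (Θ (s + x) * (a (s + x) - b (s + x)))) * (zz s * (1 - (r : ℂ) * zz s)⁻¹))).re ∂mu) / LL r) (𝓝[<] 1)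
      (𝓝 ((‖α‖ ^ 2 : ℝ) * (((tp * (ap + bp)) * ((Real.exp (Real.pi * τ) : ℝ) : ℂ) + (tm * (am + bm)) * (((Real.exp (Real.pi * τ))⁻¹ : ℝ) : ℂ)) / 2) +
        (‖β‖ ^ 2 : ℝ) * (((tp * (ap - bp)) * (((Real.exp (Real.pi * τ))⁻¹ : ℝ) : ℂ) + (tm * (am - bm)) * ((Real.exp (Real.pi * τ) : ℝ) : ℂ)) / 2) +
        α * β * (Complex.I / 2 * ((tp * (ap + bp) + conj (tp * (ap - bp))) - (tm * (am + bm) + conj (tm * (am - bm)))))).re) := by
  have mpr := measurePreserving_add_right mu (x : T)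
  have ma := hMa.meas.comp_measurePreserving mpr
  have mb := hMb.meas.comp_measurePreserving mpr
  have mt := hMΘ.meas.comp_measurePreserving mpr
  have mU : ∀ τ, AEStronglyMeasurable (fun s => (Ur τ s : ℂ)) mu := fun τ => (Complex.measurable_ofReal.comp (Ur_meas τ)).aestronglyMeasurable
  have mC : AEStronglyMeasurable (fun s => Θ (s + x) * (a (s + x) + b (s + x))) mu := mt.mul (ma.add mb)
  have mD : AEStronglyMeasurable (fun s => Θ (s + x) * (a (s + x) - b (s + x))) mu := mt.mul (ma.sub mb)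
  have bC : ∀ s : T, ‖Θ (s + x) * (a (s + x) + b (s + x))‖ ≤ M * (M + M) := fun s => by
    rw [norm_mul]
    exact mul_le_mul (hΘ _) ((norm_add_le _ _).trans (add_le_add (ha _) (hb _))) (norm_nonneg _) hM
  have bD : ∀ s : T, ‖Θ (s + x) * (a (s + x) - b (s + x))‖ ≤ M * (M + M) := fun s => by
    rw [norm_mul]
    exact mul_le_mul (hΘ _) ((norm_sub_le _ _).trans (add_le_add (ha _) (hb _))) (norm_nonneg _) hM
  have rC := (shift_right x Θ tp htp).mul ((shift_right x a ap hap).add (shift_right x b bp hbp))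
  have lC := (shift_left x Θ tm htm).mul ((shift_left x a am ham).add (shift_left x b bm hbm))
  have rD := (shift_right x Θ tp htp).mul ((shift_right x a ap hap).sub (shift_right x b bp hbp))
  have lD := (shift_left x Θ tm htm).mul ((shift_left x a am ham).sub (shift_left x b bm hbm))
  have bU : ∀ τ s, ‖(Ur τ s : ℂ)‖ ≤ Real.exp (2 * |τ| * Real.pi) := fun τ s => by rw [Complex.norm_real]; exact Ur_bd τ s
  have rU : ∀ τ, Tendsto (fun s : ℝ => (Ur τ (s : T) : ℂ)) (𝓝[>] 0) (𝓝 ((Real.exp (Real.pi * τ) : ℝ) : ℂ)) := fun τ => (Complex.continuous_ofReal.tendsto _).comp (Ur_right τ)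
  have lU : ∀ τ, Tendsto (fun s : ℝ => (Ur τ (s : T) : ℂ)) (𝓝[<] 0) (𝓝 (((Real.exp (Real.pi * τ))⁻¹ : ℝ) : ℂ)) := fun τ => (Complex.continuous_ofReal.tendsto _).comp (Ur_left τ)
  have h1 := avg1 (fun s => (Θ (s + x) * (a (s + x) + b (s + x))) * Ur τ s) (mC.mul (mU τ)) (M * (M + M) * Real.exp (2 * |τ| * Real.pi))
    (fun s => by rw [norm_mul]; exact mul_le_mul (bC s) (bU τ s) (norm_nonneg _) (by positivity)) _ _ (rC.mul (rU τ)) (lC.mul (lU τ))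
  have h2 := avg1 (fun s => (Θ (s + x) * (a (s + x) - b (s + x))) * Ur (-τ) s) (mD.mul (mU (-τ))) (M * (M + M) * Real.exp (2 * |(-τ)| * Real.pi))
    (fun s => by rw [norm_mul]; exact mul_le_mul (bD s) (bU (-τ) s) (norm_nonneg _) (by positivity)) _ _ (rD.mul (rU (-τ))) (lD.mul (lU (-τ)))
  have h3 := avg2 (fun s => (Θ (s + x) * (a (s + x) + b (s + x))) + conj (Θ (s + x) * (a (s + x) - b (s + x)))) (mC.add (Complex.continuous_conj.comp_aestronglyMeasurable mD)) (M * (M + M) + M * (M + M))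
    (fun s => (norm_add_le _ _).trans (add_le_add (bC s) (by rw [RCLike.norm_conj]; exact bD s))) _ _ (rC.add ((Complex.continuous_conj.tendsto _).comp rD)) (lC.add ((Complex.continuous_conj.tendsto _).comp lD))
  have e1 : Real.exp (Real.pi * -τ) = (Real.exp (Real.pi * τ))⁻¹ := by rw [← Real.exp_neg]; congr 1; ring
  rw [e1, inv_inv] at h2
  have h4 := ((h1.const_mul ((‖α‖ ^ 2 : ℝ) : ℂ)).add (h2.const_mul ((‖β‖ ^ 2 : ℝ) : ℂ))).add (h3.const_mul (α * β))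
  have h5 := (Complex.continuous_re.tendsto _).comp h4
  refine h5.congr' ?_
  filter_upwards [Ioo_mem_nhdsLT (show (0:ℝ) < 1 by norm_num)] with r hr
  have hw : Integrable (fun t => (wr r t : ℂ)) mu := (wr_int r hr.1.le hr.2).ofReal
  have hk : Integrable (fun s => zz s * (1 - (r : ℂ) * zz s)⁻¹) mu := cont_int (zz.continuous.mul (inv_cont r hr.1.le hr.2))
  have i1 : Integrable (fun s => ((Θ (s + x) * (a (s + x) + b (s + x))) * Ur τ s) * (wr r s : ℂ)) mu :=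
    hw.bdd_mul (c := M * (M + M) * Real.exp (2 * |τ| * Real.pi)) (mC.mul (mU τ)) (Eventually.of_forall fun s => by rw [norm_mul]; exact mul_le_mul (bC s) (bU τ s) (norm_nonneg _) (by positivity))
  have i2 : Integrable (fun s => ((Θ (s + x) * (a (s + x) - b (s + x))) * Ur (-τ) s) * (wr r s : ℂ)) mu :=
    hw.bdd_mul (c := M * (M + M) * Real.exp (2 * |(-τ)| * Real.pi)) (mD.mul (mU (-τ))) (Eventually.of_forall fun s => by rw [norm_mul]; exact mul_le_mul (bD s) (bU (-τ) s) (norm_nonneg _) (by positivity))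
  have i3 : Integrable (fun s => ((Θ (s + x) * (a (s + x) + b (s + x))) + conj (Θ (s + x) * (a (s + x) - b (s + x)))) * (zz s * (1 - (r : ℂ) * zz s)⁻¹)) mu :=
    hk.bdd_mul (c := M * (M + M) + M * (M + M)) (mC.add (Complex.continuous_conj.comp_aestronglyMeasurable mD)) (Eventually.of_forall fun s => (norm_add_le _ _).trans (add_le_add (bC s) (by rw [RCLike.norm_conj]; exact bD s)))
  have j1 := i1.const_mul ((‖α‖ ^ 2 : ℝ) : ℂ)
  have j2 := i2.const_mul ((‖β‖ ^ 2 : ℝ) : ℂ)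
  have j3 := i3.const_mul (α * β)
  have j12 : Integrable (fun s => ((‖α‖ ^ 2 : ℝ) : ℂ) * (((Θ (s + x) * (a (s + x) + b (s + x))) * Ur τ s) * (wr r s : ℂ)) + ((‖β‖ ^ 2 : ℝ) : ℂ) * (((Θ (s + x) * (a (s + x) - b (s + x))) * Ur (-τ) s) * (wr r s : ℂ))) mu := j1.add j2
  have er : ∫ s, ((‖α‖ ^ 2 : ℝ) * (((Θ (s + x) * (a (s + x) + b (s + x))) * Ur τ s) * (wr r s : ℂ)) + (‖β‖ ^ 2 : ℝ) * (((Θ (s + x) * (a (s + x) - b (s + x))) * Ur (-τ) s) * (wr r s : ℂ)) +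
        α * β * (((Θ (s + x) * (a (s + x) + b (s + x))) + conj (Θ (s + x) * (a (s + x) - b (s + x)))) * (zz s * (1 - (r : ℂ) * zz s)⁻¹))).re ∂mu =
      (((‖α‖ ^ 2 : ℝ) : ℂ) * (∫ s, ((Θ (s + x) * (a (s + x) + b (s + x))) * Ur τ s) * (wr r s : ℂ) ∂mu) + ((‖β‖ ^ 2 : ℝ) : ℂ) * (∫ s, ((Θ (s + x) * (a (s + x) - b (s + x))) * Ur (-τ) s) * (wr r s : ℂ) ∂mu) +
        α * β * (∫ s, ((Θ (s + x) * (a (s + x) + b (s + x))) + conj (Θ (s + x) * (a (s + x) - b (s + x)))) * (zz s * (1 - (r : ℂ) * zz s)⁻¹) ∂mu)).re := by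
    have := integral_re (𝕜 := ℂ) (j12.add j3)
    refine (Eq.trans ?_ this).trans ?_
    · rfl
    · rw [RCLike.re_eq_complex_re]
      congr 1
      have e5 : ∫ s, ((fun s => ((‖α‖ ^ 2 : ℝ) : ℂ) * (((Θ (s + x) * (a (s + x) + b (s + x))) * Ur τ s) * (wr r s : ℂ)) + ((‖β‖ ^ 2 : ℝ) : ℂ) * (((Θ (s + x) * (a (s + x) - b (s + x))) * Ur (-τ) s) * (wr r s : ℂ))) +
        fun s => α * β * (((Θ (s + x) * (a (s + x) + b (s + x))) + conj (Θ (s + x) * (a (s + x) - b (s + x)))) * (zz s * (1 - (r : ℂ) * zz s)⁻¹))) s ∂mu = _ := integral_add j12 j3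
      rw [e5, integral_add j1 j2, integral_const_mul, integral_const_mul, integral_const_mul]
  rw [er]
  simp only [Function.comp]
  have e6 : ∀ (u v w z1 z2 z3 : ℂ) (L : ℝ), (u * (z1 / (L : ℂ)) + v * (z2 / (L : ℂ)) + w * (z3 / (L : ℂ))).re = (u * z1 + v * z2 + w * z3).re / L := by
    intro u v w z1 z2 z3 L
    have : u * (z1 / (L : ℂ)) + v * (z2 / (L : ℂ)) + w * (z3 / (L : ℂ)) = (u * z1 + v * z2 + w * z3) / (L : ℂ) := by ring
    rw [this, Complex.div_ofReal_re]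
  exact e6 _ _ _ _ _ _ _

end main

end Pool.Agent.H8.Theta
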