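import Pool.Agent.H8.Theta.Nec4

set_option autoImplicit false

open MeasureTheory Filter Topology Set
open scoped ComplexConjugate ENNReal

namespace Pool.Agent.H8.Theta

section fh
variable (x : T) (α β : ℂ) (τ : ℝ)

noncomputable def ff (k : ℕ) : H := pH x α τ (rk k) (rk0 k) (rk1 k) + qH x β τ (rk k) (rk0 k) (rk1 k)
noncomputable def Lk (k : ℕ) : ℝ := LL (rk k)
noncomputable def fh (k : ℕ) : H := (((Real.sqrt (Lk k))⁻¹ : ℝ) : ℂ) • ff x α β τ k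

theorem Lk_pos (k : ℕ) : 0 < Lk k := LL_pos _ (rk0 k) (rk1 k)

theorem scal (k : ℕ) : ((Real.sqrt (Lk k))⁻¹) ^ 2 = (Lk k)⁻¹ := by
  rw [inv_pow, Real.sq_sqrt (Lk_pos k).le]

theorem clm_fh (A : H →L[ℂ] H) (k : ℕ) : ‖A (fh x α β τ k)‖ ^ 2 = ‖A (ff x α β τ k)‖ ^ 2 / Lk k := by
  unfold fh
  rw [map_smul, norm_smul, mul_pow, Complex.norm_real, Real.norm_eq_abs, sq_abs, scal]
  ring

theorem norm_fh (k : ℕ) : ‖fh x α β τ k‖ ^ 2 = ‖ff x α β τ k‖ ^ 2 / Lk k := clm_fh x α β τ 1 k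

theorem inner_fh (A : H →L[ℂ] H) (k : ℕ) : (inner ℂ (A (fh x α β τ k)) (fh x α β τ k)).re = (inner ℂ (A (ff x α β τ k)) (ff x α β τ k)).re / Lk k := by
  unfold fh
  rw [map_smul, inner_smul_left, inner_smul_right, Complex.conj_ofReal, ← mul_assoc, ← Complex.ofReal_mul, ← sq, scal, Complex.re_ofReal_mul]
  ring

theorem fh_norm_tendsto {S : H →L[ℂ] H} (hS : IsRiesz S) : Tendsto (fun k => ‖fh x α β τ k‖ ^ 2) atTop
    (𝓝 ((‖α‖ ^ 2 + ‖β‖ ^ 2) * ((Real.exp (Real.pi * τ) + (Real.exp (Real.pi * τ))⁻¹) / 2))) := by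
  have h1 := (Ur_avg τ).comp rk_tendsto
  have h2 := (Ur_avg (-τ)).comp rk_tendsto
  have e1 : Real.exp (Real.pi * -τ) = (Real.exp (Real.pi * τ))⁻¹ := by rw [← Real.exp_neg]; congr 1; ring
  rw [e1, inv_inv] at h2
  have h3 := (h1.const_mul (‖α‖ ^ 2)).add (h2.const_mul (‖β‖ ^ 2))
  have e2 : ‖α‖ ^ 2 * ((Real.exp (Real.pi * τ) + (Real.exp (Real.pi * τ))⁻¹) / 2) + ‖β‖ ^ 2 * (((Real.exp (Real.pi * τ))⁻¹ + Real.exp (Real.pi * τ)) / 2) =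
    (‖α‖ ^ 2 + ‖β‖ ^ 2) * ((Real.exp (Real.pi * τ) + (Real.exp (Real.pi * τ))⁻¹) / 2) := by ring
  rw [e2] at h3
  refine h3.congr fun k => ?_
  rw [norm_fh]
  unfold ff
  rw [norm_f x α β τ (rk k) (rk0 k) (rk1 k) hS]
  simp only [Function.comp]
  unfold Lk
  ring

theorem fh_bdd {S : H →L[ℂ] H} (hS : IsRiesz S) : ∃ C : ℝ, ∀ k, ‖fh x α β τ k‖ ≤ C := by
  obtain ⟨C, hC⟩ := (fh_norm_tendsto x α β τ hS).bddAbove_range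
  refine ⟨Real.sqrt C, fun k => ?_⟩
  apply Real.le_sqrt_of_sq_le
  exact hC ⟨k, rfl⟩

theorem fh_adj : Tendsto (fun k => ‖ContinuousLinearMap.adjoint (MC (ph x)) (fh x α β τ k)‖) atTop (𝓝 0) := by
  have h1 := (ph_null.comp rk_tendsto).const_mul (2 * (‖α‖ ^ 2 + ‖β‖ ^ 2) * Real.exp (2 * |τ| * Real.pi))
  rw [mul_zero] at h1
  have h2 : Tendsto (fun k => ‖ContinuousLinearMap.adjoint (MC (ph x)) (fh x α β τ k)‖ ^ 2) atTop (𝓝 0) := by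
    refine squeeze_zero (fun _ => sq_nonneg _) (fun k => ?_) h1
    rw [clm_fh]
    simp only [Function.comp]
    rw [← mul_div_assoc]
    exact div_le_div_of_nonneg_right (adj_bound x α β τ (rk k) (rk0 k) (rk1 k)) (Lk_pos k).le
  have h3 := (Real.continuous_sqrt.tendsto 0).comp h2
  rw [Real.sqrt_zero] at h3
  refine h3.congr fun k => ?_
  simp only [Function.comp]
  exact Real.sqrt_sq (norm_nonneg _)

theorem fh_compact {S : H →L[ℂ] H} (hS : IsRiesz S) (K : H →L[ℂ] H) (hK : IsCompactOperator K) :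
    ∃ φ : ℕ → ℕ, StrictMono φ ∧ Tendsto (fun k => (inner ℂ (K (fh x α β τ (φ k))) (fh x α β τ (φ k)) : ℂ).re) atTop (𝓝 0) := by
  obtain ⟨C, hC⟩ := fh_bdd x α β τ hS
  obtain ⟨φ, hφ, h⟩ := compact_sub K hK (MC (ph x)) (ph_dense x) (fh x α β τ) C hC (fh_adj x α β τ)
  refine ⟨φ, hφ, ?_⟩
  have := (Complex.continuous_re.tendsto _).comp h
  exact this

end fh

section main
variable (S Ma Mb MΘ : H →L[ℂ] H) (hS : IsRiesz S) (a b Θ : T → ℂ) (hMa : IsMul a Ma) (hMb : IsMul b Mb) (hMΘ : IsMul Θ MΘ)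
  (M : ℝ) (hM : 0 ≤ M) (ha : ∀ t, ‖a t‖ ≤ M) (hb : ∀ t, ‖b t‖ ≤ M) (hΘ : ∀ t, ‖Θ t‖ ≤ M)
  (x : ℝ) (ap am bp bm tp tm : ℂ)
  (hap : Tendsto (fun s : ℝ => a (s : T)) (𝓝[>] x) (𝓝 ap)) (ham : Tendsto (fun s : ℝ => a (s : T)) (𝓝[<] x) (𝓝 am))
  (hbp : Tendsto (fun s : ℝ => b (s : T)) (𝓝[>] x) (𝓝 bp)) (hbm : Tendsto (fun s : ℝ => b (s : T)) (𝓝[<] x) (𝓝 bm))
  (htp : Tendsto (fun s : ℝ => Θ (s : T)) (𝓝[>] x) (𝓝 tp)) (htm : Tendsto (fun s : ℝ => Θ (s : T)) (𝓝[<] x) (𝓝 tm))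
include hS hMa hMb hMΘ hM ha hb hΘ hap ham hbp hbm htp htm

theorem nec_ineq (hse : SE (MΘ ∘L (Ma + Mb ∘L S))) :
    ∃ γ > 0, ∀ (U : ℝ) (α β : ℂ), 0 < U → γ * (‖α‖ ^ 2 + ‖β‖ ^ 2) * ((U + U⁻¹) / 2) ≤
      ‖α‖ ^ 2 * (((tp * (ap + bp)).re * U + (tm * (am + bm)).re * U⁻¹) / 2) + ‖β‖ ^ 2 * (((tp * (ap - bp)).re * U⁻¹ + (tm * (am - bm)).re * U) / 2) +
        (α * β * (Complex.I / 2 * ((tp * (ap + bp) + conj (tp * (ap - bp))) - (tm * (am + bm) + conj (tm * (am - bm)))))).re := by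
  obtain ⟨γ, hγ, K, hK, hineq⟩ := SE_ineq hse
  refine ⟨γ, hγ, fun U α β hU => ?_⟩
  obtain ⟨τ, hτ⟩ : ∃ τ : ℝ, Real.exp (Real.pi * τ) = U := ⟨Real.log U / Real.pi, by
    rw [mul_div_cancel₀ _ Real.pi_ne_zero, Real.exp_log hU]⟩
  obtain ⟨φ, hφ, hφK⟩ := fh_compact (x : T) α β τ hS K hK
  have hl := ((fh_norm_tendsto (x : T) α β τ hS).comp hφ.tendsto_atTop).const_mul γ
  have hr := ((form_tendsto S Ma Mb MΘ hS a b Θ hMa hMb hMΘ M hM ha hb hΘ x ap am bp bm tp tm hap ham hbp hbm htp htm τ α β).comp rk_tendsto).comp hφ.tendsto_atTop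
  have hr2 := hr.sub hφK
  have hle := le_of_tendsto_of_tendsto' hl hr2 (fun k => by
    have h1 := hineq (fh (x : T) α β τ (φ k))
    rw [inner_fh] at h1
    unfold ff at h1
    rw [form_eq (x : T) α β τ (rk (φ k)) (rk0 _) (rk1 _) S Ma Mb MΘ hS a b Θ hMa hMb hMΘ (fun t => Θ t * (a t + b t)) (fun t => Θ t * (a t - b t)) (fun _ => rfl) (fun _ => rfl)] at h1
    exact h1)
  rw [hτ, sub_zero] at hle
  have e1 : γ * ((‖α‖ ^ 2 + ‖β‖ ^ 2) * ((U + U⁻¹) / 2)) = γ * (‖α‖ ^ 2 + ‖β‖ ^ 2) * ((U + U⁻¹) / 2) := by ring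
  rw [e1] at hle
  refine hle.trans (le_of_eq ?_)
  have e2 : ∀ (u v : ℝ) (z1 z2 z3 z4 z5 : ℂ), ((u : ℂ) * ((z1 * (U : ℂ) + z2 * ((U⁻¹ : ℝ) : ℂ)) / 2) + (v : ℂ) * ((z3 * ((U⁻¹ : ℝ) : ℂ) + z4 * (U : ℂ)) / 2) + z5).re =
      u * ((z1.re * U + z2.re * U⁻¹) / 2) + v * ((z3.re * U⁻¹ + z4.re * U) / 2) + z5.re := by
    intro u v z1 z2 z3 z4 z5
    have h2 : ∀ w : ℂ, (w / 2).re = w.re / 2 := fun w => by
      rw [show w / 2 = w / ((2 : ℝ) : ℂ) by push_cast; rfl, Complex.div_ofReal_re]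
    rw [Complex.add_re, Complex.add_re, Complex.re_ofReal_mul, Complex.re_ofReal_mul, h2, h2, Complex.add_re, Complex.add_re, Complex.re_mul_ofReal, Complex.re_mul_ofReal, Complex.re_mul_ofReal, Complex.re_mul_ofReal]
  exact e2 _ _ _ _ _ _ _

theorem nec_point (hse : SE (MΘ ∘L (Ma + Mb ∘L S))) (μ ν : ℝ) (hμ : 0 ≤ μ) (hμ' : μ ≤ 1) (hν : 0 ≤ ν) (hν' : ν ≤ 1) :
    ((ap + bp) * (am - bm) * (μ : ℂ) + (am + bm) * (ap - bp) * (1 - (μ : ℂ))) * (ν : ℂ) + (ap - bp) * (am - bm) * (1 - (ν : ℂ)) ≠ 0 := by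
  obtain ⟨γ, hγ, h⟩ := nec_ineq S Ma Mb MΘ hS a b Θ hMa hMb hMΘ M hM ha hb hΘ x ap am bp bm tp tm hap ham hbp hbm htp htm hse
  obtain ⟨ω, h1, h2, h3⟩ := nec_alg _ _ _ _ γ hγ h
  have aux : ∀ (t c d : ℂ), 0 < (ω * (t * c) * conj (t * d)).re → 0 < (ω * c * conj d).re := by
    intro t c d hh
    have e : ω * (t * c) * conj (t * d) = ((‖t‖ ^ 2 : ℝ) : ℂ) * (ω * c * conj d) := by
      rw [← Complex.normSq_eq_norm_sq, ← Complex.mul_conj, map_mul]; ring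
    rw [e, Complex.re_ofReal_mul] at hh
    exact pos_of_mul_pos_right hh (sq_nonneg _)
  exact cond_alg ω _ _ _ _ h1 (aux _ _ _ h2) (aux _ _ _ h3) μ ν hμ hμ' hν hν'

end main

theorem nec1 (S Ma Mb MΘ : H →L[ℂ] H) (hS : IsRiesz S) (a b Θ : T → ℂ) (hMa : IsMul a Ma) (hMb : IsMul b Mb) (hMΘ : IsMul Θ MΘ)
    (ha : PC a) (hb : PC b) (hΘ : PC Θ) (hse : SE (MΘ ∘L (Ma + Mb ∘L S))) : Cond3 a b := by
  obtain ⟨M1, hM1, hM1'⟩ := ha.bdd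
  obtain ⟨M2, hM2, hM2'⟩ := hb.bdd
  obtain ⟨M3, hM3, hM3'⟩ := hΘ.bdd
  intro x ap am bp bm hap ham hbp hbm μ ν hμ hμ' hν hν'
  obtain ⟨⟨tm, htm⟩, ⟨tp, htp⟩⟩ := hΘ x
  exact nec_point S Ma Mb MΘ hS a b Θ hMa hMb hMΘ (M1 + M2 + M3) (by linarith) (fun t => (hM1' t).trans (by linarith)) (fun t => (hM2' t).trans (by linarith)) (fun t => (hM3' t).trans (by linarith))
    x ap am bp bm tp tm hap ham hbp hbm htp htm hse μ ν hμ hμ' hν hν'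

end Pool.Agent.H8.Theta
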