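import Pool.Agent.H8.Theta.Basic

set_option autoImplicit false

open MeasureTheory Filter Topology Set
open scoped ComplexConjugate ENNReal

namespace Pool.Agent.H8.Theta

/-- strong ellipticity -/
def SE (B : H →L[ℂ] H) : Prop := ∃ D K : H →L[ℂ] H, IsSelfAdjoint D ∧ IsCompactOperator K ∧
  (∃ c : ℝ, 0 < c ∧ ∀ x : H, c * ‖x‖ ^ 2 ≤ (inner ℂ (D x) x).re) ∧
  (1/2 : ℂ) • (B + ContinuousLinearMap.adjoint B) = D + K

theorem re_adj (B : H →L[ℂ] H) (f : H) : (inner ℂ (ContinuousLinearMap.adjoint B f) f).re = (inner ℂ (B f) f).re := by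
  rw [ContinuousLinearMap.adjoint_inner_left, ← inner_conj_symm, Complex.conj_re]

theorem SE_of (B K1 : H →L[ℂ] H) (h1 : IsCompactOperator K1) (h2 : IsCompactOperator (ContinuousLinearMap.adjoint K1)) (γ : ℝ) (hγ : 0 < γ)
    (h : ∀ f : H, γ * ‖f‖ ^ 2 ≤ (inner ℂ (B f) f).re - (inner ℂ (K1 f) f).re) : SE B := by
  refine ⟨(1/2 : ℂ) • (B + ContinuousLinearMap.adjoint B) - (1/2 : ℂ) • (K1 + ContinuousLinearMap.adjoint K1), (1/2 : ℂ) • (K1 + ContinuousLinearMap.adjoint K1), ?_, ?_, ⟨γ, hγ, ?_⟩, ?_⟩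
  · have h12 : (starRingEnd ℂ) (1/2 : ℂ) = 1/2 := by rw [map_div₀, map_one, Complex.conj_ofNat]
    rw [IsSelfAdjoint, ContinuousLinearMap.star_eq_adjoint]
    simp only [map_sub, map_smulₛₗ, map_add, ContinuousLinearMap.adjoint_adjoint, h12]
    rw [add_comm (ContinuousLinearMap.adjoint B), add_comm (ContinuousLinearMap.adjoint K1)]
  · exact IsCompactOperator.smul (h1.add h2) (1/2 : ℂ)
  · intro f
    refine (h f).trans (le_of_eq ?_)
    have e : ∀ A : H →L[ℂ] H, (inner ℂ (((1/2 : ℂ) • (A + ContinuousLinearMap.adjoint A)) f) f).re = (inner ℂ (A f) f).re := by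
      intro A
      rw [smul_apply, add_apply, inner_smul_left, inner_add_left, map_div₀, map_one, Complex.conj_ofNat]
      have := re_adj A f
      have h3 : ((1 / 2 : ℂ) * (inner ℂ (A f) f + inner ℂ ((ContinuousLinearMap.adjoint A) f) f)).re = (1/2) * ((inner ℂ (A f) f).re + (inner ℂ ((ContinuousLinearMap.adjoint A) f) f).re) := by
        rw [show (1/2 : ℂ) = ((1/2 : ℝ) : ℂ) by push_cast; rfl, Complex.re_ofReal_mul, Complex.add_re]
      rw [h3, this]; ring
    rw [sub_apply, inner_sub_left, Complex.sub_re, e, e]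
  · rw [sub_add_cancel]

theorem SE_congr (B N : H →L[ℂ] H) (c : ℝ) (hc : 0 < c) (hN : ∀ x, c * ‖x‖ ≤ ‖ContinuousLinearMap.adjoint N x‖) (hB : SE B) :
    SE (N ∘L ContinuousLinearMap.adjoint B ∘L ContinuousLinearMap.adjoint N) := by
  obtain ⟨D, K, hD, hK, ⟨γ, hγ, hp⟩, he⟩ := hB
  refine ⟨N ∘L D ∘L ContinuousLinearMap.adjoint N, N ∘L K ∘L ContinuousLinearMap.adjoint N, ?_, ?_, ⟨γ * c ^ 2, by positivity, ?_⟩, ?_⟩
  · rw [IsSelfAdjoint, ContinuousLinearMap.star_eq_adjoint] at hD ⊢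
    rw [ContinuousLinearMap.adjoint_comp, ContinuousLinearMap.adjoint_comp, ContinuousLinearMap.adjoint_adjoint, hD, ContinuousLinearMap.comp_assoc]
  · exact (hK.comp_clm (ContinuousLinearMap.adjoint N)).clm_comp N
  · intro x
    have h1 := hp (ContinuousLinearMap.adjoint N x)
    have h2 : (inner ℂ ((N ∘L D ∘L ContinuousLinearMap.adjoint N) x) x) = inner ℂ (D (ContinuousLinearMap.adjoint N x)) (ContinuousLinearMap.adjoint N x) := by
      rw [ContinuousLinearMap.comp_apply, ContinuousLinearMap.adjoint_inner_right]; rfl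
    rw [h2]
    refine le_trans ?_ h1
    have := hN x
    have h3 : (c * ‖x‖) ^ 2 ≤ ‖ContinuousLinearMap.adjoint N x‖ ^ 2 := pow_le_pow_left₀ (by positivity) this 2
    nlinarith
  · have : (1 / 2 : ℂ) • (N ∘L ContinuousLinearMap.adjoint B ∘L ContinuousLinearMap.adjoint N + ContinuousLinearMap.adjoint (N ∘L ContinuousLinearMap.adjoint B ∘L ContinuousLinearMap.adjoint N)) =
        N ∘L ((1/2 : ℂ) • (B + ContinuousLinearMap.adjoint B)) ∘L ContinuousLinearMap.adjoint N := by
      rw [ContinuousLinearMap.adjoint_comp, ContinuousLinearMap.adjoint_comp, ContinuousLinearMap.adjoint_adjoint, ContinuousLinearMap.adjoint_adjoint]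
      ext1 f
      simp only [smul_apply, add_apply, ContinuousLinearMap.comp_apply, map_smul, map_add]
      rw [add_comm]
    rw [this, he]
    ext1 f
    simp only [add_apply, ContinuousLinearMap.comp_apply, map_add]

theorem dual1 (S Ma Mb N N' : H →L[ℂ] H) (hS : ContinuousLinearMap.adjoint S = S) (h : N ∘L N' = 1)
    (hse : SE (N' ∘L (ContinuousLinearMap.adjoint Ma + ContinuousLinearMap.adjoint Mb ∘L S))) : SE (N ∘L (Ma + S ∘L Mb)) := by
  have h2 : ContinuousLinearMap.adjoint N' ∘L ContinuousLinearMap.adjoint N = 1 := by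
    rw [← ContinuousLinearMap.adjoint_comp, h]
    ext1 f
    refine ext_inner_right ℂ fun v => ?_
    rw [ContinuousLinearMap.adjoint_inner_left]; rfl
  have h3 := SE_congr _ N (‖ContinuousLinearMap.adjoint N'‖ + 1)⁻¹ (by positivity) (fun x => by
    rw [inv_mul_le_iff₀ (by positivity)]
    have : ContinuousLinearMap.adjoint N' (ContinuousLinearMap.adjoint N x) = x := congrArg (fun A : H →L[ℂ] H => A x) h2
    calc ‖x‖ = ‖ContinuousLinearMap.adjoint N' (ContinuousLinearMap.adjoint N x)‖ := by rw [this]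
      _ ≤ ‖ContinuousLinearMap.adjoint N'‖ * ‖ContinuousLinearMap.adjoint N x‖ := ContinuousLinearMap.le_opNorm _ _
      _ ≤ _ := mul_le_mul_of_nonneg_right (by linarith) (norm_nonneg _)) hse
  have e : N ∘L ContinuousLinearMap.adjoint (N' ∘L (ContinuousLinearMap.adjoint Ma + ContinuousLinearMap.adjoint Mb ∘L S)) ∘L ContinuousLinearMap.adjoint N = N ∘L (Ma + S ∘L Mb) := by
    rw [ContinuousLinearMap.adjoint_comp, map_add, ContinuousLinearMap.adjoint_comp, ContinuousLinearMap.adjoint_adjoint, ContinuousLinearMap.adjoint_adjoint, hS, ContinuousLinearMap.comp_assoc, h2]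
    rfl
  rw [← e]
  exact h3

theorem dual2 (S Ma Mb N N' : H →L[ℂ] H) (hS : ContinuousLinearMap.adjoint S = S) (h : N' ∘L N = 1)
    (hse : SE (N ∘L (Ma + S ∘L Mb))) : SE (N' ∘L (ContinuousLinearMap.adjoint Ma + ContinuousLinearMap.adjoint Mb ∘L S)) := by
  have h2 : ContinuousLinearMap.adjoint N ∘L ContinuousLinearMap.adjoint N' = 1 := by
    rw [← ContinuousLinearMap.adjoint_comp, h]
    ext1 f
    refine ext_inner_right ℂ fun v => ?_
    rw [ContinuousLinearMap.adjoint_inner_left]; rfl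
  have h3 := SE_congr _ N' (‖ContinuousLinearMap.adjoint N‖ + 1)⁻¹ (by positivity) (fun x => by
    rw [inv_mul_le_iff₀ (by positivity)]
    have : ContinuousLinearMap.adjoint N (ContinuousLinearMap.adjoint N' x) = x := congrArg (fun A : H →L[ℂ] H => A x) h2
    calc ‖x‖ = ‖ContinuousLinearMap.adjoint N (ContinuousLinearMap.adjoint N' x)‖ := by rw [this]
      _ ≤ ‖ContinuousLinearMap.adjoint N‖ * ‖ContinuousLinearMap.adjoint N' x‖ := ContinuousLinearMap.le_opNorm _ _
      _ ≤ _ := mul_le_mul_of_nonneg_right (by linarith) (norm_nonneg _)) hse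
  have e : N' ∘L ContinuousLinearMap.adjoint (N ∘L (Ma + S ∘L Mb)) ∘L ContinuousLinearMap.adjoint N' = N' ∘L (ContinuousLinearMap.adjoint Ma + ContinuousLinearMap.adjoint Mb ∘L S) := by
    rw [ContinuousLinearMap.adjoint_comp, map_add, ContinuousLinearMap.adjoint_comp, hS, ContinuousLinearMap.comp_assoc, h2]
    rfl
  rw [← e]
  exact h3

section K
variable {S : H →L[ℂ] H} (hS : IsRiesz S)

noncomputable def Pp (S : H →L[ℂ] H) : H →L[ℂ] H := (1/2 : ℂ) • (1 + S)
noncomputable def Rq (S : H →L[ℂ] H) : H →L[ℂ] H := (1/2 : ℂ) • (1 - S)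

theorem Pp_apply (f : H) : Pp S f = (1/2 : ℂ) • (f + S f) := rfl
theorem Rq_apply (f : H) : Rq S f = (1/2 : ℂ) • (f - S f) := rfl

theorem Pp_add_Rq (f : H) : Pp S f + Rq S f = f := by
  rw [Pp_apply, Rq_apply, ← smul_add]
  rw [show f + S f + (f - S f) = (2 : ℂ) • f by rw [two_smul]; abel, smul_smul]
  norm_num

theorem Pp_sub_Rq (f : H) : Pp S f - Rq S f = S f := by
  rw [Pp_apply, Rq_apply, ← smul_sub]
  rw [show f + S f - (f - S f) = (2 : ℂ) • S f by rw [two_smul]; abel, smul_smul]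
  norm_num

include hS

theorem Pp_adj : ContinuousLinearMap.adjoint (Pp S) = Pp S := by
  have h12 : (starRingEnd ℂ) (1/2 : ℂ) = 1/2 := by rw [map_div₀, map_one, Complex.conj_ofNat]
  unfold Pp
  rw [map_smulₛₗ, map_add, hS.adj, h12]
  congr 2
  ext1 f
  refine ext_inner_right ℂ fun v => ?_
  rw [ContinuousLinearMap.adjoint_inner_left]; rfl

theorem Rq_adj : ContinuousLinearMap.adjoint (Rq S) = Rq S := by
  have h12 : (starRingEnd ℂ) (1/2 : ℂ) = 1/2 := by rw [map_div₀, map_one, Complex.conj_ofNat]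
  unfold Rq
  rw [map_smulₛₗ, map_sub, hS.adj, h12]
  congr 2
  ext1 f
  refine ext_inner_right ℂ fun v => ?_
  rw [ContinuousLinearMap.adjoint_inner_left]; rfl

theorem QP (f : H) : Rq S (Pp S f) = 0 := by
  rw [Rq_apply, Pp_apply, map_smul, map_add, hS.sq, ← smul_sub]
  rw [add_comm (S f), sub_self, smul_zero, smul_zero]

theorem norm_PQ (f : H) : ‖f‖ ^ 2 = ‖Pp S f‖ ^ 2 + ‖Rq S f‖ ^ 2 := by
  have h0 : inner ℂ (Pp S f) (Rq S f) = 0 := by
    rw [← Rq_adj hS, ContinuousLinearMap.adjoint_inner_right, QP hS, inner_zero_left]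
  have := norm_add_sq_eq_norm_sq_add_norm_sq_of_inner_eq_zero (Pp S f) (Rq S f) h0
  rw [Pp_add_Rq] at this
  rw [sq, sq, sq, this]

theorem K1_compact (h : C(T, ℂ)) : IsCompactOperator (Rq S ∘L MC h ∘L Pp S) := by
  have : Rq S ∘L MC h ∘L Pp S = (1/4 : ℂ) • (comm S h + comm S h ∘L S) := by
    ext1 f
    unfold comm
    simp only [ContinuousLinearMap.comp_apply, smul_apply, add_apply, sub_apply, Pp_apply, Rq_apply, map_smul, map_add, hS.sq]
    module
  rw [this]
  exact IsCompactOperator.smul ((comm_compact hS h).add ((comm_compact hS h).comp_clm S)) (1/4 : ℂ)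

theorem K1_compact' (h : C(T, ℂ)) : IsCompactOperator (Pp S ∘L MC h ∘L Rq S) := by
  have : Pp S ∘L MC h ∘L Rq S = (1/4 : ℂ) • (comm S h ∘L S - comm S h) := by
    ext1 f
    unfold comm
    simp only [ContinuousLinearMap.comp_apply, smul_apply, sub_apply, Pp_apply, Rq_apply, map_smul, map_sub, hS.sq]
    module
  rw [this]
  exact IsCompactOperator.smul (((comm_compact hS h).comp_clm S).sub (comm_compact hS h)) (1/4 : ℂ)

omit hS in
theorem MC_adj (h : C(T, ℂ)) : ContinuousLinearMap.adjoint (MC h) = MC (star h) :=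
  ((MC_isMul h).adjoint ‖h‖ (Eventually.of_forall h.norm_coe_le_norm)).unique (MC_isMul (star h))

theorem K1_adj (h : C(T, ℂ)) : ContinuousLinearMap.adjoint (Rq S ∘L MC h ∘L Pp S) = Pp S ∘L MC (star h) ∘L Rq S := by
  rw [ContinuousLinearMap.adjoint_comp, ContinuousLinearMap.adjoint_comp, Pp_adj hS, Rq_adj hS, MC_adj, ContinuousLinearMap.comp_assoc]

end K

end Pool.Agent.H8.Theta
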