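import Pool.Agent.H8.Theta.Suff
import Pool.Agent.H8.Theta.Alg

set_option autoImplicit false

open MeasureTheory Filter Topology Set
open scoped ComplexConjugate ENNReal

namespace Pool.Agent.H8.Theta

theorem re_inner_eq (u v : H) : (inner ℂ u v).re = ∫ x, (inner ℂ (u x) (v x)).re ∂mu := by
  rw [L2.inner_def]
  exact (integral_re (𝕜 := ℂ) (L2.integrable_inner (𝕜 := ℂ) u v)).symm

theorem int_re (u v : H) : Integrable (fun x => (inner ℂ (u x) (v x)).re) mu := (L2.integrable_inner (𝕜 := ℂ) u v).re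

theorem norm_sq_eq (u : H) : ‖u‖ ^ 2 = ∫ x, ‖u x‖ ^ 2 ∂mu := by
  have h := re_inner_eq u u
  have h2 : (inner ℂ u u).re = ‖u‖ ^ 2 := inner_self_eq_norm_sq (𝕜 := ℂ) u
  rw [← h2, h]
  refine integral_congr_ae (Eventually.of_forall fun x => ?_)
  exact inner_self_eq_norm_sq (𝕜 := ℂ) (u x)

theorem int_norm_sq (u : H) : Integrable (fun x => ‖u x‖ ^ 2) mu := by
  refine (int_re u u).congr (Eventually.of_forall fun x => ?_)
  exact inner_self_eq_norm_sq (𝕜 := ℂ) (u x)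

theorem suff1 (S : H →L[ℂ] H) (hS : IsRiesz S) (a b Θ : T → ℂ) (Ma Mb MΘ : H →L[ℂ] H) (hMa : IsMul a Ma) (hMb : IsMul b Mb) (hMΘ : IsMul Θ MΘ)
    (ω : C(T, ℂ)) (hω : ∀ t, ω t ≠ 0) (δ M : ℝ) (hδ : 0 < δ) (hM : 1 ≤ M)
    (h : ∀ᵐ t ∂mu, δ ≤ (ω t).re ∧ δ ≤ (ω t * (a t + b t) * conj (a t - b t)).re ∧ ‖ω t‖ ≤ M ∧ ‖a t + b t‖ ≤ M ∧ ‖a t - b t‖ ≤ M ∧
      Θ t = (ω t * (a t + b t) + conj (ω t) * (a t - b t))⁻¹) : SE (MΘ ∘L (Ma + Mb ∘L S)) := by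
  have hM0 : 0 < M := by linarith
  refine SE_of _ (Rq S ∘L MC ⟨fun t => (ω t)⁻¹, ω.continuous.inv₀ hω⟩ ∘L Pp S) (K1_compact hS _) (by rw [K1_adj hS]; exact K1_compact' hS _) (δ / (4 * M ^ 4)) (by positivity) ?_
  intro f
  have e2 : inner ℂ ((Rq S ∘L MC ⟨fun t => (ω t)⁻¹, ω.continuous.inv₀ hω⟩ ∘L Pp S) f) f = inner ℂ (MC ⟨fun t => (ω t)⁻¹, ω.continuous.inv₀ hω⟩ (Pp S f)) (Rq S f) := by
    rw [ContinuousLinearMap.comp_apply, ← Rq_adj hS, ContinuousLinearMap.adjoint_inner_left, Rq_adj hS]; rfl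
  rw [e2, norm_PQ hS f, norm_sq_eq, norm_sq_eq, re_inner_eq, re_inner_eq, ← integral_add (int_norm_sq _) (int_norm_sq _), ← integral_const_mul,
    ← integral_sub (int_re _ _) (int_re _ _)]
  refine integral_mono_ae (((int_norm_sq _).add (int_norm_sq _)).const_mul _) ((int_re _ _).sub (int_re _ _)) ?_
  have hfe : (f : T → ℂ) =ᵐ[mu] fun x => Pp S f x + Rq S f x := by
    have := Lp.coeFn_add (Pp S f) (Rq S f)
    rw [Pp_add_Rq] at this
    exact this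
  have hSe : (S f : T → ℂ) =ᵐ[mu] fun x => Pp S f x - Rq S f x := by
    have := Lp.coeFn_sub (Pp S f) (Rq S f)
    rw [Pp_sub_Rq] at this
    exact this
  filter_upwards [h, hfe, hSe, hMΘ ((Ma + Mb ∘L S) f), Lp.coeFn_add (Ma f) (Mb (S f)), hMa f, hMb (S f), MC_isMul ⟨fun t => (ω t)⁻¹, ω.continuous.inv₀ hω⟩ (Pp S f)] with x hx h1 h2 h3 h4 h5 h6 h7
  obtain ⟨k1, k2, k3, k4, k5, k6⟩ := hx
  have h8 : ((MΘ ∘L (Ma + Mb ∘L S)) f : T → ℂ) x = Θ x * ((a x + b x) * Pp S f x + (a x - b x) * Rq S f x) := by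
    rw [ContinuousLinearMap.comp_apply, h3]
    have : ((Ma + Mb ∘L S) f : T → ℂ) x = (Ma f + Mb (S f) : H) x := rfl
    rw [this, h4, Pi.add_apply, h5, h6, h1, h2]
    ring
  have h9 := alg1 (ω x) (a x + b x) (a x - b x) (Pp S f x) (Rq S f x) δ M hδ hM k1 k2 k3 k4 k5
  simp only [RCLike.inner_apply]
  rw [h8, h7, k6]
  refine h9.trans (le_of_eq ?_)
  rw [h1]
  congr 1
  · rw [← Complex.conj_re]
    simp only [map_mul, map_add, Complex.conj_conj]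
    congr 1
    ring
  · rw [← Complex.conj_re]
    simp only [map_mul, Complex.conj_conj, ContinuousMap.coe_mk, map_inv₀]
    congr 1
    ring

end Pool.Agent.H8.Theta
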