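import Pool.Agent.H8.Theta.Suff2

set_option autoImplicit false

open MeasureTheory Filter Topology Set
open scoped ComplexConjugate ENNReal

namespace Pool.Agent.H8.Theta

/-- one-sided limits everywhere -/
def PC (a : T → ℂ) : Prop := ∀ x : ℝ, (∃ l : ℂ, Tendsto (fun s : ℝ => a (↑s : AddCircle (1:ℝ))) (𝓝[<] x) (𝓝 l)) ∧
      (∃ r : ℂ, Tendsto (fun s : ℝ => a (↑s : AddCircle (1:ℝ))) (𝓝[>] x) (𝓝 r))

/-- condition (3) -/
def Cond3 (a b : T → ℂ) : Prop := ∀ x : ℝ, ∀ ap am bp bm : ℂ,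
        Tendsto (fun s : ℝ => a (↑s : AddCircle (1:ℝ))) (𝓝[>] x) (𝓝 ap) →
        Tendsto (fun s : ℝ => a (↑s : AddCircle (1:ℝ))) (𝓝[<] x) (𝓝 am) →
        Tendsto (fun s : ℝ => b (↑s : AddCircle (1:ℝ))) (𝓝[>] x) (𝓝 bp) →
        Tendsto (fun s : ℝ => b (↑s : AddCircle (1:ℝ))) (𝓝[<] x) (𝓝 bm) →
        ∀ μ ν : ℝ, 0 ≤ μ → μ ≤ 1 → 0 ≤ ν → ν ≤ 1 →
          ((ap + bp) * (am - bm) * (μ : ℂ) + (am + bm) * (ap - bp) * (1 - (μ : ℂ))) * (ν : ℂ)
            + (ap - bp) * (am - bm) * (1 - (ν : ℂ)) ≠ 0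

theorem punct (x : ℝ) (Pr : T → Prop) (h1 : ∀ᶠ y : ℝ in 𝓝[<] x, Pr (y : T)) (h2 : ∀ᶠ y : ℝ in 𝓝[>] x, Pr (y : T)) :
    ∀ᶠ s in 𝓝[≠] (x : T), Pr s := by
  have h3 : ∀ᶠ y : ℝ in 𝓝[≠] x, Pr (y : T) := by
    rw [← Iio_union_Ioi, nhdsWithin_union, eventually_sup]
    exact ⟨h1, h2⟩
  rw [eventually_nhdsWithin_iff] at h3 ⊢
  have ho : IsOpenMap (fun y : ℝ => (y : T)) := QuotientAddGroup.isOpenMap_coe
  have := ho.image_mem_nhds h3
  refine mem_of_superset this ?_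
  rintro _ ⟨y, hy, rfl⟩ hne
  exact hy fun h => hne (by rw [mem_singleton_iff] at h ⊢; rw [h])

theorem compact_finite (F : T → ℝ) (h : ∀ t : T, ∃ δ > 0, ∀ᶠ s in 𝓝[≠] t, δ ≤ F s) :
    ∃ δ > 0, ∃ E : Set T, E.Finite ∧ ∀ t ∉ E, δ ≤ F t := by
  have := isCompact_univ (X := T) |>.induction_on (p := fun s => ∃ δ > 0, ∃ E : Set T, E.Finite ∧ ∀ t ∈ s, t ∉ E → δ ≤ F t)
    ⟨1, one_pos, ∅, finite_empty, fun t ht => absurd ht (notMem_empty t)⟩
    (fun s t hst ⟨δ, hδ, E, hE, hh⟩ => ⟨δ, hδ, E, hE, fun x hx => hh x (hst hx)⟩)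
    (fun s t ⟨δ, hδ, E, hE, hh⟩ ⟨δ', hδ', E', hE', hh'⟩ => ⟨min δ δ', lt_min hδ hδ', E ∪ E', hE.union hE', fun x hx hxE => by
      rw [mem_union, not_or] at hxE
      rcases hx with hx | hx
      · exact (min_le_left _ _).trans (hh x hx hxE.1)
      · exact (min_le_right _ _).trans (hh' x hx hxE.2)⟩)
    (fun t _ => by
      obtain ⟨δ, hδ, hs⟩ := h t
      rw [eventually_nhdsWithin_iff] at hs
      refine ⟨{x | x ∈ ({t}ᶜ : Set T) → δ ≤ F x}, by rw [nhdsWithin_univ]; exact hs, δ, hδ, {t}, finite_singleton t, fun x hx hxt => hx hxt⟩)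
  obtain ⟨δ, hδ, E, hE, hh⟩ := this
  exact ⟨δ, hδ, E, hE, fun t ht => hh t (mem_univ t) ht⟩

theorem ev_not_mem {E : Set T} (hE : E.Finite) (y : T) : ∀ᶠ s in 𝓝[≠] y, s ∉ E := by
  have : (E \ {y})ᶜ ∈ 𝓝 y := (hE.subset sdiff_subset).isClosed.isOpen_compl.mem_nhds (by simp)
  rw [eventually_nhdsWithin_iff]
  filter_upwards [this] with s hs hne hsE
  exact hs ⟨hsE, hne⟩

theorem PC.bdd {a : T → ℂ} (ha : PC a) : ∃ M : ℝ, 1 ≤ M ∧ ∀ t, ‖a t‖ ≤ M := by
  have := isCompact_univ (X := T) |>.induction_on (p := fun s => ∃ M : ℝ, 1 ≤ M ∧ ∀ t ∈ s, ‖a t‖ ≤ M)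
    ⟨1, le_rfl, fun t ht => absurd ht (notMem_empty t)⟩
    (fun s t hst ⟨M, hM, hh⟩ => ⟨M, hM, fun x hx => hh x (hst hx)⟩)
    (fun s t ⟨M, hM, hh⟩ ⟨M', hM', hh'⟩ => ⟨max M M', le_max_of_le_left hM, fun x hx => by
      rcases hx with hx | hx
      · exact (hh x hx).trans (le_max_left _ _)
      · exact (hh' x hx).trans (le_max_right _ _)⟩)
    (fun t _ => by
      obtain ⟨x, rfl⟩ := QuotientAddGroup.mk_surjective t
      obtain ⟨⟨l, hl⟩, ⟨r, hr⟩⟩ := ha x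
      have h1 : ∀ᶠ y : ℝ in 𝓝[<] x, ‖a (y : T)‖ ≤ ‖l‖ + ‖r‖ + 1 := by
        filter_upwards [hl.norm.eventually (gt_mem_nhds (show ‖l‖ < ‖l‖ + ‖r‖ + 1 by linarith [norm_nonneg r]))] with y hy
        exact hy.le
      have h2 : ∀ᶠ y : ℝ in 𝓝[>] x, ‖a (y : T)‖ ≤ ‖l‖ + ‖r‖ + 1 := by
        filter_upwards [hr.norm.eventually (gt_mem_nhds (show ‖r‖ < ‖l‖ + ‖r‖ + 1 by linarith [norm_nonneg l]))] with y hy
        exact hy.le
      have h3 := punct x (fun t => ‖a t‖ ≤ ‖l‖ + ‖r‖ + 1) h1 h2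
      rw [eventually_nhdsWithin_iff] at h3
      refine ⟨{y | y ∈ ({(x : T)}ᶜ : Set T) → ‖a y‖ ≤ ‖l‖ + ‖r‖ + 1}, by rw [nhdsWithin_univ]; exact h3, ‖l‖ + ‖r‖ + 1 + ‖a (x : T)‖, by linarith [norm_nonneg l, norm_nonneg r, norm_nonneg (a (x : T))], fun y hy => ?_⟩
      by_cases hyx : y = (x : T)
      · rw [hyx]; linarith [norm_nonneg l, norm_nonneg r]
      · exact (hy hyx).trans (by linarith [norm_nonneg (a (x : T))]))
  obtain ⟨M, hM, hh⟩ := this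
  exact ⟨M, hM, fun t => hh t (mem_univ t)⟩

theorem hb (u v w : ℂ) (h : ∀ μ ν : ℝ, 0 ≤ μ → μ ≤ 1 → 0 ≤ ν → ν ≤ 1 → (u * (μ : ℂ) + v * (1 - (μ : ℂ))) * (ν : ℂ) + w * (1 - (ν : ℂ)) ≠ 0) :
    ∃ z : ℂ, 0 < (z * u).re ∧ 0 < (z * v).re ∧ 0 < (z * w).re := by
  have h0 : (0 : ℂ) ∉ convexHull ℝ ({w, u, v} : Set ℂ) := by
    rw [convexHull_insert (by simp), mem_convexJoin]
    rintro ⟨a, ha, b, hb, hab⟩
    rw [mem_singleton_iff] at ha
    subst ha
    rw [convexHull_pair] at hb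
    obtain ⟨m1, m2, hm1, hm2, hm, rfl⟩ := hb
    obtain ⟨n1, n2, hn1, hn2, hn, he⟩ := hab
    refine h m1 n2 hm1 (by linarith) hn2 (by linarith) ?_
    have e1 : (1 - (m1 : ℂ)) = m2 := by
      have : (m1 : ℂ) + m2 = 1 := by exact_mod_cast hm
      linear_combination -this
    have e2 : (1 - (n2 : ℂ)) = n1 := by
      have : (n1 : ℂ) + n2 = 1 := by exact_mod_cast hn
      linear_combination -this
    rw [e1, e2, ← he]
    simp only [Complex.real_smul]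
    ring
  obtain ⟨f, r, hr0, hr⟩ := geometric_hahn_banach_point_closed (convex_convexHull ℝ _) ((Set.toFinite ({w, u, v} : Set ℂ)).isCompact_convexHull ℝ).isClosed h0
  rw [map_zero] at hr0
  have key : ∀ y : ℂ, ((f 1 - f Complex.I * Complex.I : ℂ) * y).re = f y := by
    intro y
    have : y = y.re • (1 : ℂ) + y.im • Complex.I := by
      apply Complex.ext <;> simp
    conv_rhs => rw [this, map_add, map_smul, map_smul]
    simp [Complex.mul_re]
    ring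
  have hs := subset_convexHull ℝ ({w, u, v} : Set ℂ)
  refine ⟨(f 1 - f Complex.I * Complex.I : ℂ), ?_, ?_, ?_⟩
  · rw [key]; exact hr0.trans (hr _ (hs (by simp)))
  · rw [key]; exact hr0.trans (hr _ (hs (by simp)))
  · rw [key]; exact hr0.trans (hr _ (hs (by simp)))

theorem omega_local {a b : T → ℂ} (ha : PC a) (hb' : PC b) (h3 : Cond3 a b) (x : ℝ) :
    ∃ w : ℂ, 0 < w.re ∧ ∃ δ > 0, ∀ᶠ s in 𝓝[≠] (x : T), δ ≤ (w * (a s + b s) * conj (a s - b s)).re := by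
  obtain ⟨⟨am, ham⟩, ⟨ap, hap⟩⟩ := ha x
  obtain ⟨⟨bm, hbm⟩, ⟨bp, hbp⟩⟩ := hb' x
  have h := h3 x ap am bp bm hap ham hbp hbm
  obtain ⟨z, hz1, hz2, hz3⟩ := hb _ _ _ h
  have hd : (ap - bp) * (am - bm) ≠ 0 := by
    intro h0
    rw [h0, mul_zero] at hz3
    simp at hz3
  have hdp : ap - bp ≠ 0 := left_ne_zero_of_mul hd
  have hdm : am - bm ≠ 0 := right_ne_zero_of_mul hd
  set w := z * ((ap - bp) * (am - bm)) with hw
  have e1 : (w * (ap + bp) * conj (ap - bp)).re = ‖ap - bp‖ ^ 2 * (z * ((ap + bp) * (am - bm))).re := by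
    have : w * (ap + bp) * conj (ap - bp) = ((‖ap - bp‖ ^ 2 : ℝ) : ℂ) * (z * ((ap + bp) * (am - bm))) := by
      rw [← Complex.normSq_eq_norm_sq, ← Complex.mul_conj, hw]; ring
    rw [this, Complex.re_ofReal_mul]
  have e2 : (w * (am + bm) * conj (am - bm)).re = ‖am - bm‖ ^ 2 * (z * ((am + bm) * (ap - bp))).re := by
    have : w * (am + bm) * conj (am - bm) = ((‖am - bm‖ ^ 2 : ℝ) : ℂ) * (z * ((am + bm) * (ap - bp))) := by
      rw [← Complex.normSq_eq_norm_sq, ← Complex.mul_conj, hw]; ring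
    rw [this, Complex.re_ofReal_mul]
  have p1 : 0 < (w * (ap + bp) * conj (ap - bp)).re := by
    rw [e1]; exact mul_pos (by positivity) hz1
  have p2 : 0 < (w * (am + bm) * conj (am - bm)).re := by
    rw [e2]; exact mul_pos (by positivity) hz2
  refine ⟨w, hz3, min ((w * (ap + bp) * conj (ap - bp)).re / 2) ((w * (am + bm) * conj (am - bm)).re / 2), lt_min (by linarith) (by linarith), ?_⟩
  have hF : Continuous fun q : ℂ × ℂ => (w * (q.1 + q.2) * conj (q.1 - q.2)).re := by fun_prop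
  refine punct x _ ?_ ?_
  · have ht := (hF.tendsto (am, bm)).comp (ham.prodMk_nhds hbm)
    filter_upwards [ht.eventually (lt_mem_nhds (show (w * (am + bm) * conj (am - bm)).re / 2 < (w * (am + bm) * conj (am - bm)).re by linarith))] with y hy
    exact (min_le_right _ _).trans hy.le
  · have ht := (hF.tendsto (ap, bp)).comp (hap.prodMk_nhds hbp)
    filter_upwards [ht.eventually (lt_mem_nhds (show (w * (ap + bp) * conj (ap - bp)).re / 2 < (w * (ap + bp) * conj (ap - bp)).re by linarith))] with y hy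
    exact (min_le_left _ _).trans hy.le

theorem omega_exists {a b : T → ℂ} (ha : PC a) (hb' : PC b) (h3 : Cond3 a b) :
    ∃ ω : C(T, ℂ), ∃ δ > 0, (∀ t, δ ≤ (ω t).re) ∧ ∃ E : Set T, E.Finite ∧ ∀ t ∉ E, δ ≤ (ω t * (a t + b t) * conj (a t - b t)).re := by
  obtain ⟨M1, hM1, hM1'⟩ := ha.bdd
  obtain ⟨M2, hM2, hM2'⟩ := hb'.bdd
  set tt : T → Set ℂ := fun y => {w : ℂ | 0 < w.re ∧ ∃ δ > 0, ∀ᶠ s in 𝓝[≠] y, δ ≤ (w * (a s + b s) * conj (a s - b s)).re} with htt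
  have hconv : ∀ y, Convex ℝ (tt y) := by
    intro y w1 hw1 w2 hw2 α β hα hβ hαβ
    obtain ⟨h1, δ1, hδ1, h2⟩ := hw1
    obtain ⟨h1', δ2, hδ2, h2'⟩ := hw2
    have hm : ∀ r1 r2 : ℝ, 0 < r1 → 0 < r2 → min r1 r2 ≤ α * r1 + β * r2 := by
      intro r1 r2 _ _
      have e1 : min r1 r2 ≤ r1 := min_le_left _ _
      have e2 : min r1 r2 ≤ r2 := min_le_right _ _
      calc min r1 r2 = α * min r1 r2 + β * min r1 r2 := by rw [← add_mul, hαβ, one_mul]
        _ ≤ _ := by gcongr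
    refine ⟨?_, min δ1 δ2, lt_min hδ1 hδ2, ?_⟩
    · have : (α • w1 + β • w2).re = α * w1.re + β * w2.re := by simp
      rw [this]
      exact (lt_min h1 h1').trans_le (hm _ _ h1 h1')
    · filter_upwards [h2, h2'] with s hs hs'
      have : ((α • w1 + β • w2) * (a s + b s) * conj (a s - b s)).re = α * (w1 * (a s + b s) * conj (a s - b s)).re + β * (w2 * (a s + b s) * conj (a s - b s)).re := by
        rw [← Complex.re_ofReal_mul, ← Complex.re_ofReal_mul, ← Complex.add_re]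
        congr 1
        simp only [Complex.real_smul]
        ring
      rw [this]
      calc min δ1 δ2 = α * min δ1 δ2 + β * min δ1 δ2 := by rw [← add_mul, hαβ, one_mul]
        _ ≤ _ := by
          gcongr
          · exact (min_le_left _ _).trans hs
          · exact (min_le_right _ _).trans hs'
  have hloc : ∀ y : T, ∃ w : ℂ, ∀ᶠ y' in 𝓝 y, w ∈ tt y' := by
    intro y
    obtain ⟨x, rfl⟩ := QuotientAddGroup.mk_surjective y
    obtain ⟨w, hw, δ, hδ, hs⟩ := omega_local ha hb' h3 x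
    refine ⟨w, ?_⟩
    have h1 := eventually_eventually_nhdsWithin.2 hs
    rw [eventually_nhdsWithin_iff] at h1
    filter_upwards [h1] with y' hy'
    refine ⟨hw, δ, hδ, ?_⟩
    by_cases h : y' = (x : T)
    · rw [h]; exact hs
    · have h2 := hy' h
      rw [(isOpen_compl_singleton).nhdsWithin_eq h] at h2
      exact h2.filter_mono nhdsWithin_le_nhds
  obtain ⟨ω, hω⟩ := exists_continuous_forall_mem_convex_of_local_const hconv hloc
  have hre : ∃ δ > 0, ∀ t, δ ≤ (ω t).re := by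
    obtain ⟨t0, -, ht0⟩ := isCompact_univ.exists_isMinOn univ_nonempty (Complex.continuous_re.comp ω.continuous).continuousOn
    exact ⟨(ω t0).re, (hω t0).1, fun t => ht0 (mem_univ t)⟩
  obtain ⟨δ1, hδ1, h1⟩ := hre
  obtain ⟨δ2, hδ2, E, hE, h2⟩ := compact_finite (fun t => (ω t * (a t + b t) * conj (a t - b t)).re) (by
    intro y
    obtain ⟨-, δ, hδ, hs⟩ := hω y
    refine ⟨δ / 2, by linarith, ?_⟩
    have hpos : 0 < (M1 + M2) ^ 2 := by positivity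
    have hc : ∀ᶠ s in 𝓝[≠] y, ‖ω s - ω y‖ < δ / 2 / (M1 + M2) ^ 2 := by
      have := (ω.continuous.tendsto y)
      have h4 := (Metric.tendsto_nhds.1 this) (δ / 2 / (M1 + M2) ^ 2) (by positivity)
      exact (h4.mono fun s hs => by rwa [dist_eq_norm] at hs).filter_mono nhdsWithin_le_nhds
    filter_upwards [hs, hc] with s hs hc
    have e : (ω s * (a s + b s) * conj (a s - b s)).re = (ω y * (a s + b s) * conj (a s - b s)).re + ((ω s - ω y) * (a s + b s) * conj (a s - b s)).re := by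
      rw [← Complex.add_re]; congr 1; ring
    have hb1 : ‖(ω s - ω y) * (a s + b s) * conj (a s - b s)‖ ≤ ‖ω s - ω y‖ * (M1 + M2) * (M1 + M2) := by
      rw [norm_mul, norm_mul, RCLike.norm_conj]
      have e1 : ‖a s + b s‖ ≤ M1 + M2 := (norm_add_le _ _).trans (add_le_add (hM1' s) (hM2' s))
      have e2 : ‖a s - b s‖ ≤ M1 + M2 := (norm_sub_le _ _).trans (add_le_add (hM1' s) (hM2' s))
      gcongr
    have hb2 : ‖ω s - ω y‖ * (M1 + M2) * (M1 + M2) ≤ δ / 2 := by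
      rw [lt_div_iff₀ hpos] at hc
      nlinarith
    have hb3 := (abs_le.1 ((Complex.abs_re_le_norm _).trans (hb1.trans hb2))).1
    rw [e]
    linarith)
  exact ⟨ω, min δ1 δ2, lt_min hδ1 hδ2, fun t => (min_le_left _ _).trans (h1 t), E, hE, fun t ht => (min_le_right _ _).trans (h2 t ht)⟩

end Pool.Agent.H8.Theta
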